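import Mathlib

set_option autoImplicit false
set_option linter.unusedVariables false

open CategoryTheory

namespace Pool.Agent.TH165.Tan

/-! ## Fibred categories over affine schemes

The category of affine schemes is the opposite of the category of commutative rings. A category
fibred in groupoids over affine schemes is given by its objects over (the spectrum of) every
commutative ring `R` and its morphisms over every ring map `φ : R →+* S`. We write
`Hom φ x y` for the set of morphisms over `Spec S ⟶ Spec R` from the object `y` over `Spec S` to the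
object `x` over `Spec R`; such a morphism identifies `y` with the pullback of `x`. -/

/-- Categories fibred in groupoids over the category of affine schemes. -/
structure Fib where
  /-- the objects over `Spec R` -/
  Obj (R : Type) [CommRing R] : Type 2
  /-- the morphisms from `y` (over `Spec S`) to `x` (over `Spec R`) above `Spec φ` -/
  Hom {R S : Type} [CommRing R] [CommRing S] (φ : R →+* S) (x : Obj R) (y : Obj S) : Type 1
  /-- identities -/
  id {R : Type} [CommRing R] (x : Obj R) : Hom (RingHom.id R) x x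
  /-- composition -/
  comp {R S T : Type} [CommRing R] [CommRing S] [CommRing T] {φ : R →+* S} {ψ : S →+* T}
    {x : Obj R} {y : Obj S} {z : Obj T} (f : Hom φ x y) (g : Hom ψ y z) : Hom (ψ.comp φ) x z
  id_comp {R S : Type} [CommRing R] [CommRing S] {φ : R →+* S} {x : Obj R} {y : Obj S}
    (f : Hom φ x y) : comp (id x) f = f
  comp_id {R S : Type} [CommRing R] [CommRing S] {φ : R →+* S} {x : Obj R} {y : Obj S}
    (f : Hom φ x y) : comp f (id y) = f
  assoc {R S T U : Type} [CommRing R] [CommRing S] [CommRing T] [CommRing U] {φ : R →+* S}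
    {ψ : S →+* T} {χ : T →+* U} {x : Obj R} {y : Obj S} {z : Obj T} {w : Obj U}
    (f : Hom φ x y) (g : Hom ψ y z) (h : Hom χ z w) : comp (comp f g) h = comp f (comp g h)
  /-- the pullback of `x` to `Spec S` -/
  pull {R S : Type} [CommRing R] [CommRing S] (φ : R →+* S) (x : Obj R) : Obj S
  /-- the morphism from the pullback of `x` to `x` -/
  toPull {R S : Type} [CommRing R] [CommRing S] (φ : R →+* S) (x : Obj R) : Hom φ x (pull φ x)
  /-- all morphisms are cartesian -/
  cart {R S T : Type} [CommRing R] [CommRing S] [CommRing T] {φ : R →+* S} {ψ : S →+* T}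
    {x : Obj R} {y : Obj S} {z : Obj T} (f : Hom φ x y) (g : Hom (ψ.comp φ) x z) :
    ∃! h : Hom ψ y z, comp f h = g

/-- Morphisms of fibred categories (1-morphisms). -/
structure Mor (X Y : Fib) where
  /-- the map on objects -/
  obj {R : Type} [CommRing R] (x : X.Obj R) : Y.Obj R
  /-- the map on morphisms -/
  map {R S : Type} [CommRing R] [CommRing S] {φ : R →+* S} {x : X.Obj R} {y : X.Obj S}
    (f : X.Hom φ x y) : Y.Hom φ (obj x) (obj y)
  map_id {R : Type} [CommRing R] (x : X.Obj R) : map (X.id x) = Y.id (obj x)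
  map_comp {R S T : Type} [CommRing R] [CommRing S] [CommRing T] {φ : R →+* S} {ψ : S →+* T}
    {x : X.Obj R} {y : X.Obj S} {z : X.Obj T} (f : X.Hom φ x y) (g : X.Hom ψ y z) :
    map (X.comp f g) = Y.comp (map f) (map g)

/-- 2-morphisms between morphisms of fibred categories: natural transformations over the
identity. -/
@[ext]
structure Mor2 {X Y : Fib} (F G : Mor X Y) where
  /-- the components -/
  app {R : Type} [CommRing R] (x : X.Obj R) : Y.Hom (RingHom.id R) (F.obj x) (G.obj x)
  naturality {R S : Type} [CommRing R] [CommRing S] {φ : R →+* S} {x : X.Obj R} {y : X.Obj S}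
    (f : X.Hom φ x y) : Y.comp (F.map f) (app y) = Y.comp (app x) (G.map f)

variable {X Y Z : Fib}

/-- The identity 2-morphism. -/
def Mor2.id (F : Mor X Y) : Mor2 F F where
  app x := Y.id (F.obj x)
  naturality f := (Y.comp_id _).trans (Y.id_comp _).symm

lemma Mor2.comp_naturality {F G H : Mor X Y} (η : Mor2 F G) (θ : Mor2 G H) {R S : Type}
    [CommRing R] [CommRing S] {φ : R →+* S} {x : X.Obj R} {y : X.Obj S} (f : X.Hom φ x y) :
    Y.comp (F.map f) (Y.comp (η.app y) (θ.app y)) =
      Y.comp (Y.comp (η.app x) (θ.app x)) (H.map f) := by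
  have h1 : Y.comp (F.map f) (Y.comp (η.app y) (θ.app y)) =
      Y.comp (Y.comp (F.map f) (η.app y)) (θ.app y) := (Y.assoc _ _ _).symm
  have h2 : Y.comp (Y.comp (η.app x) (G.map f)) (θ.app y) =
      Y.comp (η.app x) (Y.comp (G.map f) (θ.app y)) := Y.assoc _ _ _
  have h3 : Y.comp (η.app x) (Y.comp (θ.app x) (H.map f)) =
      Y.comp (Y.comp (η.app x) (θ.app x)) (H.map f) := (Y.assoc _ _ _).symm
  refine h1.trans ?_
  refine (congrArg (fun t => Y.comp t (θ.app y)) (η.naturality f)).trans ?_
  refine h2.trans ?_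
  refine (congrArg (fun t => Y.comp (η.app x) t) (θ.naturality f)).trans ?_
  exact h3

/-- Composition of 2-morphisms. -/
def Mor2.comp {F G H : Mor X Y} (η : Mor2 F G) (θ : Mor2 G H) : Mor2 F H where
  app x := Y.comp (η.app x) (θ.app x)
  naturality := Mor2.comp_naturality η θ

lemma Mor2.id_comp {F G : Mor X Y} (η : Mor2 F G) : (Mor2.id F).comp η = η :=
  Mor2.ext (funext fun _ => funext fun _ => funext fun _ => Y.id_comp _)

lemma Mor2.comp_id {F G : Mor X Y} (η : Mor2 F G) : η.comp (Mor2.id G) = η :=
  Mor2.ext (funext fun _ => funext fun _ => funext fun _ => Y.comp_id _)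

lemma Mor2.assoc {F G H K : Mor X Y} (η : Mor2 F G) (θ : Mor2 G H) (κ : Mor2 H K) :
    (η.comp θ).comp κ = η.comp (θ.comp κ) :=
  Mor2.ext (funext fun _ => funext fun _ => funext fun _ => Y.assoc _ _ _)

/-- The category of morphisms from `X` to `Y`. -/
instance Mor.cat (X Y : Fib) : Category.{2} (Mor X Y) where
  Hom := Mor2
  id := Mor2.id
  comp := Mor2.comp
  id_comp := Mor2.id_comp
  comp_id := Mor2.comp_id
  assoc := Mor2.assoc

/-- Composition of morphisms of fibred categories. -/
def Mor.comp (F : Mor X Y) (G : Mor Y Z) : Mor X Z where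
  obj x := G.obj (F.obj x)
  map f := G.map (F.map f)
  map_id x := (congrArg G.map (F.map_id x)).trans (G.map_id _)
  map_comp f g := (congrArg G.map (F.map_comp f g)).trans (G.map_comp _ _)

/-- Precomposition of a 2-morphism with a morphism of fibred categories. -/
def Mor2.pre (F : Mor X Y) {G H : Mor Y Z} (η : Mor2 G H) : Mor2 (F.comp G) (F.comp H) where
  app x := η.app (F.obj x)
  naturality f := η.naturality (F.map f)

/-- Precomposition with a morphism of fibred categories. -/
def Mor.pre (F : Mor X Y) (Z : Fib) : Mor Y Z ⥤ Mor X Z where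
  obj := F.comp
  map := Mor2.pre F

/-- Commutative triangles of rings: `φ.comp f = g`. -/
structure Tri {R S T : Type} [CommRing R] [CommRing S] [CommRing T] (f : R →+* S) (φ : S →+* T)
    (g : R →+* T) : Type 1 where
  eq : φ.comp f = g

lemma Tri.comp_eq {R S T U : Type} [CommRing R] [CommRing S] [CommRing T] [CommRing U]
    {f : R →+* S} {φ : S →+* T} {g : R →+* T} {ψ : T →+* U} {h : R →+* U} (a : Tri f φ g)
    (b : Tri g ψ h) : (ψ.comp φ).comp f = h := by
  rw [RingHom.comp_assoc, a.eq, b.eq]

lemma Tri.cart {R S T U : Type} [CommRing R] [CommRing S] [CommRing T] [CommRing U]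
    {f : R →+* S} {φ : S →+* T} {g : R →+* T} {ψ : T →+* U} {h : R →+* U} (a : Tri f φ g)
    (b : Tri f (ψ.comp φ) h) : ∃! c : Tri g ψ h, (⟨Tri.comp_eq a c⟩ : Tri f (ψ.comp φ) h) = b := by
  have ha := a.eq
  have hb := b.eq
  refine ⟨⟨?_⟩, rfl, fun _ _ => rfl⟩
  rw [← ha, ← hb]; rfl

/-- Sieves on the affine scheme `Spec R`: classes of ring maps `R →+* S` closed under
composition with ring maps `S →+* T`. -/
structure Sv (R : Type) [CommRing R] where
  /-- the ring maps in the sieve -/
  mem {S : Type} [CommRing S] (φ : R →+* S) : Prop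
  comp_mem {S T : Type} [CommRing S] [CommRing T] (φ : R →+* S) (ψ : S →+* T) :
    mem φ → mem (ψ.comp φ)

/-- Covering sieves for the étale topology: the étale maps `R →+* S` in the sieve are jointly
surjective on spectra (as étale maps are open and spectra are quasi-compact, finitely many of
them are then jointly surjective). -/
def Sv.Covers {R : Type} [CommRing R] (𝒰 : Sv R) : Prop :=
  ∀ p : PrimeSpectrum R, ∃ (S : Type) (_ : CommRing S) (φ : R →+* S),
    φ.Etale ∧ 𝒰.mem φ ∧ p ∈ Set.range (PrimeSpectrum.comap φ)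

/-- The points of a sieve over `Spec S`: the ring maps `R →+* S` in the sieve. -/
structure Sv.Pt {R : Type} [CommRing R] (𝒰 : Sv R) (S : Type) [CommRing S] : Type 2 where
  /-- the ring map -/
  hom : R →+* S
  mem : 𝒰.mem hom

/-- The fibred category of a sieve on `Spec R`: its objects over `Spec S` are the ring maps
`R →+* S` in the sieve, and there is one morphism above `Spec φ` when the evident triangle
commutes. -/
def Sv.fib {R : Type} [CommRing R] (𝒰 : Sv R) : Fib where
  Obj := 𝒰.Pt
  Hom φ f g := Tri f.hom φ g.hom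
  id f := ⟨rfl⟩
  comp a b := ⟨Tri.comp_eq a b⟩
  id_comp _ := rfl
  comp_id _ := rfl
  assoc _ _ _ := rfl
  pull φ f := ⟨φ.comp f.hom, 𝒰.comp_mem _ _ f.mem⟩
  toPull φ f := ⟨rfl⟩
  cart := Tri.cart

/-- The maximal sieve, consisting of all ring maps `R →+* S`. -/
def Sv.top (R : Type) [CommRing R] : Sv R where
  mem _ := True
  comp_mem _ _ := id

/-- The fibred category of the affine scheme `Spec R`: its objects over `Spec S` are all ring maps
`R →+* S`, and there is one morphism above `Spec φ` when the evident triangle commutes. -/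
def Fib.spec (R : Type) [CommRing R] : Fib := (Sv.top R).fib

/-- The inclusion of a sieve. -/
def Sv.incl {R : Type} [CommRing R] (𝒰 : Sv R) : Mor 𝒰.fib (Fib.spec R) where
  obj f := ⟨f.hom, trivial⟩
  map a := ⟨a.eq⟩
  map_id _ := rfl
  map_comp _ _ := rfl

/-- Stacks in groupoids for the étale topology on affine schemes: for every covering sieve
`𝒰 ⊆ Spec R`, restriction from the category of morphisms `Spec R ⟶ X` (which is equivalent to the
fibre category of `X` over `Spec R`) to the category of morphisms `𝒰 ⟶ X` (the category of descent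
data) is an equivalence. -/
def Fib.IsStack (X : Fib) : Prop :=
  ∀ (R : Type) [CommRing R] (𝒰 : Sv R), 𝒰.Covers → (𝒰.incl.pre X).IsEquivalence

/-! ## Algebraic spaces and algebraic stacks -/

/-- Functors from commutative rings to sets (presheaves of sets on affine schemes). -/
structure Fn where
  /-- the points over `Spec R` -/
  obj (R : Type) [CommRing R] : Type 1
  /-- pullback of points -/
  map {R S : Type} [CommRing R] [CommRing S] (φ : R →+* S) (t : obj R) : obj S
  map_id {R : Type} [CommRing R] (t : obj R) : map (RingHom.id R) t = t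
  map_comp {R S T : Type} [CommRing R] [CommRing S] [CommRing T] (φ : R →+* S) (ψ : S →+* T)
    (t : obj R) : map (ψ.comp φ) t = map ψ (map φ t)

/-- Sheaves of sets for the étale topology on affine schemes. -/
def Fn.IsSheaf (F : Fn) : Prop :=
  ∀ (R : Type) [CommRing R] (𝒰 : Sv R), 𝒰.Covers →
    ∀ s : ∀ (S : Type) [CommRing S] (φ : R →+* S), 𝒰.mem φ → F.obj S,
      (∀ (S T : Type) [CommRing S] [CommRing T] (φ : R →+* S) (ψ : S →+* T) (h : 𝒰.mem φ)
        (h' : 𝒰.mem (ψ.comp φ)), F.map ψ (s S φ h) = s T (ψ.comp φ) h') →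
      ∃! t : F.obj R, ∀ (S : Type) [CommRing S] (φ : R →+* S) (h : 𝒰.mem φ),
        F.map φ t = s S φ h

/-- Functors with a morphism to `Spec C`. -/
structure FnOver (C : Type) [CommRing C] extends Fn where
  /-- the morphism to `Spec C` -/
  str {R : Type} [CommRing R] (t : obj R) : C →+* R
  str_map {R S : Type} [CommRing R] [CommRing S] (φ : R →+* S) (t : obj R) :
    str (map φ t) = φ.comp (str t)

/-- For points `b : Spec B ⟶ F` and `d : Spec D ⟶ F`, the points over `Spec R` of the fibre product
of `Spec B` and `Spec D` over `F`. -/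
@[ext]
structure Fn.FibPt (F : Fn) {B D : Type} [CommRing B] [CommRing D] (b : F.obj B) (d : F.obj D)
    (R : Type) [CommRing R] : Type 1 where
  /-- the point of `Spec B` -/
  fst : B →+* R
  /-- the point of `Spec D` -/
  snd : D →+* R
  eq : F.map fst b = F.map snd d

lemma Fn.FibPt.map_eq {F : Fn} {B D : Type} [CommRing B] [CommRing D] {b : F.obj B} {d : F.obj D}
    {R S : Type} [CommRing R] [CommRing S] (φ : R →+* S) (t : F.FibPt b d R) :
    F.map (φ.comp t.fst) b = F.map (φ.comp t.snd) d := by
  rw [F.map_comp, F.map_comp, t.eq]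

/-- For points `b : Spec B ⟶ F` and `d : Spec D ⟶ F`, the fibre product of `Spec B` and `Spec D`
over `F`, with its projection to `Spec D`. -/
def Fn.fibre (F : Fn) {B D : Type} [CommRing B] [CommRing D] (b : F.obj B) (d : F.obj D) :
    FnOver D where
  obj := F.FibPt b d
  map φ t := ⟨φ.comp t.fst, φ.comp t.snd, t.map_eq φ⟩
  map_id _ := rfl
  map_comp _ _ _ := rfl
  str := Fn.FibPt.snd
  str_map _ _ := rfl

/-- For points `b i : Spec (B i) ⟶ F` and `d : Spec D ⟶ F`: the restriction of `d` along
`Spec S ⟶ Spec D` lifts to one of the `Spec (B i)`. -/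
def Fn.Lifts (F : Fn) {ι : Type} (B : ι → Type) [∀ i, CommRing (B i)] (b : ∀ i, F.obj (B i))
    {D : Type} [CommRing D] (d : F.obj D) {S : Type} [CommRing S] (ψ : D →+* S) : Prop :=
  ∃ (i : ι) (β : B i →+* S), F.map β (b i) = F.map ψ d

lemma Fn.Lifts.comp {F : Fn} {ι : Type} {B : ι → Type} [∀ i, CommRing (B i)] {b : ∀ i, F.obj (B i)}
    {D : Type} [CommRing D] {d : F.obj D} {S T : Type} [CommRing S] [CommRing T] (φ : D →+* S)
    (ψ : S →+* T) (h : F.Lifts B b d φ) : F.Lifts B b d (ψ.comp φ) := by
  obtain ⟨i, β, h⟩ := h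
  exact ⟨i, ψ.comp β, by rw [F.map_comp, F.map_comp, h]⟩

/-- A family of points `b i : Spec (B i) ⟶ F` is jointly surjective (as a family of morphisms of
étale sheaves): every point of `F` lifts étale-locally to one of the `Spec (B i)`. -/
def Fn.JointlySurj (F : Fn) {ι : Type} (B : ι → Type) [∀ i, CommRing (B i)]
    (b : ∀ i, F.obj (B i)) : Prop :=
  ∀ (D : Type) [CommRing D] (d : F.obj D),
    Sv.Covers { mem := F.Lifts B b d, comp_mem := Fn.Lifts.comp : Sv D }

/-- `F ⟶ Spec C` is étale and representable by `n`-geometric algebraic spaces. For `n = 0` this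
means that `F` is the spectrum of an étale `C`-algebra; for `n + 1` it means that `F` is a sheaf
which has a jointly surjective family of points `b i : Spec (B i) ⟶ F`, with `B i` étale over
`C`, such that the base change of `b i` to every `Spec D ⟶ F` is étale and representable by
`n`-geometric algebraic spaces. -/
def FnOver.IsEtale : ℕ → ∀ {C : Type} [CommRing C], FnOver C → Prop
  | 0, _, _, F => ∃ (B : Type) (_ : CommRing B) (b : F.obj B), (F.str b).Etale ∧
      ∀ (R : Type) [CommRing R] (t : F.obj R), ∃! β : B →+* R, F.map β b = t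
  | n + 1, _, _, F => F.IsSheaf ∧
      ∃ (ι : Type) (B : ι → Type) (_ : ∀ i, CommRing (B i)) (b : ∀ i, F.obj (B i)),
        (∀ i, (F.str (b i)).Etale) ∧
        (∀ (i : ι) (D : Type) [CommRing D] (d : F.obj D), (F.fibre (b i) d).IsEtale n) ∧
        F.JointlySurj B b

/-- `F` is an algebraic space, smooth over `Spec C`: a sheaf with an étale atlas by spectra of
smooth `C`-algebras. -/
def FnOver.IsSmoothSpace {C : Type} [CommRing C] (F : FnOver C) : Prop :=
  F.IsSheaf ∧
    ∃ (n : ℕ) (ι : Type) (B : ι → Type) (_ : ∀ i, CommRing (B i)) (b : ∀ i, F.obj (B i)),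
      (∀ i, (F.str (b i)).Smooth) ∧
      (∀ (i : ι) (D : Type) [CommRing D] (d : F.obj D), (F.fibre (b i) d).IsEtale n) ∧
      F.JointlySurj B b

/-- The comparison morphism between pullbacks. -/
noncomputable def Fib.pullMap (X : Fib) {R S T : Type} [CommRing R] [CommRing S] [CommRing T]
    (φ : R →+* S) (ψ : S →+* T) (x : X.Obj R) :
    X.Hom ψ (X.pull φ x) (X.pull (ψ.comp φ) x) :=
  (X.cart (X.toPull φ x) (X.toPull (ψ.comp φ) x)).choose

lemma Fib.comp_pullMap (X : Fib) {R S T : Type} [CommRing R] [CommRing S] [CommRing T]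
    (φ : R →+* S) (ψ : S →+* T) (x : X.Obj R) :
    X.comp (X.toPull φ x) (X.pullMap φ ψ x) = X.toPull (ψ.comp φ) x :=
  (X.cart (X.toPull φ x) (X.toPull (ψ.comp φ) x)).choose_spec.1

lemma Fib.hom_ext' (X : Fib) {R S T : Type} [CommRing R] [CommRing S] [CommRing T]
    {φ : R →+* S} {ψ : S →+* T} {x : X.Obj R} {y : X.Obj S} {z : X.Obj T} (f : X.Hom φ x y)
    (g h : X.Hom ψ y z) (e : X.comp f g = X.comp f h) : g = h :=
  (X.cart f (X.comp f h)).unique e rfl

/-- For objects `x` of `X` over `Spec A` and `y` of `X` over `Spec C`, the points over `Spec R` of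
the fibre product of `Spec A` and `Spec C` over `X`: ring maps `A →+* R` and `C →+* R` and an
isomorphism between the pullbacks of `x` and `y`. -/
structure Fib.FibPt (X : Fib) {A C : Type} [CommRing A] [CommRing C] (x : X.Obj A) (y : X.Obj C)
    (R : Type) [CommRing R] : Type 1 where
  /-- the point of `Spec A` -/
  fst : A →+* R
  /-- the point of `Spec C` -/
  snd : C →+* R
  /-- the isomorphism -/
  iso : X.Hom fst x (X.pull snd y)

section

variable {A C R S T : Type} [CommRing A] [CommRing C] [CommRing R] [CommRing S] [CommRing T]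
  {x : X.Obj A} {y : X.Obj C}

/-- The pullback of a point of the fibre product. -/
noncomputable def Fib.FibPt.map (φ : R →+* S) (t : X.FibPt x y R) : X.FibPt x y S :=
  ⟨φ.comp t.fst, φ.comp t.snd, X.comp t.iso (X.pullMap t.snd φ y)⟩

lemma Fib.FibPt.map_id (t : X.FibPt x y R) : t.map (RingHom.id R) = t := by
  obtain ⟨β, ψ, a⟩ := t
  have h : X.pullMap ψ (RingHom.id R) y = X.id (X.pull ψ y) := by
    apply X.hom_ext' (X.toPull ψ y)
    exact (X.comp_pullMap ψ (RingHom.id R) y).trans (X.comp_id _).symm
  have h2 : X.comp a (X.pullMap ψ (RingHom.id R) y) = a :=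
    (congrArg (X.comp a) h).trans (X.comp_id a)
  exact congrArg (fun b : X.Hom β x (X.pull ψ y) => (⟨β, ψ, b⟩ : X.FibPt x y R)) h2

lemma Fib.FibPt.map_comp (φ : R →+* S) (χ : S →+* T) (t : X.FibPt x y R) :
    t.map (χ.comp φ) = (t.map φ).map χ := by
  obtain ⟨β, ψ, a⟩ := t
  have h : X.pullMap ψ (χ.comp φ) y = X.comp (X.pullMap ψ φ y) (X.pullMap (φ.comp ψ) χ y) := by
    apply X.hom_ext' (X.toPull ψ y)
    refine (X.comp_pullMap ψ (χ.comp φ) y).trans ?_
    refine (X.comp_pullMap (φ.comp ψ) χ y).symm.trans ?_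
    refine (congrArg (fun b => X.comp b (X.pullMap (φ.comp ψ) χ y))
      (X.comp_pullMap ψ φ y).symm).trans ?_
    exact X.assoc _ _ _
  have h2 : X.comp a (X.pullMap ψ (χ.comp φ) y) =
      X.comp (X.comp a (X.pullMap ψ φ y)) (X.pullMap (φ.comp ψ) χ y) :=
    (congrArg (X.comp a) h).trans (X.assoc _ _ _).symm
  exact congrArg (fun b : X.Hom ((χ.comp φ).comp β) x (X.pull ((χ.comp φ).comp ψ) y) =>
    (⟨(χ.comp φ).comp β, (χ.comp φ).comp ψ, b⟩ : X.FibPt x y T)) h2

end

/-- For objects `x` of `X` over `Spec A` and `y` of `X` over `Spec C`, the fibre product of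
`Spec A` and `Spec C` over `X`, with its projection to `Spec C`. -/
noncomputable def Fib.fibre (X : Fib) {A C : Type} [CommRing A] [CommRing C] (x : X.Obj A)
    (y : X.Obj C) : FnOver C where
  obj := X.FibPt x y
  map := Fib.FibPt.map
  map_id := Fib.FibPt.map_id
  map_comp := Fib.FibPt.map_comp
  str := Fib.FibPt.snd
  str_map _ _ := rfl

/-- For objects `x i` of `X` over `Spec (A i)` and `y` of `X` over `Spec C`: the restriction of `y`
along `Spec S ⟶ Spec C` is isomorphic to a pullback of one of the `x i`. -/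
def Fib.Lifts (X : Fib) {ι : Type} (A : ι → Type) [∀ i, CommRing (A i)] (x : ∀ i, X.Obj (A i))
    {C : Type} [CommRing C] (y : X.Obj C) {S : Type} [CommRing S] (ψ : C →+* S) : Prop :=
  ∃ (i : ι) (β : A i →+* S), Nonempty (X.Hom β (x i) (X.pull ψ y))

lemma Fib.Lifts.comp {ι : Type} {A : ι → Type} [∀ i, CommRing (A i)] {x : ∀ i, X.Obj (A i)}
    {C : Type} [CommRing C] {y : X.Obj C} {S T : Type} [CommRing S] [CommRing T] (φ : C →+* S)
    (ψ : S →+* T) (h : X.Lifts A x y φ) : X.Lifts A x y (ψ.comp φ) := by
  obtain ⟨i, β, ⟨a⟩⟩ := h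
  exact ⟨i, ψ.comp β, ⟨X.comp a (X.pullMap φ ψ y)⟩⟩

/-- Algebraic stacks: étale stacks `X` in groupoids with a smooth atlas, that is a family of
objects `x i : Spec (A i) ⟶ X` which is representable by algebraic spaces and smooth (the fibre
product of `Spec (A i)` and `Spec C` over `X` is an algebraic space, smooth over `Spec C`, for
every `Spec C ⟶ X`) and jointly surjective (every object of `X` lifts étale-locally to one of the
`Spec (A i)`). -/
def Fib.IsAlgebraic (X : Fib) : Prop :=
  X.IsStack ∧ ∃ (ι : Type) (A : ι → Type) (_ : ∀ i, CommRing (A i)) (x : ∀ i, X.Obj (A i)),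
    (∀ (i : ι) (C : Type) [CommRing C] (y : X.Obj C), (X.fibre (x i) y).IsSmoothSpace) ∧
    ∀ (C : Type) [CommRing C] (y : X.Obj C),
      Sv.Covers { mem := X.Lifts A x y, comp_mem := Fib.Lifts.comp : Sv C }

/-- Closed immersions which are defined by a nilpotent ideal: `i : X₀ ⟶ X` is fully faithful and
there are a quasi-coherent ideal `I` of the structure sheaf of `X` (an ideal `I x` of `R` for every
object `x` of `X` over `Spec R`, compatible with pullback) and a natural number `n ≥ 1` such that
`I ^ n = 0` and such that an object `x` of `X` is isomorphic to the image of an object of `X₀` if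
and only if `I x = 0`. -/
def Mor.IsNilpotentClosedImmersion {X₀ X : Fib} (i : Mor X₀ X) : Prop :=
  (∀ {R S : Type} [CommRing R] [CommRing S] (φ : R →+* S) (x : X₀.Obj R) (y : X₀.Obj S),
    Function.Bijective (fun f : X₀.Hom φ x y => i.map f)) ∧
  ∃ (I : ∀ {R : Type} [CommRing R], X.Obj R → Ideal R) (n : ℕ), 1 ≤ n ∧
    (∀ {R S : Type} [CommRing R] [CommRing S] (φ : R →+* S) (x : X.Obj R) (y : X.Obj S),
      X.Hom φ x y → I y = (I x).map φ) ∧
    (∀ {R : Type} [CommRing R] (x : X.Obj R), I x ^ n = ⊥) ∧
    ∀ {R : Type} [CommRing R] (x : X.Obj R),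
      (∃ x₀ : X₀.Obj R, Nonempty (X.Hom (RingHom.id R) (i.obj x₀) x)) ↔ I x = ⊥

end Pool.Agent.TH165.Tan
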