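import Mathlib

set_option autoImplicit false
set_option linter.unusedVariables false

open TensorProduct

namespace Pool.Agent.TH165.Tan

/-! ## Modules and semilinear maps -/

/-- Modules over the ring `R`. -/
structure Md (R : Type) [CommRing R] where
  /-- the underlying set -/
  carrier : Type
  [grp : AddCommGroup carrier]
  [mod : Module R carrier]

attribute [instance] Md.grp Md.mod

/-- For a ring map `φ : R →+* S`, the `φ`-semilinear maps from the `R`-module `M` to the
`S`-module `N`. -/
@[ext]
structure Slin {R S : Type} [CommRing R] [CommRing S] (φ : R →+* S) (M : Md R) (N : Md S) where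
  /-- the map -/
  lin : M.carrier →ₛₗ[φ] N.carrier

variable {R S T : Type} [CommRing R] [CommRing S] [CommRing T]
  {φ : R →+* S} {ψ : S →+* T} {M M' M'' : Md R} {N N' N'' : Md S} {P P' : Md T}

/-- The value of a semilinear map. -/
def Slin.app (u : Slin φ M N) (m : M.carrier) : N.carrier := u.lin m

/-- The identity map. -/
def Slin.id (M : Md R) : Slin (RingHom.id R) M M := ⟨LinearMap.id⟩

lemma comp_triple (φ : R →+* S) (ψ : S →+* T) : RingHomCompTriple φ ψ (ψ.comp φ) := ⟨rfl⟩

/-- The composition of semilinear maps. -/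
def Slin.comp (u : Slin φ M N) (v : Slin ψ N P) : Slin (ψ.comp φ) M P :=
  ⟨@LinearMap.comp _ _ _ _ _ _ _ _ _ _ _ _ _ _ _ _ _ _ (comp_triple φ ψ) v.lin u.lin⟩

/-- `u : M → N` exhibits `N` as the extension of scalars `S ⊗[R] M`: every `φ`-semilinear map
from `M` to an `S`-module factors uniquely through `u`. -/
def Slin.IsExt (u : Slin φ M N) : Prop :=
  ∀ (P : Md S) (v : Slin φ M P), ∃! w : Slin (RingHom.id S) N P, ∀ m, w.app (u.app m) = v.app m

/-- The inverse of a bijective linear map. -/
noncomputable def Slin.inv (u : Slin (RingHom.id R) M M') (h : Function.Bijective u.app) :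
    Slin (RingHom.id R) M' M :=
  ⟨(LinearEquiv.ofBijective u.lin h).symm.toLinearMap⟩

/-- The tensor product of modules. -/
def Md.tens (M M' : Md R) : Md R := ⟨M.carrier ⊗[R] M'.carrier⟩

/-- The ring as a module. -/
def Md.unit (R : Type) [CommRing R] : Md R := ⟨R⟩

/-- The tensor product of semilinear maps. -/
def Slin.tens (u : Slin φ M N) (u' : Slin φ M' N') : Slin φ (M.tens M') (N.tens N') :=
  ⟨TensorProduct.map u.lin u'.lin⟩

/-- The ring map as a semilinear map. -/
def Slin.unit (φ : R →+* S) : Slin φ (Md.unit R) (Md.unit S) := ⟨φ.toSemilinearMap⟩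

/-- The associativity isomorphism. -/
def Md.assoc (M M' M'' : Md R) :
    Slin (RingHom.id R) ((M.tens M').tens M'') (M.tens (M'.tens M'')) :=
  ⟨(TensorProduct.assoc R M.carrier M'.carrier M''.carrier).toLinearMap⟩

/-- The left unit isomorphism. -/
def Md.lunit (M : Md R) : Slin (RingHom.id R) ((Md.unit R).tens M) M :=
  ⟨(TensorProduct.lid R M.carrier).toLinearMap⟩

/-- The right unit isomorphism. -/
def Md.runit (M : Md R) : Slin (RingHom.id R) (M.tens (Md.unit R)) M :=
  ⟨(TensorProduct.rid R M.carrier).toLinearMap⟩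

/-- The symmetry. -/
def Md.symm (M M' : Md R) : Slin (RingHom.id R) (M.tens M') (M'.tens M) :=
  ⟨(TensorProduct.comm R M.carrier M'.carrier).toLinearMap⟩

end Pool.Agent.TH165.Tan
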