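import Mathlib
import Pool.Agent.TH165.Tan.Md

set_option autoImplicit false
set_option linter.unusedVariables false

open TensorProduct

namespace Pool.Agent.TH165.Tan

variable {R S T : Type} [CommRing R] [CommRing S] [CommRing T]
  {φ : R →+* S} {ψ : S →+* T} {M M' M'' : Md R} {N N' N'' : Md S} {P P' : Md T}

lemma Slin.ext' {u v : Slin φ M N} (h : ∀ m, u.app m = v.app m) : u = v :=
  Slin.ext (LinearMap.ext h)

lemma Slin.map_add (u : Slin φ M N) (m m' : M.carrier) : u.app (m + m') = u.app m + u.app m' :=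
  _root_.map_add u.lin m m'
lemma Slin.map_sub (u : Slin φ M N) (m m' : M.carrier) : u.app (m - m') = u.app m - u.app m' :=
  _root_.map_sub u.lin m m'
lemma Slin.map_neg (u : Slin φ M N) (m : M.carrier) : u.app (-m) = -u.app m :=
  _root_.map_neg u.lin m
lemma Slin.map_zero (u : Slin φ M N) : u.app 0 = 0 := _root_.map_zero u.lin
lemma Slin.map_smul (u : Slin φ M N) (r : R) (m : M.carrier) : u.app (r • m) = φ r • u.app m :=
  u.lin.map_smulₛₗ r m

lemma Slin.app_inv {u : Slin (RingHom.id R) M M'} (h : Function.Bijective u.app)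
    (m : M'.carrier) : u.app ((u.inv h).app m) = m :=
  (LinearEquiv.ofBijective u.lin h).apply_symm_apply m

lemma Slin.inv_app {u : Slin (RingHom.id R) M M'} (h : Function.Bijective u.app)
    (m : M.carrier) : (u.inv h).app (u.app m) = m :=
  (LinearEquiv.ofBijective u.lin h).symm_apply_apply m

lemma Slin.inv_app_of {u : Slin (RingHom.id R) M M'} (h : Function.Bijective u.app)
    {m : M.carrier} {m' : M'.carrier} (e : u.app m = m') : (u.inv h).app m' = m := by
  rw [← e, Slin.inv_app]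

lemma Slin.ext_tens {u v : Slin φ (M.tens M') N}
    (h : ∀ (m : M.carrier) (m' : M'.carrier), u.app (m ⊗ₜ m') = v.app (m ⊗ₜ m')) : u = v :=
  Slin.ext (TensorProduct.ext' h)

lemma Slin.ext_tens3 {u v : Slin φ ((M.tens M').tens M'') N}
    (h : ∀ (m : M.carrier) (m' : M'.carrier) (m'' : M''.carrier),
      u.app ((m ⊗ₜ[R] m') ⊗ₜ[R] m'') = v.app ((m ⊗ₜ[R] m') ⊗ₜ[R] m'')) : u = v :=
  Slin.ext (TensorProduct.ext_threefold h)

lemma Slin.ext_tens3' {u v : Slin φ (M.tens (M'.tens M'')) N}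
    (h : ∀ (m : M.carrier) (m' : M'.carrier) (m'' : M''.carrier),
      u.app (m ⊗ₜ[R] (m' ⊗ₜ[R] m'')) = v.app (m ⊗ₜ[R] (m' ⊗ₜ[R] m''))) : u = v :=
  Slin.ext (TensorProduct.ext_threefold' h)

lemma Slin.ext_tens4 {M''' : Md R} {u v : Slin φ (((M.tens M').tens M'').tens M''') N}
    (h : ∀ (m : M.carrier) (m' : M'.carrier) (m'' : M''.carrier) (m''' : M'''.carrier),
      u.app (((m ⊗ₜ[R] m') ⊗ₜ[R] m'') ⊗ₜ[R] m''') =
        v.app (((m ⊗ₜ[R] m') ⊗ₜ[R] m'') ⊗ₜ[R] m''')) : u = v :=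
  Slin.ext (TensorProduct.ext_fourfold h)

lemma Slin.id_tens_id (M M' : Md R) : (Slin.id M).tens (Slin.id M') = Slin.id (M.tens M') :=
  Slin.ext_tens (fun _ _ => rfl)

lemma Slin.comp_tens_comp (u : Slin φ M N) (v : Slin ψ N P) (u' : Slin φ M' N')
    (v' : Slin ψ N' P') : (u.comp v).tens (u'.comp v') = (u.tens u').comp (v.tens v') :=
  Slin.ext_tens (fun _ _ => rfl)

/-- The unbundled version of `Slin.IsExt`. -/
def IsExtL {φ : R →+* S} {M N : Type} [AddCommGroup M]
    [Module R M] [AddCommGroup N] [Module S N] (g : M →ₛₗ[φ] N) : Prop :=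
  ∀ (P : Type) [AddCommGroup P] [Module S P] (h : M →ₛₗ[φ] P),
    ∃! k : N →ₗ[S] P, ∀ m : M, k (g m) = h m

lemma Slin.isExt_iff {u : Slin φ M N} : u.IsExt ↔ IsExtL u.lin := by
  constructor
  · intro hu P _ _ h
    obtain ⟨w, hw, hw'⟩ := hu ⟨P⟩ ⟨h⟩
    exact ⟨w.lin, hw, fun k hk => congrArg Slin.lin (hw' ⟨k⟩ hk)⟩
  · intro hu P v
    obtain ⟨w, hw, hw'⟩ := hu P.carrier v.lin
    exact ⟨⟨w⟩, hw, fun k hk => Slin.ext (hw' k.lin hk)⟩

section

variable {M N M' N' : Type}
  [AddCommGroup M] [Module R M] [AddCommGroup N] [Module S N] [AddCommGroup M'] [Module R M']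
  [AddCommGroup N'] [Module S N'] {g : M →ₛₗ[φ] N} {g' : M' →ₛₗ[φ] N'}

lemma IsExtL.unit (φ : R →+* S) : IsExtL φ.toSemilinearMap := by
  intro P _ _ h
  refine ⟨LinearMap.toSpanSingleton S P (h 1), fun m => ?_, fun k hk => ?_⟩
  · change φ m • h 1 = h m
    rw [← h.map_smulₛₗ, smul_eq_mul, mul_one]
  · apply LinearMap.ext_ring
    rw [LinearMap.toSpanSingleton_apply, one_smul, ← hk 1]
    congr 1
    exact (map_one φ).symm

lemma IsExtL.hom_ext (hg : IsExtL g) {P : Type} [AddCommGroup P] [Module S P] {a b : N →ₗ[S] P}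
    (h : ∀ m, a (g m) = b (g m)) : a = b := by
  obtain ⟨k, _, hk⟩ := hg P (b.comp g)
  rw [hk a h, hk b (fun _ => rfl)]

lemma IsExtL.tens (hg : IsExtL g) (hg' : IsExtL g') : IsExtL (TensorProduct.map g g') := by
  intro P _ _ h
  choose k hk _ using fun m : M => hg' P (h.comp (TensorProduct.mk R M M' m))
  let K : M →ₛₗ[φ] (N' →ₗ[S] P) :=
    { toFun := k
      map_add' := fun a b => by
        apply hg'.hom_ext
        intro m
        rw [LinearMap.add_apply, hk, hk, hk]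
        change h ((a + b) ⊗ₜ m) = h (a ⊗ₜ m) + h (b ⊗ₜ m)
        rw [add_tmul, _root_.map_add]
      map_smul' := fun r a => by
        apply hg'.hom_ext
        intro m
        rw [LinearMap.smul_apply, hk, hk]
        change h ((r • a) ⊗ₜ m) = φ r • h (a ⊗ₜ m)
        rw [← TensorProduct.smul_tmul', h.map_smulₛₗ] }
  obtain ⟨L, hL, _⟩ := hg (N' →ₗ[S] P) K
  refine ⟨TensorProduct.lift L, ?_, ?_⟩
  · intro t
    induction t with
    | zero => rw [_root_.map_zero, _root_.map_zero, _root_.map_zero]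
    | add x y hx hy => rw [_root_.map_add, _root_.map_add, _root_.map_add, hx, hy]
    | tmul a b =>
      rw [TensorProduct.map_tmul, TensorProduct.lift.tmul, hL]
      exact hk a b
  · intro k' hk'
    apply TensorProduct.ext
    apply hg.hom_ext
    intro a
    apply hg'.hom_ext
    intro b
    change k' (g a ⊗ₜ g' b) = L (g a) (g' b)
    rw [hL]
    exact (hk' (a ⊗ₜ b)).trans (hk a b).symm

end

lemma Slin.IsExt.hom_ext {u : Slin φ M N} (hu : u.IsExt) {P : Md S}
    {a b : Slin (RingHom.id S) N P} (h : ∀ m, a.app (u.app m) = b.app (u.app m)) : a = b := by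
  obtain ⟨k, _, hk⟩ := hu P (u.comp b)
  rw [hk a h, hk b (fun _ => rfl)]

lemma Slin.unit_isExt_aux (φ : R →+* S) : (Slin.unit φ).IsExt :=
  Slin.isExt_iff.mpr (IsExtL.unit φ)

lemma Slin.tens_isExt_aux {u : Slin φ M N} {u' : Slin φ M' N'} (hu : u.IsExt) (hu' : u'.IsExt) :
    (u.tens u').IsExt :=
  Slin.isExt_iff.mpr ((Slin.isExt_iff.mp hu).tens (Slin.isExt_iff.mp hu'))

end Pool.Agent.TH165.Tan
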