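import Mathlib
import Pool.Agent.TH165.Tan.Basic
import Pool.Agent.TH165.Tan.MdLem

set_option autoImplicit false
set_option linter.unusedVariables false

open CategoryTheory TensorProduct

namespace Pool.Agent.TH165.Tan

/-! ## Quasi-coherent sheaves -/

/-- Quasi-coherent sheaves on `X`: families of `R`-modules `M(x)`, for all rings `R` and all objects
`x` of `X` over `Spec R`, with compatible semilinear maps `M(x) → M(y)` which exhibit `M(y)` as the
extension of scalars of `M(x)`, for all morphisms from `y` (over `Spec S`) to `x` (over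
`Spec R`). -/
structure QSh (X : Fib) where
  /-- the modules `M(x)` -/
  sec {R : Type} [CommRing R] (x : X.Obj R) : Md R
  /-- the maps `M(x) → M(y)` -/
  res {R S : Type} [CommRing R] [CommRing S] {φ : R →+* S} {x : X.Obj R} {y : X.Obj S}
    (f : X.Hom φ x y) : Slin φ (sec x) (sec y)
  res_id {R : Type} [CommRing R] (x : X.Obj R) : res (X.id x) = Slin.id (sec x)
  res_comp {R S T : Type} [CommRing R] [CommRing S] [CommRing T] {φ : R →+* S} {ψ : S →+* T}
    {x : X.Obj R} {y : X.Obj S} {z : X.Obj T} (f : X.Hom φ x y) (g : X.Hom ψ y z) :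
    res (X.comp f g) = (res f).comp (res g)
  isExt {R S : Type} [CommRing R] [CommRing S] {φ : R →+* S} {x : X.Obj R} {y : X.Obj S}
    (f : X.Hom φ x y) : (res f).IsExt

/-- Morphisms of quasi-coherent sheaves. -/
@[ext]
structure QSh.Hom {X : Fib} (M N : QSh X) where
  /-- the components -/
  app {R : Type} [CommRing R] (x : X.Obj R) : Slin (RingHom.id R) (M.sec x) (N.sec x)
  nat {R S : Type} [CommRing R] [CommRing S] {φ : R →+* S} {x : X.Obj R} {y : X.Obj S}
    (f : X.Hom φ x y) : (M.res f).comp (app y) = (app x).comp (N.res f)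

variable {X : Fib} {R S T : Type} [CommRing R] [CommRing S] [CommRing T] {φ : R →+* S}
  {ψ : S →+* T} {x : X.Obj R} {y : X.Obj S} {z : X.Obj T} {M N P Q K M' N' P' Q' : QSh X}

lemma QSh.Hom.naturality (a : QSh.Hom M N) (f : X.Hom φ x y) (m : (M.sec x).carrier) :
    (a.app y).app ((M.res f).app m) = (N.res f).app ((a.app x).app m) :=
  congrArg (fun u => Slin.app u m) (a.nat f)

lemma QSh.res_id_app (M : QSh X) (x : X.Obj R) (m : (M.sec x).carrier) :
    (M.res (X.id x)).app m = m :=
  congrArg (fun u => Slin.app u m) (M.res_id x)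

lemma QSh.res_comp_app (M : QSh X) (f : X.Hom φ x y) (g : X.Hom ψ y z)
    (m : (M.sec x).carrier) :
    (M.res (X.comp f g)).app m = (M.res g).app ((M.res f).app m) :=
  congrArg (fun u => Slin.app u m) (M.res_comp f g)

/-- The identity. -/
def QSh.Hom.id (M : QSh X) : QSh.Hom M M where
  app x := Slin.id (M.sec x)
  nat f := rfl

lemma QSh.Hom.comp_nat (a : QSh.Hom M N) (b : QSh.Hom N P) {R S : Type} [CommRing R]
    [CommRing S] {φ : R →+* S} {x : X.Obj R} {y : X.Obj S} (f : X.Hom φ x y) :
    (M.res f).comp ((a.app y).comp (b.app y)) = ((a.app x).comp (b.app x)).comp (P.res f) :=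
  Slin.ext' (fun m => (congrArg (b.app y).app (a.naturality f m)).trans
    (b.naturality f ((a.app x).app m)))

/-- Composition. -/
def QSh.Hom.comp (a : QSh.Hom M N) (b : QSh.Hom N P) : QSh.Hom M P where
  app x := (a.app x).comp (b.app x)
  nat := a.comp_nat b

/-- The category of quasi-coherent sheaves on `X`. -/
instance QSh.cat (X : Fib) : Category.{2} (QSh X) where
  Hom := QSh.Hom
  id := QSh.Hom.id
  comp := QSh.Hom.comp

lemma QSh.hom_ext {M N : QSh X} (a b : M ⟶ N)
    (h : ∀ {R : Type} [CommRing R] (x : X.Obj R) (m : (M.sec x).carrier),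
      (QSh.Hom.app a x).app m = (QSh.Hom.app b x).app m) :
    a = b :=
  QSh.Hom.ext (funext fun _ => funext fun _ => funext fun x => Slin.ext' (h x))

/-- `c` is the sum of `a` and `b`. -/
def QSh.IsSum (a b c : QSh.Hom M N) : Prop :=
  ∀ {R : Type} [CommRing R] (x : X.Obj R) (m : (M.sec x).carrier),
    (c.app x).app m = (a.app x).app m + (b.app x).app m

/-- The morphism `a` is bijective on sections. -/
def QSh.Hom.IsBij (a : QSh.Hom M N) : Prop :=
  ∀ {R : Type} [CommRing R] (x : X.Obj R), Function.Bijective (a.app x).app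

lemma QSh.Hom.inv_nat (a : QSh.Hom M N) (h : a.IsBij) {R S : Type} [CommRing R]
    [CommRing S] {φ : R →+* S} {x : X.Obj R} {y : X.Obj S} (f : X.Hom φ x y) :
    (N.res f).comp ((a.app y).inv (h y)) = ((a.app x).inv (h x)).comp (M.res f) :=
  Slin.ext' (fun m => Slin.inv_app_of (h y)
    ((a.naturality f _).trans (congrArg (N.res f).app (Slin.app_inv (h x) m))))

/-- The inverse of a morphism which is bijective on sections. -/
noncomputable def QSh.Hom.inv (a : QSh.Hom M N) (h : a.IsBij) : QSh.Hom N M where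
  app x := (a.app x).inv (h x)
  nat := a.inv_nat h

lemma QSh.Hom.comp_inv (a : QSh.Hom M N) (h : a.IsBij) : a.comp (a.inv h) = QSh.Hom.id M :=
  QSh.hom_ext _ _ (fun x m => Slin.inv_app (h x) m)

lemma QSh.Hom.inv_comp (a : QSh.Hom M N) (h : a.IsBij) : (a.inv h).comp a = QSh.Hom.id N :=
  QSh.hom_ext _ _ (fun x m => Slin.app_inv (h x) m)

/-- A morphism which is bijective on sections is an isomorphism. -/
noncomputable def QSh.Hom.iso (a : QSh.Hom M N) (h : a.IsBij) : M ≅ N :=
  ⟨a, a.inv h, a.comp_inv h, a.inv_comp h⟩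

/-! ### The symmetric monoidal structure -/

lemma Slin.unit_isExt (φ : R →+* S) : (Slin.unit φ).IsExt := Slin.unit_isExt_aux φ

lemma Slin.tens_isExt {A A' : Md R} {B B' : Md S} {u : Slin φ A B} {u' : Slin φ A' B'}
    (hu : u.IsExt) (hu' : u'.IsExt) : (u.tens u').IsExt := Slin.tens_isExt_aux hu hu'

lemma QSh.tens_res_id (M N : QSh X) {R : Type} [CommRing R] (x : X.Obj R) :
    (M.res (X.id x)).tens (N.res (X.id x)) = Slin.id ((M.sec x).tens (N.sec x)) := by
  rw [M.res_id, N.res_id, Slin.id_tens_id]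

lemma QSh.tens_res_comp (M N : QSh X) {R S T : Type} [CommRing R] [CommRing S] [CommRing T]
    {φ : R →+* S} {ψ : S →+* T} {x : X.Obj R} {y : X.Obj S} {z : X.Obj T} (f : X.Hom φ x y)
    (g : X.Hom ψ y z) : (M.res (X.comp f g)).tens (N.res (X.comp f g)) =
      ((M.res f).tens (N.res f)).comp ((M.res g).tens (N.res g)) := by
  rw [M.res_comp, N.res_comp, Slin.comp_tens_comp]

/-- The tensor product of quasi-coherent sheaves. -/
def QSh.tens (M N : QSh X) : QSh X where
  sec x := (M.sec x).tens (N.sec x)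
  res f := (M.res f).tens (N.res f)
  res_id := M.tens_res_id N
  res_comp := M.tens_res_comp N
  isExt f := Slin.tens_isExt (M.isExt f) (N.isExt f)

/-- The structure sheaf. -/
def QSh.unit (X : Fib) : QSh X where
  sec {R} _ x := Md.unit R
  res {_ _ _ _ φ _ _} f := Slin.unit φ
  res_id x := rfl
  res_comp f g := rfl
  isExt {_ _ _ _ φ _ _} f := Slin.unit_isExt φ

lemma QSh.Hom.tens_nat (a : QSh.Hom M N) (b : QSh.Hom M' N') {R S : Type} [CommRing R]
    [CommRing S] {φ : R →+* S} {x : X.Obj R} {y : X.Obj S} (f : X.Hom φ x y) :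
    ((M.tens M').res f).comp ((a.app y).tens (b.app y)) =
      ((a.app x).tens (b.app x)).comp ((N.tens N').res f) :=
  Slin.ext_tens (fun s t => congrArg₂ (fun s t => s ⊗ₜ t) (a.naturality f s) (b.naturality f t))

/-- The tensor product of morphisms. -/
def QSh.Hom.tens (a : QSh.Hom M N) (b : QSh.Hom M' N') :
    QSh.Hom (QSh.tens M M') (QSh.tens N N') where
  app x := (a.app x).tens (b.app x)
  nat := a.tens_nat b

/-- The tensor product of a quasi-coherent sheaf with a morphism. -/
def QSh.Hom.tensL (M : QSh X) {N P : QSh X} (a : QSh.Hom N P) : QSh.Hom (M.tens N) (M.tens P) :=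
  (QSh.Hom.id M).tens a

/-- The tensor product of a morphism with a quasi-coherent sheaf. -/
def QSh.Hom.tensR {N P : QSh X} (a : QSh.Hom N P) (M : QSh X) : QSh.Hom (N.tens M) (P.tens M) :=
  a.tens (QSh.Hom.id M)

/-- The associativity isomorphism. -/
def QSh.assocHom (M N P : QSh X) : QSh.Hom ((M.tens N).tens P) (M.tens (N.tens P)) where
  app x := Md.assoc (M.sec x) (N.sec x) (P.sec x)
  nat f := Slin.ext_tens3 (fun _ _ _ => rfl)

/-- The left unit isomorphism. -/
def QSh.lunitHom (M : QSh X) : QSh.Hom ((QSh.unit X).tens M) M where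
  app x := Md.lunit (M.sec x)
  nat f := Slin.ext_tens (fun r m => ((M.res f).map_smul r m).symm)

/-- The right unit isomorphism. -/
def QSh.runitHom (M : QSh X) : QSh.Hom (M.tens (QSh.unit X)) M where
  app x := Md.runit (M.sec x)
  nat f := Slin.ext_tens (fun m r => ((M.res f).map_smul r m).symm)

/-- The symmetry isomorphism. -/
def QSh.symmHom (M N : QSh X) : QSh.Hom (M.tens N) (N.tens M) where
  app x := Md.symm (M.sec x) (N.sec x)
  nat f := Slin.ext_tens (fun _ _ => rfl)

lemma QSh.assoc_isBij (M N P : QSh X) : (QSh.assocHom M N P).IsBij := fun {R} _ x =>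
  (TensorProduct.assoc R (M.sec x).carrier (N.sec x).carrier (P.sec x).carrier).bijective

lemma QSh.lunit_isBij (M : QSh X) : (QSh.lunitHom M).IsBij := fun {R} _ x =>
  (TensorProduct.lid R (M.sec x).carrier).bijective

lemma QSh.runit_isBij (M : QSh X) : (QSh.runitHom M).IsBij := fun {R} _ x =>
  (TensorProduct.rid R (M.sec x).carrier).bijective

lemma QSh.symm_isBij (M N : QSh X) : (QSh.symmHom M N).IsBij := fun {R} _ x =>
  (TensorProduct.comm R (M.sec x).carrier (N.sec x).carrier).bijective

/-- The associativity isomorphism. -/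
noncomputable def QSh.assoc (M N P : QSh X) : (M.tens N).tens P ≅ M.tens (N.tens P) :=
  (QSh.assocHom M N P).iso (QSh.assoc_isBij M N P)

/-- The left unit isomorphism. -/
noncomputable def QSh.lunit (M : QSh X) : (QSh.unit X).tens M ≅ M :=
  (QSh.lunitHom M).iso (QSh.lunit_isBij M)

/-- The right unit isomorphism. -/
noncomputable def QSh.runit (M : QSh X) : M.tens (QSh.unit X) ≅ M :=
  (QSh.runitHom M).iso (QSh.runit_isBij M)

/-- The symmetry isomorphism. -/
noncomputable def QSh.symm (M N : QSh X) : M.tens N ≅ N.tens M :=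
  (QSh.symmHom M N).iso (QSh.symm_isBij M N)

noncomputable instance QSh.monStr (X : Fib) : MonoidalCategoryStruct (QSh X) where
  tensorObj := QSh.tens
  tensorUnit := QSh.unit X
  tensorHom := QSh.Hom.tens
  whiskerLeft := QSh.Hom.tensL
  whiskerRight := QSh.Hom.tensR
  associator := QSh.assoc
  leftUnitor := QSh.lunit
  rightUnitor := QSh.runit

end Pool.Agent.TH165.Tan
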