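import Mathlib
import Pool.Agent.TH165.Tan.QSh

set_option autoImplicit false
set_option linter.unusedVariables false

open CategoryTheory TensorProduct

namespace Pool.Agent.TH165.Tan

variable {X : Fib} {M N P Q K M' N' P' Q' : QSh X}

lemma QSh.Hom.ext_tens {a b : QSh.Hom (M.tens N) P}
    (h : ∀ {R : Type} [CommRing R] (x : X.Obj R) (m : (M.sec x).carrier) (n : (N.sec x).carrier),
      (a.app x).app (m ⊗ₜ n) = (b.app x).app (m ⊗ₜ n)) : a = b :=
  QSh.Hom.ext (funext fun _ => funext fun _ => funext fun x => Slin.ext_tens (h x))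

lemma QSh.Hom.ext_tens3 {a b : QSh.Hom ((M.tens N).tens P) Q}
    (h : ∀ {R : Type} [CommRing R] (x : X.Obj R) (m : (M.sec x).carrier) (n : (N.sec x).carrier)
      (p : (P.sec x).carrier), (a.app x).app ((m ⊗ₜ[R] n) ⊗ₜ[R] p) =
        (b.app x).app ((m ⊗ₜ[R] n) ⊗ₜ[R] p)) : a = b :=
  QSh.Hom.ext (funext fun _ => funext fun _ => funext fun x => Slin.ext_tens3 (h x))

lemma QSh.Hom.ext_tens3' {a b : QSh.Hom (M.tens (N.tens P)) Q}
    (h : ∀ {R : Type} [CommRing R] (x : X.Obj R) (m : (M.sec x).carrier) (n : (N.sec x).carrier)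
      (p : (P.sec x).carrier), (a.app x).app (m ⊗ₜ[R] (n ⊗ₜ[R] p)) =
        (b.app x).app (m ⊗ₜ[R] (n ⊗ₜ[R] p))) : a = b :=
  QSh.Hom.ext (funext fun _ => funext fun _ => funext fun x => Slin.ext_tens3' (h x))

lemma QSh.Hom.ext_tens4 {a b : QSh.Hom (((M.tens N).tens P).tens Q) K}
    (h : ∀ {R : Type} [CommRing R] (x : X.Obj R) (m : (M.sec x).carrier) (n : (N.sec x).carrier)
      (p : (P.sec x).carrier) (q : (Q.sec x).carrier),
        (a.app x).app (((m ⊗ₜ[R] n) ⊗ₜ[R] p) ⊗ₜ[R] q) =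
        (b.app x).app (((m ⊗ₜ[R] n) ⊗ₜ[R] p) ⊗ₜ[R] q)) : a = b :=
  QSh.Hom.ext (funext fun _ => funext fun _ => funext fun x => Slin.ext_tens4 (h x))

lemma QSh.assocInv_app (M N P : QSh X) {R : Type} [CommRing R] (x : X.Obj R)
    (m : (M.sec x).carrier) (n : (N.sec x).carrier) (p : (P.sec x).carrier) :
    (((QSh.assocHom M N P).inv (QSh.assoc_isBij M N P)).app x).app (m ⊗ₜ[R] (n ⊗ₜ[R] p)) =
      (m ⊗ₜ[R] n) ⊗ₜ[R] p :=
  Slin.inv_app_of (u := (QSh.assocHom M N P).app x) (QSh.assoc_isBij M N P x)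
    (m := (m ⊗ₜ[R] n) ⊗ₜ[R] p) (m' := m ⊗ₜ[R] (n ⊗ₜ[R] p)) rfl

lemma QSh.hexagon_inv_aux (M N P : QSh X) {R : Type} [CommRing R] (x : X.Obj R)
    (m : (M.sec x).carrier) (n : (N.sec x).carrier) (p : (P.sec x).carrier) :
    ((((QSh.assocHom M N P).inv (QSh.assoc_isBij M N P)).comp
      ((QSh.symmHom (M.tens N) P).comp
        ((QSh.assocHom P M N).inv (QSh.assoc_isBij P M N)))).app x).app
          (m ⊗ₜ[R] (n ⊗ₜ[R] p)) =
      (((QSh.Hom.tensL M (QSh.symmHom N P)).comp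
        (((QSh.assocHom M P N).inv (QSh.assoc_isBij M P N)).comp
          ((QSh.symmHom M P).tensR N))).app x).app (m ⊗ₜ[R] (n ⊗ₜ[R] p)) := by
  have h1 := QSh.assocInv_app M N P x m n p
  have h2 := QSh.assocInv_app P M N x p m n
  have h3 := QSh.assocInv_app M P N x m p n
  refine (congrArg (fun t => (((QSh.assocHom P M N).inv (QSh.assoc_isBij P M N)).app x).app
    (((QSh.symmHom (M.tens N) P).app x).app t)) h1).trans ?_
  refine h2.trans ?_
  exact (congrArg (((QSh.symmHom M P).tensR N).app x).app h3).symm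

end Pool.Agent.TH165.Tan
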