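import Mathlib
import Pool.Agent.TH165.Tan.QShLem

set_option autoImplicit false
set_option linter.unusedVariables false

open CategoryTheory TensorProduct

namespace Pool.Agent.TH165.Tan

variable {X : Fib} {M N P Q K M' N' P' Q' : QSh X}

lemma QSh.Hom.tens_def (a : QSh.Hom M N) (b : QSh.Hom M' N') :
    a.tens b = (a.tensR M').comp (QSh.Hom.tensL N b) :=
  QSh.Hom.ext_tens (fun _ _ _ => rfl)

lemma QSh.Hom.id_tens_id (M N : QSh X) : (QSh.Hom.id M).tens (QSh.Hom.id N) = QSh.Hom.id _ :=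
  QSh.Hom.ext_tens (fun _ _ _ => rfl)

lemma QSh.Hom.tens_comp_tens (a : QSh.Hom M N) (a' : QSh.Hom M' N') (b : QSh.Hom N P)
    (b' : QSh.Hom N' P') : (a.tens a').comp (b.tens b') = (a.comp b).tens (a'.comp b') :=
  QSh.Hom.ext_tens (fun _ _ _ => rfl)

lemma QSh.assoc_nat (a : QSh.Hom M M') (b : QSh.Hom N N') (c : QSh.Hom P P') :
    ((a.tens b).tens c).comp (QSh.assocHom M' N' P') =
      (QSh.assocHom M N P).comp (a.tens (b.tens c)) :=
  QSh.Hom.ext_tens3 (fun _ _ _ _ => rfl)

lemma QSh.lunit_nat (a : QSh.Hom M N) :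
    (QSh.Hom.tensL (QSh.unit X) a).comp (QSh.lunitHom N) = (QSh.lunitHom M).comp a :=
  QSh.Hom.ext_tens (fun x r m => ((a.app x).map_smul r m).symm)

lemma QSh.runit_nat (a : QSh.Hom M N) :
    (a.tensR (QSh.unit X)).comp (QSh.runitHom N) = (QSh.runitHom M).comp a :=
  QSh.Hom.ext_tens (fun x m r => ((a.app x).map_smul r m).symm)

lemma QSh.pentagon (M N P Q : QSh X) :
    ((QSh.assocHom M N P).tensR Q).comp ((QSh.assocHom M (N.tens P) Q).comp
      (QSh.Hom.tensL M (QSh.assocHom N P Q))) =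
        (QSh.assocHom (M.tens N) P Q).comp (QSh.assocHom M N (P.tens Q)) :=
  QSh.Hom.ext_tens4 (fun _ _ _ _ _ => rfl)

lemma QSh.triangle (M N : QSh X) :
    (QSh.assocHom M (QSh.unit X) N).comp (QSh.Hom.tensL M (QSh.lunitHom N)) =
      (QSh.runitHom M).tensR N :=
  QSh.Hom.ext_tens3 (fun _ _ _ _ => TensorProduct.tmul_smul _ _ _)

lemma QSh.symm_nat_right (M : QSh X) {N P : QSh X} (a : QSh.Hom N P) :
    (QSh.Hom.tensL M a).comp (QSh.symmHom M P) = (QSh.symmHom M N).comp (a.tensR M) :=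
  QSh.Hom.ext_tens (fun _ _ _ => rfl)

lemma QSh.symm_nat_left (a : QSh.Hom M N) (P : QSh X) :
    (a.tensR P).comp (QSh.symmHom N P) = (QSh.symmHom M P).comp (QSh.Hom.tensL P a) :=
  QSh.Hom.ext_tens (fun _ _ _ => rfl)

lemma QSh.hexagon (M N P : QSh X) :
    (QSh.assocHom M N P).comp ((QSh.symmHom M (N.tens P)).comp (QSh.assocHom N P M)) =
      ((QSh.symmHom M N).tensR P).comp ((QSh.assocHom N M P).comp
        (QSh.Hom.tensL N (QSh.symmHom M P))) :=
  QSh.Hom.ext_tens3 (fun _ _ _ _ => rfl)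

lemma QSh.hexagon_inv (M N P : QSh X) :
    ((QSh.assocHom M N P).inv (QSh.assoc_isBij M N P)).comp
      ((QSh.symmHom (M.tens N) P).comp
        ((QSh.assocHom P M N).inv (QSh.assoc_isBij P M N))) =
      (QSh.Hom.tensL M (QSh.symmHom N P)).comp
        (((QSh.assocHom M P N).inv (QSh.assoc_isBij M P N)).comp
          ((QSh.symmHom M P).tensR N)) :=
  QSh.Hom.ext_tens3' (QSh.hexagon_inv_aux M N P)

/-- The monoidal category of quasi-coherent sheaves on `X`. -/
noncomputable instance QSh.mon (X : Fib) : MonoidalCategory (QSh X) where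
  tensorHom_def := QSh.Hom.tens_def
  id_tensorHom_id := QSh.Hom.id_tens_id
  tensorHom_comp_tensorHom := QSh.Hom.tens_comp_tens
  whiskerLeft_id := QSh.Hom.id_tens_id
  id_whiskerRight := QSh.Hom.id_tens_id
  associator_naturality := QSh.assoc_nat
  leftUnitor_naturality := QSh.lunit_nat
  rightUnitor_naturality := QSh.runit_nat
  pentagon := QSh.pentagon
  triangle := QSh.triangle

/-- The symmetry of the monoidal category of quasi-coherent sheaves on `X`. -/
noncomputable instance QSh.braid (X : Fib) : BraidedCategory (QSh X) where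
  braiding := QSh.symm
  braiding_naturality_right := QSh.symm_nat_right
  braiding_naturality_left := QSh.symm_nat_left
  hexagon_forward := QSh.hexagon
  hexagon_reverse := QSh.hexagon_inv

end Pool.Agent.TH165.Tan
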