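import Mathlib
import Pool.Agent.TH165.Tan.QC

set_option autoImplicit false
set_option linter.unusedVariables false

open CategoryTheory TensorProduct

namespace Pool.Agent.TH165.Tan

/-! ### Pullback -/

variable {T X : Fib} (F : Mor T X)

/-- Pullback of quasi-coherent sheaves: `(F^* M)(t) = M(F(t))`. -/
def QSh.pb (M : QSh X) : QSh T where
  sec t := M.sec (F.obj t)
  res f := M.res (F.map f)
  res_id t := (congrArg M.res (F.map_id t)).trans (M.res_id _)
  res_comp f g := (congrArg M.res (F.map_comp f g)).trans (M.res_comp _ _)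
  isExt f := M.isExt (F.map f)

/-- Pullback of morphisms of quasi-coherent sheaves. -/
def QSh.pbHom {M N : QSh X} (a : QSh.Hom M N) : QSh.Hom (M.pb F) (N.pb F) where
  app t := a.app (F.obj t)
  nat f := a.nat (F.map f)

/-- The pullback functor. -/
def Mor.star : QSh X ⥤ QSh T where
  obj := QSh.pb F
  map := QSh.pbHom F

/-- The pullback of the tensor product is the tensor product of the pullbacks. -/
def QSh.pbTens (M N : QSh X) : (M.pb F).tens (N.pb F) ≅ (M.tens N).pb F :=
  Iso.refl ((M.tens N).pb F)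

section

variable {M N P : QSh X}

lemma QSh.pb_nat_left (a : QSh.Hom M N) (P : QSh X) :
    ((QSh.pbHom F a).tensR (P.pb F)).comp (QSh.Hom.id ((N.tens P).pb F)) =
      (QSh.Hom.id ((M.tens P).pb F)).comp (QSh.pbHom F (a.tensR P)) :=
  QSh.Hom.ext_tens (M := M.pb F) (N := P.pb F) (fun _ _ _ => rfl)

lemma QSh.pb_nat_right {N P : QSh X} (M : QSh X) (a : QSh.Hom N P) :
    (QSh.Hom.tensL (M.pb F) (QSh.pbHom F a)).comp (QSh.Hom.id ((M.tens P).pb F)) =
      (QSh.Hom.id ((M.tens N).pb F)).comp (QSh.pbHom F (QSh.Hom.tensL M a)) :=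
  QSh.Hom.ext_tens (M := M.pb F) (N := N.pb F) (fun _ _ _ => rfl)

lemma QSh.pb_assoc (M N P : QSh X) :
    ((QSh.Hom.id ((M.tens N).pb F)).tensR (P.pb F)).comp
      ((QSh.Hom.id (((M.tens N).tens P).pb F)).comp (QSh.pbHom F (QSh.assocHom M N P))) =
    (QSh.assocHom (M.pb F) (N.pb F) (P.pb F)).comp
      ((QSh.Hom.tensL (M.pb F) (QSh.Hom.id ((N.tens P).pb F))).comp
        (QSh.Hom.id ((M.tens (N.tens P)).pb F))) :=
  QSh.Hom.ext_tens3 (M := M.pb F) (N := N.pb F) (P := P.pb F) (fun _ _ _ _ => rfl)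

lemma QSh.pb_lunit (M : QSh X) :
    QSh.lunitHom (M.pb F) = ((QSh.Hom.id (QSh.unit T)).tensR (M.pb F)).comp
      ((QSh.Hom.id (((QSh.unit X).tens M).pb F)).comp (QSh.pbHom F (QSh.lunitHom M))) :=
  QSh.Hom.ext_tens (fun _ _ _ => rfl)

lemma QSh.pb_runit (M : QSh X) :
    QSh.runitHom (M.pb F) = (QSh.Hom.tensL (M.pb F) (QSh.Hom.id (QSh.unit T))).comp
      ((QSh.Hom.id ((M.tens (QSh.unit X)).pb F)).comp (QSh.pbHom F (QSh.runitHom M))) :=
  QSh.Hom.ext_tens (fun _ _ _ => rfl)

lemma QSh.pb_symm (M N : QSh X) :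
    (QSh.Hom.id ((M.tens N).pb F)).comp (QSh.pbHom F (QSh.symmHom M N)) =
      (QSh.symmHom (M.pb F) (N.pb F)).comp (QSh.Hom.id ((N.tens M).pb F)) :=
  QSh.Hom.ext_tens (M := M.pb F) (N := N.pb F) (fun _ _ _ => rfl)

end

/-- The pullback functor is monoidal. -/
noncomputable def Mor.star_core : F.star.CoreMonoidal where
  εIso := Iso.refl (QSh.unit T)
  μIso := QSh.pbTens F
  μIso_hom_natural_left := QSh.pb_nat_left F
  μIso_hom_natural_right := QSh.pb_nat_right F
  associativity := QSh.pb_assoc F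
  left_unitality := QSh.pb_lunit F
  right_unitality := QSh.pb_runit F

/-- The pullback functor is monoidal. -/
noncomputable instance Mor.star_monoidal : F.star.Monoidal := F.star_core.toMonoidal

/-- The pullback functor is symmetric monoidal. -/
noncomputable instance Mor.star_braided : F.star.Braided where
  toMonoidal := F.star_monoidal
  braided := QSh.pb_symm F

lemma QSh.pb_isSum {M N : QSh X} {a b c : QSh.Hom M N} (h : QSh.IsSum a b c) :
    QSh.IsSum (QSh.pbHom F a) (QSh.pbHom F b) (QSh.pbHom F c) := fun x => h (F.obj x)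

end Pool.Agent.TH165.Tan
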