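import Mathlib
import Pool.Agent.TH165.Tan.QC2

set_option autoImplicit false
set_option linter.unusedVariables false

open CategoryTheory CategoryTheory.Limits MonoidalCategory TensorProduct

namespace Pool.Agent.TH165.Tan

/-! ### Colimits of quasi-coherent sheaves are computed sectionwise -/

variable {X : Fib}

/-- The sections over an object, as a functor. -/
def QSh.ev {R : Type} [CommRing R] (x : X.Obj R) : QSh X ⥤ ModuleCat.{0} R where
  obj M := ModuleCat.of R (M.sec x).carrier
  map a := ModuleCat.ofHom (QSh.Hom.app a x).lin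

section

variable {J : Type} [SmallCategory J] {R S : Type} [CommRing R] [CommRing S] {φ : R →+* S}
  {G : J ⥤ ModuleCat.{0} R} {t : Cocone G} (ht : IsColimit t) {Q : Type} [AddCommGroup Q]
  [Module S Q]

/-- A semilinear map as a linear map. -/
noncomputable def slin {M : ModuleCat.{0} R} (u : M →ₛₗ[φ] Q) :
    M ⟶ (ModuleCat.restrictScalars φ).obj (ModuleCat.of S Q) :=
  ModuleCat.ofHom (Y := (ModuleCat.restrictScalars φ).obj (ModuleCat.of S Q))
    { toFun := u
      map_add' := map_add u
      map_smul' := fun r m => u.map_smulₛₗ r m }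

/-- A linear map as a semilinear map. -/
noncomputable def unslin {M : ModuleCat.{0} R}
    (u : M ⟶ (ModuleCat.restrictScalars φ).obj (ModuleCat.of S Q)) : M →ₛₗ[φ] Q where
  toFun m := u m
  map_add' a b := map_add u.hom a b
  map_smul' r m := u.hom.map_smul r m

include ht in
lemma semi_ext {u v : t.pt →ₛₗ[φ] Q} (h : ∀ (j : J) (m : G.obj j), u (t.ι.app j m) =
    v (t.ι.app j m)) : u = v := by
  have h1 : slin u = slin v := by
    refine ht.hom_ext fun j => ?_
    ext m
    exact h j m
  ext m
  exact congrArg (fun w => w m) h1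

include ht in
lemma semi_desc (u : ∀ j, G.obj j →ₛₗ[φ] Q)
    (h : ∀ {i j : J} (f : i ⟶ j) (m : G.obj i), u j (G.map f m) = u i m) :
    ∃ v : t.pt →ₛₗ[φ] Q, ∀ (j : J) (m : G.obj j), v (t.ι.app j m) = u j m := by
  let s : Cocone G :=
    { pt := (ModuleCat.restrictScalars φ).obj (ModuleCat.of S Q)
      ι := { app := fun j => slin (u j)
             naturality := fun i j f => by
              ext m
              exact h f m } }
  refine ⟨unslin (ht.desc s), fun j m => ?_⟩
  exact congrArg (fun w => w m) (ht.fac s j)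

end

variable {J : Type} [SmallCategory J] (K : J ⥤ QSh X)

/-- A cocone which is a colimit on sections is a colimit. -/
noncomputable def isColimitOfEv {K : J ⥤ QSh X} (c : Cocone K)
    (h : ∀ {R : Type} [CommRing R] (x : X.Obj R), IsColimit ((QSh.ev x).mapCocone c)) :
    IsColimit c where
  desc s :=
    { app := fun x => ⟨((h x).desc ((QSh.ev x).mapCocone s)).hom⟩
      nat := fun {R S _ _ φ x y} f => by
        have h1 : (((h y).desc ((QSh.ev y).mapCocone s)).hom.comp (c.pt.res f).lin) =
            ((s.pt.res f).lin.comp ((h x).desc ((QSh.ev x).mapCocone s)).hom) := by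
          refine semi_ext (h x) fun j m => ?_
          have h2 := congrArg (fun w => w m) ((h x).fac ((QSh.ev x).mapCocone s) j)
          have h3 := congrArg (fun w => w (((K.obj j).res f).app m))
            ((h y).fac ((QSh.ev y).mapCocone s) j)
          refine (congrArg ((h y).desc ((QSh.ev y).mapCocone s)).hom
            ((c.ι.app j).naturality f m).symm).trans ?_
          refine h3.trans ?_
          refine ((s.ι.app j).naturality f m).trans ?_
          exact congrArg (s.pt.res f).app h2.symm
        exact Slin.ext' (fun m => LinearMap.congr_fun h1 m) }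
  fac s j := QSh.hom_ext _ _ fun x m =>
    congrArg (fun w => w m) ((h x).fac ((QSh.ev x).mapCocone s) j)
  uniq s m hm := QSh.hom_ext _ _ fun x z => by
    have h1 : (QSh.ev x).map m = (h x).desc ((QSh.ev x).mapCocone s) := by
      refine (h x).uniq ((QSh.ev x).mapCocone s) _ fun j => ?_
      exact (congrArg (QSh.ev x).map (hm j))
    exact congrArg (fun w => w z) h1

lemma exists_colim_res {R S : Type} [CommRing R] [CommRing S] {φ : R →+* S} {x : X.Obj R}
    {y : X.Obj S} (f : X.Hom φ x y) :
    ∃ v : (colimit (K ⋙ QSh.ev x) : ModuleCat.{0} R) →ₛₗ[φ]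
      (colimit (K ⋙ QSh.ev y) : ModuleCat.{0} S),
      ∀ (j : J) (m : ((K.obj j).sec x).carrier), v ((colimit.ι (K ⋙ QSh.ev x) j).hom m) =
        (colimit.ι (K ⋙ QSh.ev y) j).hom (((K.obj j).res f).app m) := by
  refine semi_desc (colimit.isColimit (K ⋙ QSh.ev x))
    (fun j => (colimit.ι (K ⋙ QSh.ev y) j).hom.comp ((K.obj j).res f).lin) ?_
  intro i j g m
  have h1 := (K.map g).naturality f m
  have h2 := congrArg (fun w => w (((K.obj i).res f).app m)) (colimit.w (K ⋙ QSh.ev y) g)
  exact (congrArg (colimit.ι (K ⋙ QSh.ev y) j).hom h1.symm).trans h2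

/-- The maps between the sections of the colimit. -/
noncomputable def colimRes {R S : Type} [CommRing R] [CommRing S] {φ : R →+* S} {x : X.Obj R}
    {y : X.Obj S} (f : X.Hom φ x y) : (colimit (K ⋙ QSh.ev x) : ModuleCat.{0} R) →ₛₗ[φ]
      (colimit (K ⋙ QSh.ev y) : ModuleCat.{0} S) := (exists_colim_res K f).choose

lemma colimRes_ι {R S : Type} [CommRing R] [CommRing S] {φ : R →+* S} {x : X.Obj R}
    {y : X.Obj S} (f : X.Hom φ x y) (j : J) (m : ((K.obj j).sec x).carrier) :
    colimRes K f ((colimit.ι (K ⋙ QSh.ev x) j).hom m) =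
        (colimit.ι (K ⋙ QSh.ev y) j).hom (((K.obj j).res f).app m) :=
  (exists_colim_res K f).choose_spec j m

lemma colimRes_isExt {R S : Type} [CommRing R] [CommRing S] {φ : R →+* S} {x : X.Obj R}
    {y : X.Obj S} (f : X.Hom φ x y) : IsExtL (colimRes K f) := by
  intro P _ _ h
  have hE := fun j => Slin.isExt_iff.mp ((K.obj j).isExt f)
  choose k hk _ using fun j => hE j P (h.comp (colimit.ι (K ⋙ QSh.ev x) j).hom)
  have hk' : ∀ (j : J) (m : ((K.obj j).sec x).carrier), k j (((K.obj j).res f).app m) =
    h ((colimit.ι (K ⋙ QSh.ev x) j).hom m) := hk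
  obtain ⟨v, hv⟩ := semi_desc (φ := RingHom.id S) (colimit.isColimit (K ⋙ QSh.ev y)) k (by
    intro i j g n
    have h1 : (k j).comp (QSh.Hom.app (K.map g) y).lin = k i := by
      refine (hE i).hom_ext fun m => ?_
      refine (congrArg (k j) ((K.map g).naturality f m)).trans ?_
      refine (hk' j _).trans ?_
      refine Eq.trans ?_ (hk' i _).symm
      exact congrArg (fun w => h (w m)) (colimit.w (K ⋙ QSh.ev x) g)
    exact LinearMap.congr_fun h1 n)
  have hv' : ∀ (j : J) (m : ((K.obj j).sec y).carrier),
    v ((colimit.ι (K ⋙ QSh.ev y) j).hom m) = k j m := hv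
  refine ⟨v, fun m => ?_, fun v' hv' => ?_⟩
  · have h1 : v.comp (colimRes K f) = h := by
      refine semi_ext (colimit.isColimit (K ⋙ QSh.ev x)) fun j m => ?_
      refine (congrArg v (colimRes_ι K f j m)).trans ?_
      exact (hv' j _).trans (hk' j m)
    exact LinearMap.congr_fun h1 m
  · refine semi_ext (φ := RingHom.id S) (colimit.isColimit (K ⋙ QSh.ev y)) fun j n => ?_
    refine Eq.trans ?_ (hv j n).symm
    have h1 : v'.comp (colimit.ι (K ⋙ QSh.ev y) j).hom = k j := by
      refine (hE j).hom_ext fun m => ?_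
      refine (congrArg v' (colimRes_ι K f j m).symm).trans ?_
      exact (hv' _).trans (hk' j m).symm
    exact LinearMap.congr_fun h1 n

/-- The colimit. -/
noncomputable def colimQSh : QSh X where
  sec {R} _ x := ⟨(colimit (K ⋙ QSh.ev x) : ModuleCat.{0} R)⟩
  res f := ⟨colimRes K f⟩
  res_id {R _} x := by
    apply Slin.ext
    refine semi_ext (φ := RingHom.id R) (colimit.isColimit (K ⋙ QSh.ev x)) fun j n => ?_
    refine (colimRes_ι K (X.id x) j n).trans ?_
    exact congrArg _ ((K.obj j).res_id_app x n)
  res_comp {R S T _ _ _ φ ψ x y z} f g := by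
    have : RingHomCompTriple φ ψ (ψ.comp φ) := ⟨rfl⟩
    have h1 : colimRes K (X.comp f g) = (colimRes K g).comp (colimRes K f) := by
      refine semi_ext (colimit.isColimit (K ⋙ QSh.ev x)) fun j n => ?_
      refine (colimRes_ι K (X.comp f g) j n).trans ?_
      refine Eq.trans ?_ (congrArg (colimRes K g) (colimRes_ι K f j n)).symm
      refine Eq.trans ?_ (colimRes_ι K g j _).symm
      exact congrArg _ ((K.obj j).res_comp_app f g n)
    exact Slin.ext' fun m => LinearMap.congr_fun h1 m
  isExt f := Slin.isExt_iff.mpr (colimRes_isExt K f)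

/-- The colimit cocone. -/
noncomputable def colimCocone : Cocone K where
  pt := colimQSh K
  ι :=
    { app := fun j =>
        { app := fun {R} _ x => ⟨(colimit.ι (K ⋙ QSh.ev x) j).hom⟩
          nat := fun f => Slin.ext' fun m => (colimRes_ι K f j m).symm }
      naturality := fun i j f => QSh.hom_ext _ _ fun x m =>
        congrArg (fun w => w m) ((colimit.w (K ⋙ QSh.ev x) f).trans (Category.comp_id _).symm) }

/-- The colimit cocone is a colimit on sections. -/
noncomputable def colimCocone_ev {R : Type} [CommRing R] (x : X.Obj R) :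
    IsColimit ((QSh.ev x).mapCocone (colimCocone K)) :=
  IsColimit.ofIsoColimit (colimit.isColimit (K ⋙ QSh.ev x))
    (Cocone.ext (Iso.refl _) (fun j => rfl))

instance {R : Type} [CommRing R] (x : X.Obj R) : PreservesColimitsOfShape J (QSh.ev x) where
  preservesColimit {K} := preservesColimit_of_preserves_colimit_cocone
    (isColimitOfEv (colimCocone K) (fun x => colimCocone_ev K x)) (colimCocone_ev K x)

instance : HasColimitsOfShape J (QSh X) where
  has_colimit K := ⟨⟨colimCocone K, isColimitOfEv (colimCocone K) (fun x => colimCocone_ev K x)⟩⟩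

theorem star_cocont_aux {T X : Fib} (F : Mor T X) : PreservesColimitsOfSize.{0, 0} F.star where
  preservesColimitsOfShape {J} _ :=
    { preservesColimit := fun {K} =>
        ⟨fun {c} hc => ⟨isColimitOfEv _ fun x => isColimitOfPreserves (QSh.ev (F.obj x)) hc⟩⟩ }

end Pool.Agent.TH165.Tan
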