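import Mathlib
import Pool.Agent.TH165.Tan.Colim

set_option autoImplicit false

open CategoryTheory CategoryTheory.Limits

namespace Pool.Agent.TH165.Tan

/-- Pullback of quasi-coherent sheaves preserves colimits. -/
theorem Mor.star_cocont {T X : Fib} (F : Mor T X) : PreservesColimitsOfSize.{0, 0} F.star :=
  star_cocont_aux F

end Pool.Agent.TH165.Tan
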