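import Mathlib
import Pool.Agent.TH165.Tan.Cocont

set_option autoImplicit false
set_option linter.unusedVariables false

open CategoryTheory CategoryTheory.Limits

namespace Pool.Agent.TH165.Tan

section

variable {T X : Fib} {F G : Mor T X}

lemma starApp_nat (η : Mor2 F G) (M : QSh X) {R S : Type} [CommRing R] [CommRing S]
    {φ : R →+* S} {x : T.Obj R} {y : T.Obj S} (f : T.Hom φ x y) :
    (M.res (F.map f)).comp (M.res (η.app y)) = (M.res (η.app x)).comp (M.res (G.map f)) :=
  (M.res_comp (F.map f) (η.app y)).symm.trans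
    ((congrArg M.res (η.naturality f)).trans (M.res_comp (η.app x) (G.map f)))

/-- The component at `M` of the natural transformation induced by a 2-morphism. -/
def starApp (η : Mor2 F G) (M : QSh X) : QSh.Hom (M.pb F) (M.pb G) where
  app x := M.res (η.app x)
  nat := starApp_nat η M

lemma starMap_nat (η : Mor2 F G) (M N : QSh X) (a : QSh.Hom M N) :
    (QSh.pbHom F a).comp (starApp η N) = (starApp η M).comp (QSh.pbHom G a) :=
  QSh.hom_ext _ _ (fun x m => (a.naturality (η.app x) m).symm)

/-- The natural transformation `F^* ⟶ G^*` induced by a 2-morphism `F ⟶ G`. -/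
def starMap (η : Mor2 F G) : F.star ⟶ G.star := ⟨starApp η, starMap_nat η⟩

lemma starApp_unit (η : Mor2 F G) :
    (QSh.Hom.id (QSh.unit T)).comp (starApp η (QSh.unit X)) = QSh.Hom.id (QSh.unit T) := rfl

lemma starApp_tens (η : Mor2 F G) (M N : QSh X) :
    (QSh.Hom.id ((M.tens N).pb F)).comp (starApp η (M.tens N)) =
      ((starApp η M).tens (starApp η N)).comp (QSh.Hom.id ((M.tens N).pb G)) := rfl

instance starMap_isMonoidal (η : Mor2 F G) : NatTrans.IsMonoidal (starMap η) where
  unit := starApp_unit η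
  tensor := starApp_tens η

end

/-- Cocontinuous tensor functors `QCoh(X) ⟶ QCoh(T)`: additive symmetric (strong) monoidal
functors which preserve all small colimits. -/
structure CTF (X T : Fib) where
  /-- the functor -/
  F : QSh X ⥤ QSh T
  [braided : F.Braided]
  add {M N : QSh X} {a b c : QSh.Hom M N} :
    QSh.IsSum a b c → QSh.IsSum (F.map a) (F.map b) (F.map c)
  [cocont : PreservesColimitsOfSize.{0, 0} F]

attribute [instance] CTF.braided CTF.cocont

/-- Morphisms of cocontinuous tensor functors: all monoidal natural transformations. -/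
@[ext]
structure CTF.Hom {X T : Fib} (F G : CTF X T) where
  /-- the natural transformation -/
  app : F.F ⟶ G.F
  [isMonoidal : NatTrans.IsMonoidal app]

attribute [instance] CTF.Hom.isMonoidal

section

variable {X T : Fib}

/-- The identity. -/
def CTF.Hom.id (F : CTF X T) : CTF.Hom F F := { app := 𝟙 F.F }

/-- Composition. -/
def CTF.Hom.comp {F G H : CTF X T} (f : CTF.Hom F G) (g : CTF.Hom G H) : CTF.Hom F H :=
  { app := f.app ≫ g.app }

lemma CTF.Hom.id_comp {F G : CTF X T} (f : CTF.Hom F G) : (CTF.Hom.id F).comp f = f :=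
  CTF.Hom.ext (Category.id_comp _)

lemma CTF.Hom.comp_id {F G : CTF X T} (f : CTF.Hom F G) : f.comp (CTF.Hom.id G) = f :=
  CTF.Hom.ext (Category.comp_id _)

lemma CTF.Hom.assoc {F G H K : CTF X T} (f : CTF.Hom F G) (g : CTF.Hom G H) (h : CTF.Hom H K) :
    (f.comp g).comp h = f.comp (g.comp h) :=
  CTF.Hom.ext (Category.assoc _ _ _)

end

/-- The category of cocontinuous tensor functors. -/
instance CTF.cat (X T : Fib) : Category.{2} (CTF X T) where
  Hom := CTF.Hom
  id := CTF.Hom.id
  comp := CTF.Hom.comp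
  id_comp := CTF.Hom.id_comp
  comp_id := CTF.Hom.comp_id
  assoc := CTF.Hom.assoc

/-- The cocontinuous tensor functor `F^*`. -/
noncomputable def Mor.ctf {X T : Fib} (F : Mor T X) : CTF X T :=
  { F := F.star, add := QSh.pb_isSum F, cocont := F.star_cocont }

/-- The morphism `F^* ⟶ G^*` induced by a 2-morphism. -/
noncomputable def Mor2.ctf {X T : Fib} {F G : Mor T X} (η : Mor2 F G) : CTF.Hom F.ctf G.ctf :=
  { app := starMap η, isMonoidal := starMap_isMonoidal η }

lemma Mor2.ctf_id {X T : Fib} (F : Mor T X) : (Mor2.id F).ctf = CTF.Hom.id F.ctf :=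
  CTF.Hom.ext (NatTrans.ext (funext fun M => QSh.hom_ext _ _
    (fun x m => M.res_id_app (F.obj x) m)))

lemma Mor2.ctf_comp {X T : Fib} {F G H : Mor T X} (η : Mor2 F G) (θ : Mor2 G H) :
    (η.comp θ).ctf = η.ctf.comp θ.ctf :=
  CTF.Hom.ext (NatTrans.ext (funext fun M => QSh.hom_ext _ _
    (fun x m => M.res_comp_app (η.app x) (θ.app x) m)))

/-- The Tannaka comparison functor `Hom(T, X) ⟶ Hom_{c⊗}(QCoh(X), QCoh(T))`, `F ↦ F^*`. -/
noncomputable def omega (X T : Fib) : Mor T X ⥤ CTF X T where
  obj := Mor.ctf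
  map := Mor2.ctf
  map_id := Mor2.ctf_id
  map_comp := Mor2.ctf_comp

end Pool.Agent.TH165.Tan
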