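import Mathlib
import Pool.Agent.TH165.Tan.Basic

set_option autoImplicit false
set_option linter.unusedSimpArgs false

open TensorProduct

namespace Pool.Agent.TH165.Tan

/-! ## Commutative algebra -/

lemma descent_fin {R : Type} [CommRing R] {ι : Type} [Finite ι] (S : ι → Type)
    [∀ i, CommRing (S i)] [∀ i, Algebra R (S i)] [∀ i, Module.Flat R (S i)]
    (hs : ∀ p : PrimeSpectrum R, ∃ i, p ∈ Set.range (PrimeSpectrum.comap (algebraMap R (S i))))
    (s : ∀ i, S i) (h : ∀ i j, s i ⊗ₜ[R] (1 : S j) = (1 : S i) ⊗ₜ[R] (s j)) :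
    ∃ r : R, ∀ i, algebraMap R (S i) r = s i := by
  classical
  have := Fintype.ofFinite ι
  have flat : Module.Flat R (∀ i, S i) :=
    Module.Flat.of_linearEquiv (DFinsupp.linearEquivFunOnFintype (R := R) (M := S)).symm
  have ff : Module.FaithfullyFlat R (∀ i, S i) := by
    refine .of_comap_surjective fun p => ?_
    obtain ⟨i, q, hq⟩ := hs p
    refine ⟨PrimeSpectrum.comap (Pi.evalRingHom S i) q, ?_⟩
    rw [← hq]
    rfl
  have eff : Algebra.IsEffective R (∀ i, S i) := .of_faithfullyFlat _ _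
  have key : (Algebra.TensorProduct.includeLeftSubRight R (∀ i, S i)) s = 0 := by
    rw [Algebra.TensorProduct.includeLeftSubRight_apply, sub_eq_zero]
    have e1 : s = ∑ i, LinearMap.single R S i (s i) := by
      simp [Finset.univ_sum_single]
    have e2 : (1 : ∀ i, S i) = ∑ i, LinearMap.single R S i (1 : S i) := by
      refine (Finset.univ_sum_single (1 : ∀ i, S i)).symm
    have e3 : s ⊗ₜ[R] (1 : ∀ i, S i) =
        (∑ i, LinearMap.single R S i (s i)) ⊗ₜ[R] (∑ j, LinearMap.single R S j (1 : S j)) := by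
      rw [← e1, ← e2]
    have e4 : (1 : ∀ i, S i) ⊗ₜ[R] s =
        (∑ i, LinearMap.single R S i (1 : S i)) ⊗ₜ[R] (∑ j, LinearMap.single R S j (s j)) := by
      rw [← e1, ← e2]
    rw [e3, e4, sum_tmul, sum_tmul]
    refine Finset.sum_congr rfl fun i _ => ?_
    rw [tmul_sum, tmul_sum]
    refine Finset.sum_congr rfl fun j _ => ?_
    exact congrArg (TensorProduct.map (LinearMap.single R S i) (LinearMap.single R S j)) (h i j)
  obtain ⟨r, hr⟩ := (eff s).mp key
  exact ⟨r, fun i => congrFun hr i⟩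



lemma exists_common_ext {k K L : Type} [Field k] [Field K] [Field L] (f : k →+* K) (g : k →+* L) :
    ∃ (M : Type) (_ : Field M) (a : K →+* M) (b : L →+* M), a.comp f = b.comp g := by
  let := f.toAlgebra
  let := g.toAlgebra
  have : Nontrivial (K ⊗[k] L) := inferInstance
  obtain ⟨m, hm⟩ := Ideal.exists_maximal (K ⊗[k] L)
  refine ⟨(K ⊗[k] L) ⧸ m, Ideal.Quotient.field m,
    (Ideal.Quotient.mk m).comp (Algebra.TensorProduct.includeLeftRingHom),
    (Ideal.Quotient.mk m).comp (Algebra.TensorProduct.includeRight.toRingHom), ?_⟩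
  ext x
  change Ideal.Quotient.mk m ((f x) ⊗ₜ[k] 1) = Ideal.Quotient.mk m (1 ⊗ₜ[k] (g x))
  congr 1
  have h1 : f x = x • (1 : K) := by rw [Algebra.smul_def]; exact (mul_one _).symm
  have h2 : g x = x • (1 : L) := by rw [Algebra.smul_def]; exact (mul_one _).symm
  rw [h1, h2, smul_tmul]

variable {R S T : Type} [CommRing R] [CommRing S] [CommRing T]

lemma exists_pushout (φ : R →+* S) (ψ : R →+* T) :
    ∃ (P : Type) (_ : CommRing P) (a : S →+* P) (b : T →+* P), a.comp φ = b.comp ψ ∧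
      (∀ (Q : Type) [CommRing Q] (c : S →+* Q) (d : T →+* Q), c.comp φ = d.comp ψ →
        ∃ e : P →+* Q, e.comp a = c ∧ e.comp b = d) ∧
      (∀ (Q : Type) [CommRing Q] (e e' : P →+* Q), e.comp a = e'.comp a → e.comp b = e'.comp b →
        e = e') ∧
      (φ.Etale → b.Etale) ∧
      (∀ (p : PrimeSpectrum S) (p' : PrimeSpectrum T),
        PrimeSpectrum.comap φ p = PrimeSpectrum.comap ψ p' →
        ∃ r : PrimeSpectrum P, PrimeSpectrum.comap a r = p ∧ PrimeSpectrum.comap b r = p') := by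
  let := φ.toAlgebra
  let := ψ.toAlgebra
  have comm : (Algebra.TensorProduct.includeLeftRingHom : S →+* S ⊗[R] T).comp φ =
      (Algebra.TensorProduct.includeRight.toRingHom : T →+* S ⊗[R] T).comp ψ := by
    ext x
    change (φ x) ⊗ₜ[R] 1 = 1 ⊗ₜ[R] (ψ x)
    have h1 : φ x = x • (1 : S) := by rw [Algebra.smul_def]; exact (mul_one _).symm
    have h2 : ψ x = x • (1 : T) := by rw [Algebra.smul_def]; exact (mul_one _).symm
    rw [h1, h2, smul_tmul]
  have univ : (∀ (Q : Type) [CommRing Q] (c : S →+* Q) (d : T →+* Q), c.comp φ = d.comp ψ →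
        ∃ e : (S ⊗[R] T) →+* Q, e.comp Algebra.TensorProduct.includeLeftRingHom = c ∧
          e.comp Algebra.TensorProduct.includeRight.toRingHom = d) := by
    intro Q _ c d h
    let : Algebra R Q := (c.comp φ).toAlgebra
    let c' : S →ₐ[R] Q := { c with commutes' := fun r => rfl }
    let d' : T →ₐ[R] Q := { d with commutes' := fun r => (RingHom.congr_fun h r).symm }
    refine ⟨(Algebra.TensorProduct.lift c' d' (fun _ _ => Commute.all _ _)).toRingHom, ?_, ?_⟩
    · ext x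
      simp [c']
    · ext x
      simp [d']
  refine ⟨S ⊗[R] T, inferInstance, Algebra.TensorProduct.includeLeftRingHom,
    Algebra.TensorProduct.includeRight.toRingHom, comm, univ, ?_, ?_, ?_⟩
  · intro Q _ e e' h1 h2
    refine RingHom.ext fun x => ?_
    induction x with
    | zero => simp
    | add x y hx hy => rw [map_add, map_add, hx, hy]
    | tmul x y =>
      have : x ⊗ₜ[R] y = (x ⊗ₜ[R] 1) * ((1 : S) ⊗ₜ[R] y) := by simp
      rw [this, map_mul, map_mul]
      have e1 := RingHom.congr_fun h1 x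
      have e2 := RingHom.congr_fun h2 y
      change e (x ⊗ₜ[R] 1) = e' (x ⊗ₜ[R] 1) at e1
      change e (1 ⊗ₜ[R] y) = e' (1 ⊗ₜ[R] y) at e2
      rw [e1, e2]
  · intro h
    have h' : RingHom.Etale (algebraMap R S) := h
    have : Algebra.Etale R S := RingHom.etale_algebraMap.mp h'
    have h2 : RingHom.Etale (algebraMap T (T ⊗[R] S)) :=
      RingHom.etale_algebraMap.mpr inferInstance
    have h3 := RingHom.Etale.stableUnderComposition _ _ h2
      (RingHom.Etale.of_bijective (Algebra.TensorProduct.comm R T S).toRingEquiv.bijective)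
    convert h3 using 1
    ext x
    change 1 ⊗ₜ[R] x = (TensorProduct.comm R T S) (x ⊗ₜ[R] 1)
    simp
  · intro p p' h
    obtain ⟨M, _, a, b, hab⟩ := exists_common_ext
      (Ideal.ResidueField.map (PrimeSpectrum.comap φ p).asIdeal p.asIdeal φ rfl)
      (Ideal.ResidueField.map (PrimeSpectrum.comap φ p).asIdeal p'.asIdeal ψ
        (congrArg PrimeSpectrum.asIdeal h))
    obtain ⟨e, he1, he2⟩ := univ M (a.comp (algebraMap S p.asIdeal.ResidueField))
      (b.comp (algebraMap T p'.asIdeal.ResidueField)) (by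
        ext x
        have := RingHom.congr_fun hab (algebraMap R _ x)
        rw [RingHom.comp_apply, RingHom.comp_apply, Ideal.ResidueField.map_algebraMap,
          Ideal.ResidueField.map_algebraMap] at this
        exact this)
    refine ⟨PrimeSpectrum.comap e ⊥, ?_, ?_⟩
    · rw [← PrimeSpectrum.comap_comp_apply, he1]
      ext x
      simp
    · rw [← PrimeSpectrum.comap_comp_apply, he2]
      ext x
      simp


lemma flat_ann {φ : R →+* S} (hφ : φ.Etale) {a : R} {f : S} (h : f * φ a = 0)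
    {q : PrimeSpectrum S} (hf : f ∉ q.asIdeal) :
    ∃ g : R, g ∉ (PrimeSpectrum.comap φ q).asIdeal ∧ g * a = 0 := by
  let := φ.toAlgebra
  have h' : RingHom.Etale (algebraMap R S) := hφ
  have : Algebra.Etale R S := RingHom.etale_algebraMap.mp h'
  obtain ⟨κ, b, y, hy, hb⟩ := Module.Flat.isTrivialRelation_of_sum_smul_eq_zero (R := R) (M := S)
    (ι := Unit) (f := fun _ => a) (x := fun _ => f) (by
      simp only [Finset.univ_unique, Finset.sum_const, Finset.card_singleton, one_smul]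
      rw [Algebra.smul_def, mul_comm]
      exact h)
  by_contra hc
  push Not at hc
  apply hf
  have h2 := hy ()
  simp only at h2
  rw [h2]
  refine q.asIdeal.sum_mem fun j _ => ?_
  have h3 := hb j
  simp only [Finset.univ_unique, Finset.sum_const, Finset.card_singleton, one_smul] at h3
  have h4 : b () j ∈ (PrimeSpectrum.comap φ q).asIdeal := by
    by_contra h5
    exact hc _ h5 (by simpa [mul_comm] using h3)
  rw [Algebra.smul_def]
  exact Ideal.mul_mem_right _ _ h4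

lemma eq_zero_of_local {a : R} (h : ∀ p : PrimeSpectrum R, ∃ g : R, g ∉ p.asIdeal ∧ g * a = 0) :
    a = 0 := by
  by_contra hc
  have h1 : Ideal.span {a} ≠ ⊥ := by simpa using hc
  have h2 : (Submodule.span R {a}).annihilator ≠ ⊤ := by
    rw [Ne, Submodule.annihilator_eq_top_iff]
    simpa using hc
  obtain ⟨m, hm, hm'⟩ := Ideal.exists_le_maximal _ h2
  obtain ⟨g, hg, hg'⟩ := h ⟨m, hm.isPrime⟩
  apply hg
  apply hm'
  rw [Submodule.mem_annihilator_span_singleton]
  exact hg'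


lemma etale_comp {φ : R →+* S} {ψ : S →+* T} (h : φ.Etale) (h' : ψ.Etale) : (ψ.comp φ).Etale :=
  RingHom.Etale.stableUnderComposition _ _ h h'

lemma etale_id : (RingHom.id R).Etale := RingHom.Etale.of_bijective Function.bijective_id

lemma etale_range_open {φ : R →+* S} (h : φ.Etale) :
    IsOpen (Set.range (PrimeSpectrum.comap φ)) := by
  let := φ.toAlgebra
  have h' : RingHom.Etale (algebraMap R S) := h
  have : Algebra.Etale R S := RingHom.etale_algebraMap.mp h'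
  have : IsOpenMap (PrimeSpectrum.comap (algebraMap R S)) :=
    PrimeSpectrum.isOpenMap_comap_of_hasGoingDown_of_finitePresentation
  exact this.isOpen_range

/-! ### Covering sieves -/

/-- The pullback of a sieve. -/
def Sv.pull (𝒰 : Sv R) (ψ : R →+* T) : Sv T where
  mem χ := 𝒰.mem (χ.comp ψ)
  comp_mem φ χ h := by
    rw [RingHom.comp_assoc]
    exact 𝒰.comp_mem _ _ h

lemma Sv.Covers.pull {𝒰 : Sv R} (h : 𝒰.Covers) (ψ : R →+* T) : (𝒰.pull ψ).Covers := by
  intro p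
  obtain ⟨S, _, φ, hφ, hm, q, hq⟩ := h (PrimeSpectrum.comap ψ p)
  obtain ⟨P, _, a, b, hab, _, _, he, hp⟩ := exists_pushout φ ψ
  obtain ⟨r, _, hr⟩ := hp q p hq
  refine ⟨P, _, b, he hφ, ?_, r, hr⟩
  change 𝒰.mem (b.comp ψ)
  rw [← hab]
  exact 𝒰.comp_mem _ _ hm

lemma Sv.Covers.trans {𝒰 : Sv R} (h : 𝒰.Covers) {𝒱 : Sv R}
    (h' : ∀ (S : Type) [CommRing S] (φ : R →+* S), 𝒰.mem φ → (𝒱.pull φ).Covers) : 𝒱.Covers := by
  intro p
  obtain ⟨S, _, φ, hφ, hm, q, hq⟩ := h p
  obtain ⟨S', _, φ', hφ', hm', q', hq'⟩ := h' S φ hm q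
  exact ⟨S', _, φ'.comp φ, etale_comp hφ hφ', hm', q', by
    rw [PrimeSpectrum.comap_comp_apply, hq', hq]⟩

lemma Sv.Covers.mono {𝒰 𝒱 : Sv R} (h : 𝒰.Covers)
    (h' : ∀ (S : Type) [CommRing S] (φ : R →+* S), 𝒰.mem φ → 𝒱.mem φ) : 𝒱.Covers := by
  intro p
  obtain ⟨S, _, φ, hφ, hm, hp⟩ := h p
  exact ⟨S, _, φ, hφ, h' S φ hm, hp⟩

lemma Sv.covers_of_id {𝒰 : Sv R} (h : 𝒰.mem (RingHom.id R)) : 𝒰.Covers := by
  intro p
  exact ⟨R, _, RingHom.id R, etale_id, h, p, rfl⟩

/-- The intersection of two sieves. -/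
def Sv.inter (𝒰 𝒱 : Sv R) : Sv R where
  mem φ := 𝒰.mem φ ∧ 𝒱.mem φ
  comp_mem _ _ h := ⟨𝒰.comp_mem _ _ h.1, 𝒱.comp_mem _ _ h.2⟩

lemma Sv.Covers.inter {𝒰 𝒱 : Sv R} (h : 𝒰.Covers) (h' : 𝒱.Covers) : (𝒰.inter 𝒱).Covers := by
  refine h.trans fun S _ φ hφ => ?_
  refine (h'.pull φ).mono fun T _ χ hχ => ?_
  exact ⟨𝒰.comp_mem _ _ hφ, hχ⟩

/-- A property of ring maps out of `R` which can be checked étale-locally. -/
lemma Sv.Covers.ext {𝒰 : Sv R} (h : 𝒰.Covers) {a b : R}
    (hab : ∀ (S : Type) [CommRing S] (φ : R →+* S), 𝒰.mem φ → φ a = φ b) : a = b := by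
  rw [← sub_eq_zero]
  refine eq_zero_of_local fun p => ?_
  obtain ⟨S, _, φ, hφ, hm, q, rfl⟩ := h p
  refine flat_ann hφ (f := 1) ?_ ?_
  · rw [map_sub, hab S φ hm, sub_self, mul_zero]
  · exact fun h1 => q.isPrime.ne_top ((Ideal.eq_top_iff_one _).mpr h1)

lemma Sv.Covers.glue {𝒰 : Sv R} (h : 𝒰.Covers)
    (s : ∀ (S : Type) [CommRing S] (φ : R →+* S), 𝒰.mem φ → S)
    (hs : ∀ (S T : Type) [CommRing S] [CommRing T] (φ : R →+* S) (ψ : S →+* T) (h : 𝒰.mem φ)
      (h' : 𝒰.mem (ψ.comp φ)), ψ (s S φ h) = s T (ψ.comp φ) h') :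
    ∃! r : R, ∀ (S : Type) [CommRing S] (φ : R →+* S) (h : 𝒰.mem φ), φ r = s S φ h := by
  classical
  have hcov := h
  choose S _ φ hφ hφ' hp using h
  obtain ⟨t, ht⟩ := isCompact_univ.elim_finite_subcover
    (fun p => Set.range (PrimeSpectrum.comap (φ p))) (fun p => etale_range_open (hφ p))
    (fun p _ => Set.mem_iUnion.mpr ⟨p, hp p⟩)
  have ht' : ∀ p : PrimeSpectrum R, ∃ i : t, p ∈ Set.range (PrimeSpectrum.comap (φ i)) := by
    intro p
    obtain ⟨i, hi, hi'⟩ := Set.mem_iUnion₂.mp (ht (Set.mem_univ p))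
    exact ⟨⟨i, hi⟩, hi'⟩
  let (i : t) : Algebra R (S i) := (φ i).toAlgebra
  have (i : t) : Module.Flat R (S i) := by
    have h' : RingHom.Etale (algebraMap R (S i)) := hφ i
    have : Algebra.Etale R (S i) := RingHom.etale_algebraMap.mp h'
    infer_instance
  have congr_s : ∀ (T : Type) [CommRing T] (ψ ψ' : R →+* T) (h : 𝒰.mem ψ) (h' : 𝒰.mem ψ'),
      ψ = ψ' → s T ψ h = s T ψ' h' := by
    rintro T _ ψ ψ' h h' rfl
    rfl
  have compat : ∀ (i j : t), (s (S i) (φ i) (hφ' i)) ⊗ₜ[R] (1 : S j) =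
      (1 : S i) ⊗ₜ[R] (s (S j) (φ j) (hφ' j)) := by
    intro i j
    have h1 := hs (S i) (S i ⊗[R] S j) (φ i) Algebra.TensorProduct.includeLeftRingHom (hφ' i)
      (𝒰.comp_mem _ _ (hφ' i))
    have h2 := hs (S j) (S i ⊗[R] S j) (φ j) Algebra.TensorProduct.includeRight.toRingHom (hφ' j)
      (𝒰.comp_mem _ _ (hφ' j))
    refine h1.trans (Eq.trans ?_ h2.symm)
    apply congr_s
    ext x
    change (algebraMap R (S i) x) ⊗ₜ[R] 1 = 1 ⊗ₜ[R] (algebraMap R (S j) x)
    rw [Algebra.algebraMap_eq_smul_one, Algebra.algebraMap_eq_smul_one, smul_tmul]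
  obtain ⟨r, hr⟩ := descent_fin (fun i : t => S i) ht' (fun i : t => s (S i) (φ i) (hφ' i))
    compat
  have hr2 : ∀ (i : t), φ i r = s (S i) (φ i) (hφ' i) := hr
  have main : ∀ (T : Type) [CommRing T] (ψ : R →+* T) (h : 𝒰.mem ψ), ψ r = s T ψ h := by
    intro T _ ψ hψ
    let 𝒱 : Sv R :=
      { mem := fun {T} _ χ => ∃ (i : t) (ρ : S i →+* T), χ = ρ.comp (φ i)
        comp_mem := by
          rintro _ _ _ _ _ χ ⟨i, ρ, rfl⟩
          exact ⟨i, χ.comp ρ, rfl⟩ }
    have h𝒱 : 𝒱.Covers := by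
      intro p
      obtain ⟨i, hi⟩ := ht' p
      exact ⟨S i, _, φ i, hφ i, ⟨i, RingHom.id _, rfl⟩, hi⟩
    refine (h𝒱.pull ψ).ext fun Q _ χ hχ => ?_
    obtain ⟨i, ρ, hρ⟩ := hχ
    rw [← RingHom.comp_apply, hρ, RingHom.comp_apply, hr2,
      hs _ _ _ ρ (hφ' i) (𝒰.comp_mem _ _ (hφ' i)), hs _ _ _ χ hψ (𝒰.comp_mem _ _ hψ)]
    exact congr_s _ _ _ _ _ hρ.symm
  refine ⟨r, main, fun r' h' => ?_⟩
  refine hcov.ext fun T _ ψ hψ => ?_
  exact (h' T ψ hψ).trans (main T ψ hψ).symm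

end Pool.Agent.TH165.Tan
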