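import Mathlib
import Pool.Agent.TH165.Tan.Etale

set_option autoImplicit false

open CategoryTheory

namespace Pool.Agent.TH165.Tan

/-! ## A criterion for being a stack -/

variable {R S T : Type} [CommRing R] [CommRing S] [CommRing T]

lemma Fib.pullMap_id (X : Fib) (f : R →+* S) (x : X.Obj R) :
    X.pullMap f (RingHom.id S) x = X.id (X.pull f x) := by
  apply X.hom_ext' (X.toPull f x)
  exact (X.comp_pullMap f (RingHom.id S) x).trans (X.comp_id _).symm

lemma Fib.pullMap_comp (X : Fib) {U : Type} [CommRing U] (f : R →+* S) (φ : S →+* T) (ψ : T →+* U)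
    (x : X.Obj R) : X.pullMap f (ψ.comp φ) x =
      X.comp (X.pullMap f φ x) (X.pullMap (φ.comp f) ψ x) := by
  apply X.hom_ext' (X.toPull f x)
  refine (X.comp_pullMap f (ψ.comp φ) x).trans ?_
  refine (X.comp_pullMap (φ.comp f) ψ x).symm.trans ?_
  refine (congrArg (fun b => X.comp b (X.pullMap (φ.comp f) ψ x))
    (X.comp_pullMap f φ x).symm).trans ?_
  exact X.assoc _ _ _

/-- Comparison of pullbacks. -/
noncomputable def Fib.pm (X : Fib) (x : X.Obj R) {f : R →+* S} {φ : S →+* T} {g : R →+* T}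
    (h : φ.comp f = g) : X.Hom φ (X.pull f x) (X.pull g x) :=
  h ▸ X.pullMap f φ x

lemma mor2_isIso {X Y : Fib} {F G : Mor X Y} (η : F ⟶ G) : IsIso η := by
  have h1 : ∀ {R : Type} [CommRing R] (x : X.Obj R),
      ∃ k : Y.Hom (RingHom.id R) (G.obj x) (F.obj x),
        Y.comp (φ := RingHom.id R) (ψ := RingHom.id R) (Mor2.app η x) k = Y.id (F.obj x) :=
    fun {R} _ x =>
    (Y.cart (φ := RingHom.id R) (ψ := RingHom.id R) (Mor2.app η x) (Y.id (F.obj x))).exists
  choose k hk using @h1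
  have hk' : ∀ {R : Type} [CommRing R] (x : X.Obj R),
      Y.comp (φ := RingHom.id R) (ψ := RingHom.id R) (k x) (Mor2.app η x) = Y.id (G.obj x) := by
    intro R _ x
    apply Y.hom_ext' (Mor2.app η x)
    refine (Y.assoc _ _ _).symm.trans ?_
    refine (congrArg (fun t => Y.comp t (Mor2.app η x)) (hk x)).trans ?_
    exact (Y.id_comp _).trans (Y.comp_id _).symm
  let θ : G ⟶ F := ⟨fun x => k x, fun {R S _ _ φ x y} f => by
    apply Y.hom_ext' (Mor2.app η x)
    have e1 : Y.comp (Mor2.app η x) (Y.comp (G.map f) (k y)) = F.map f := by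
      refine (Y.assoc (φ := RingHom.id R) (ψ := φ) (χ := RingHom.id S) _ _ _).symm.trans ?_
      refine (congrArg (fun t => Y.comp (φ := φ) (ψ := RingHom.id S) t (k y))
        (Mor2.naturality η f).symm).trans ?_
      refine (Y.assoc _ _ _).trans ?_
      refine (congrArg (fun t => Y.comp (F.map f) t) (hk y)).trans ?_
      exact Y.comp_id _
    have e2 : Y.comp (Mor2.app η x) (Y.comp (k x) (F.map f)) = F.map f := by
      refine (Y.assoc (φ := RingHom.id R) (ψ := RingHom.id R) (χ := φ) _ _ _).symm.trans ?_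
      refine (congrArg (fun t => Y.comp (φ := RingHom.id R) (ψ := φ) t (F.map f)) (hk x)).trans ?_
      exact Y.id_comp _
    exact e1.trans e2.symm⟩
  refine ⟨θ, ?_, ?_⟩
  · apply Mor2.ext
    funext R _ x
    exact hk x
  · apply Mor2.ext
    funext R _ x
    exact hk' x

/-- Gluing of morphisms. -/
def Fib.GlueHom (X : Fib) : Prop :=
  ∀ (R : Type) [CommRing R] (𝒰 : Sv R), 𝒰.Covers → ∀ (x y : X.Obj R)
    (z : ∀ (S : Type) [CommRing S] (φ : R →+* S), 𝒰.mem φ → X.Obj S)
    (a : ∀ (S : Type) [CommRing S] (φ : R →+* S) (h : 𝒰.mem φ), X.Hom φ x (z S φ h))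
    (b : ∀ (S : Type) [CommRing S] (φ : R →+* S) (h : 𝒰.mem φ), X.Hom φ y (z S φ h)),
    (∀ (S T : Type) [CommRing S] [CommRing T] (φ : R →+* S) (ψ : S →+* T) (h : 𝒰.mem φ)
      (h' : 𝒰.mem (ψ.comp φ)), ∃ c : X.Hom ψ (z S φ h) (z T (ψ.comp φ) h'),
      X.comp (a S φ h) c = a T (ψ.comp φ) h' ∧ X.comp (b S φ h) c = b T (ψ.comp φ) h') →
    ∃! f : X.Hom (RingHom.id R) x y, ∀ (S : Type) [CommRing S] (φ : R →+* S) (h : 𝒰.mem φ),
      X.comp f (b S φ h) = a S φ h

/-- The morphism in the fibred category of a sieve. -/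
def Sv.mor (𝒰 : Sv R) (φ : R →+* S) (ψ : S →+* T) (h : 𝒰.mem φ) (h' : 𝒰.mem (ψ.comp φ)) :
    𝒰.fib.Hom ψ ⟨φ, h⟩ ⟨ψ.comp φ, h'⟩ := ⟨rfl⟩

/-- Gluing of objects. -/
def Fib.GlueObj (X : Fib) : Prop :=
  ∀ (R : Type) [CommRing R] (𝒰 : Sv R), 𝒰.Covers → ∀ F : Mor 𝒰.fib X,
    ∃ (x : X.Obj R) (e : ∀ (S : Type) [CommRing S] (φ : R →+* S) (h : 𝒰.mem φ),
      X.Hom φ x (F.obj ⟨φ, h⟩)),
      ∀ (S T : Type) [CommRing S] [CommRing T] (φ : R →+* S) (ψ : S →+* T) (h : 𝒰.mem φ)
        (h' : 𝒰.mem (ψ.comp φ)), X.comp (e S φ h) (F.map (𝒰.mor φ ψ h h')) = e T (ψ.comp φ) h'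

/-- The morphism in the fibred category of an affine scheme. -/
def specMor (φ : R →+* S) (ψ : S →+* T) :
    (Fib.spec R).Hom ψ ⟨φ, trivial⟩ ⟨ψ.comp φ, trivial⟩ := ⟨rfl⟩

section

variable {X : Fib} (hX : X.GlueHom) {𝒰 : Sv R} (h𝒰 : 𝒰.Covers) (F G : Mor (Fib.spec R) X)
  (η : 𝒰.incl.comp F ⟶ 𝒰.incl.comp G)

include hX h𝒰 in
lemma glue_key (f : R →+* S) :
    ∃! g : X.Hom (RingHom.id S) (F.obj ⟨f, trivial⟩) (G.obj ⟨f, trivial⟩),
      ∀ (T : Type) [CommRing T] (χ : S →+* T) (h : 𝒰.mem (χ.comp f)),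
        X.comp g (G.map (specMor f χ)) =
          X.comp (ψ := RingHom.id T) (F.map (specMor f χ)) (Mor2.app η ⟨χ.comp f, h⟩) := by
  refine hX S (𝒰.pull f) (h𝒰.pull f) (F.obj ⟨f, trivial⟩) (G.obj ⟨f, trivial⟩)
    (fun T _ χ h => G.obj ⟨χ.comp f, trivial⟩)
    (fun T _ χ h => X.comp (ψ := RingHom.id T) (F.map (specMor f χ))
      (Mor2.app η ⟨χ.comp f, h⟩))
    (fun T _ χ h => G.map (specMor f χ)) ?_
  intro T U _ _ χ ψ h h'
  refine ⟨G.map (specMor (χ.comp f) ψ), ?_, ?_⟩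
  · have e1 : X.comp (φ := RingHom.id T) (Mor2.app η ⟨χ.comp f, h⟩)
        (G.map (specMor (χ.comp f) ψ)) =
        X.comp (ψ := RingHom.id U) (F.map (specMor (χ.comp f) ψ))
          (Mor2.app η ⟨ψ.comp (χ.comp f), h'⟩) :=
      (Mor2.naturality η (𝒰.mor (χ.comp f) ψ h h')).symm
    refine (X.assoc _ _ _).trans ?_
    refine (congrArg (fun t => X.comp (F.map (specMor f χ)) t) e1).trans ?_
    refine (X.assoc _ _ _).symm.trans ?_
    refine congrArg (fun t => X.comp (ψ := RingHom.id U) t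
      (Mor2.app η ⟨ψ.comp (χ.comp f), h'⟩)) ?_
    exact (F.map_comp (specMor f χ) (specMor (χ.comp f) ψ)).symm
  · exact (G.map_comp (specMor f χ) (specMor (χ.comp f) ψ)).symm

end

theorem Fib.isStack_of_glue {X : Fib} (hX : X.GlueHom) (hX' : X.GlueObj) : X.IsStack := by
  intro R _ 𝒰 h𝒰
  refine { faithful := ⟨?_⟩, full := ⟨?_⟩, essSurj := ⟨?_⟩ }
  · intro F G η θ h
    apply Mor2.ext
    funext S _ f
    obtain ⟨f, _⟩ := f
    apply (glue_key hX h𝒰 F G ((𝒰.incl.pre X).map η) f).unique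
    · intro T _ χ h
      exact (Mor2.naturality η (specMor f χ)).symm
    · intro T _ χ h'
      rw [h]
      exact (Mor2.naturality θ (specMor f χ)).symm
  · intro F G η
    have key := fun {S : Type} [CommRing S] (f : R →+* S) => glue_key hX h𝒰 F G η f
    choose g hg using fun {S : Type} [CommRing S] (f : R →+* S) => (key f).exists
    have hg' := fun {S : Type} [CommRing S] (f : R →+* S) g₁ g₂ h₁ h₂ =>
      (key f).unique (y₁ := g₁) (y₂ := g₂) h₁ h₂
    refine ⟨⟨fun {S} _ f => g f.hom, ?_⟩, ?_⟩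
    · intro S T _ _ φ x y a
      obtain ⟨f, _⟩ := x
      obtain ⟨f', _⟩ := y
      obtain ⟨e⟩ := a
      change φ.comp f = f' at e
      subst e
      obtain ⟨k, hk, -⟩ := X.cart (φ := φ) (ψ := RingHom.id T) (F.map (specMor f φ))
        (X.comp (φ := RingHom.id S) (ψ := φ) (g f) (G.map (specMor f φ)))
      have hkg : g (φ.comp f) = k := by
        apply hg' (φ.comp f) _ _ (hg (φ.comp f))
        intro U _ χ h
        apply X.hom_ext' (F.map (specMor f φ))
        refine (X.assoc _ _ _).symm.trans ?_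
        refine (congrArg (fun t => X.comp (φ := φ) t (G.map (specMor (φ.comp f) χ))) hk).trans ?_
        refine (X.assoc (φ := RingHom.id S) _ _ _).trans ?_
        refine (congrArg (fun t => X.comp (φ := RingHom.id S) (g f) t)
          (G.map_comp (specMor f φ) (specMor (φ.comp f) χ)).symm).trans ?_
        refine (hg f U (χ.comp φ) h).trans ?_
        refine (congrArg (fun t => X.comp (ψ := RingHom.id U) t
          (Mor2.app η ⟨χ.comp (φ.comp f), h⟩))
          (F.map_comp (specMor f φ) (specMor (φ.comp f) χ))).trans ?_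
        exact X.assoc _ _ _
      change X.comp (F.map (specMor f φ)) (g (φ.comp f)) = X.comp (g f) (G.map (specMor f φ))
      rw [hkg]
      exact hk
    · apply Mor2.ext
      funext S _ f
      obtain ⟨f, hf⟩ := f
      have h1 := hg f S (RingHom.id S) hf
      have h2 : G.map (specMor f (RingHom.id S)) = X.id (G.obj ⟨f, trivial⟩) := G.map_id _
      have h3 : F.map (specMor f (RingHom.id S)) = X.id (F.obj ⟨f, trivial⟩) := F.map_id _
      change g f = _
      have h4 : X.comp (φ := RingHom.id S) (ψ := RingHom.id S) (g f) (X.id (G.obj ⟨f, trivial⟩)) = g f :=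
        X.comp_id (g f)
      refine h4.symm.trans ?_
      refine (congrArg (fun t => X.comp (φ := RingHom.id S) (ψ := RingHom.id S) (g f) t)
        h2.symm).trans ?_
      refine h1.trans ?_
      refine (congrArg (fun t => X.comp (φ := RingHom.id S) (ψ := RingHom.id S) t
        (Mor2.app η ⟨f, hf⟩)) h3).trans ?_
      exact X.id_comp _
  · intro F
    obtain ⟨x, e, he⟩ := hX' R 𝒰 h𝒰 F
    let G : Mor (Fib.spec R) X :=
      { obj := fun {S} _ f => X.pull f.hom x
        map := fun {S T _ _ φ f g} a => X.pm x a.eq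
        map_id := fun {S} _ f => X.pullMap_id f.hom x
        map_comp := by
          intro S T U _ _ _ φ ψ f g k a b
          obtain ⟨f, _⟩ := f
          obtain ⟨g, _⟩ := g
          obtain ⟨k, _⟩ := k
          obtain ⟨a⟩ := a
          obtain ⟨b⟩ := b
          change φ.comp f = g at a
          subst a
          change ψ.comp (φ.comp f) = k at b
          subst b
          exact X.pullMap_comp f φ ψ x }
    have hex : ∀ {S : Type} [CommRing S] (f : 𝒰.fib.Obj S),
        ∃! k : X.Hom (RingHom.id S) (X.pull f.hom x) (F.obj f),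
          X.comp (X.toPull f.hom x) k = e S f.hom f.mem := fun {S} _ f =>
      X.cart (ψ := RingHom.id S) (X.toPull f.hom x) (e S f.hom f.mem)
    choose k hk using fun {S : Type} [CommRing S] (f : 𝒰.fib.Obj S) => (hex f).exists
    refine ⟨G, ⟨@asIso _ _ _ _ (⟨fun {S} _ f => k f, ?_⟩ : (𝒰.incl.comp G) ⟶ F) (mor2_isIso _)⟩⟩
    intro S T _ _ φ f g a
    obtain ⟨f, hf⟩ := f
    obtain ⟨g, hg⟩ := g
    obtain ⟨a⟩ := a
    change φ.comp f = g at a
    subst a
    apply X.hom_ext' (X.toPull f x)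
    change X.comp (X.toPull f x) (X.comp (φ := φ) (ψ := RingHom.id T) (X.pullMap f φ x)
        (k ⟨φ.comp f, hg⟩)) =
      X.comp (X.toPull f x) (X.comp (φ := RingHom.id S) (ψ := φ) (k ⟨f, hf⟩)
        (F.map (𝒰.mor f φ hf hg)))
    refine (X.assoc _ _ _).symm.trans ?_
    refine (congrArg (fun t => X.comp (ψ := RingHom.id T) t (k ⟨φ.comp f, hg⟩))
      (X.comp_pullMap f φ x)).trans ?_
    refine (hk ⟨φ.comp f, hg⟩).trans ?_
    refine Eq.trans ?_ (X.assoc (φ := f) (ψ := RingHom.id S) (χ := φ) (X.toPull f x)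
      (k ⟨f, hf⟩) (F.map (𝒰.mor f φ hf hg)))
    refine (he S T f φ hf hg).symm.trans ?_
    exact congrArg (fun t => X.comp t (F.map (𝒰.mor f φ hf hg))) (hk ⟨f, hf⟩).symm

end Pool.Agent.TH165.Tan
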