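import Mathlib
import Pool.Agent.TH165.Tan.Stack

set_option autoImplicit false

open CategoryTheory

namespace Pool.Agent.TH165.Tan

variable {A B C D R S T : Type} [CommRing A] [CommRing B] [CommRing C] [CommRing D]
  [CommRing R] [CommRing S] [CommRing T]

/-! ## Affine schemes are algebraic stacks -/

lemma Sv.Covers.ext_hom {𝒰 : Sv R} (h : 𝒰.Covers) {a b : A →+* R}
    (hab : ∀ (S : Type) [CommRing S] (φ : R →+* S), 𝒰.mem φ → φ.comp a = φ.comp b) : a = b := by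
  ext x
  refine h.ext fun S _ φ hφ => ?_
  exact RingHom.congr_fun (hab S φ hφ) x

lemma Sv.Covers.glue_hom {𝒰 : Sv R} (h : 𝒰.Covers)
    (s : ∀ (S : Type) [CommRing S] (φ : R →+* S), 𝒰.mem φ → (A →+* S))
    (hs : ∀ (S T : Type) [CommRing S] [CommRing T] (φ : R →+* S) (ψ : S →+* T) (h : 𝒰.mem φ)
      (h' : 𝒰.mem (ψ.comp φ)), ψ.comp (s S φ h) = s T (ψ.comp φ) h') :
    ∃! r : A →+* R, ∀ (S : Type) [CommRing S] (φ : R →+* S) (h : 𝒰.mem φ),
      φ.comp r = s S φ h := by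
  have key : ∀ x : A, ∃! r : R, ∀ (S : Type) [CommRing S] (φ : R →+* S) (h : 𝒰.mem φ),
      φ r = s S φ h x := by
    intro x
    exact h.glue (fun S _ φ h => s S φ h x)
      (fun S T _ _ φ ψ h h' => RingHom.congr_fun (hs S T φ ψ h h') x)
  choose r hr using fun x => (key x).exists
  have hr' := fun x y₁ y₂ h₁ h₂ => (key x).unique (y₁ := y₁) (y₂ := y₂) h₁ h₂
  refine ⟨⟨⟨⟨r, ?_⟩, ?_⟩, ?_, ?_⟩, ?_, ?_⟩
  · refine h.ext fun S _ φ hφ => ?_
    rw [hr _ S φ hφ, map_one, map_one]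
  · intro x y
    refine h.ext fun S _ φ hφ => ?_
    rw [hr _ S φ hφ, map_mul, map_mul, hr _ S φ hφ, hr _ S φ hφ]
  · refine h.ext fun S _ φ hφ => ?_
    change φ (r 0) = φ 0
    rw [hr _ S φ hφ, map_zero, map_zero]
  · intro x y
    refine h.ext fun S _ φ hφ => ?_
    change φ (r (x + y)) = φ (r x + r y)
    rw [hr _ S φ hφ, map_add, map_add, hr _ S φ hφ, hr _ S φ hφ]
  · intro S _ φ hφ
    ext x
    exact hr x S φ hφ
  · intro r' hr''
    ext x
    exact hr' x _ _ (fun S _ φ hφ => RingHom.congr_fun (hr'' S φ hφ) x) (hr x)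

lemma spec_glueHom (A : Type) [CommRing A] : (Fib.spec A).GlueHom := by
  intro R _ 𝒰 h x y z a b _
  have hxy : x.hom = y.hom := by
    refine h.ext_hom fun S _ φ hφ => ?_
    exact (a S φ hφ).eq.trans (b S φ hφ).eq.symm
  refine ⟨⟨hxy⟩, fun S _ φ h => rfl, fun _ _ => rfl⟩

lemma spec_glueObj (A : Type) [CommRing A] : (Fib.spec A).GlueObj := by
  intro R _ 𝒰 h F
  obtain ⟨r, hr, -⟩ := h.glue_hom (fun S _ φ h => (F.obj ⟨φ, h⟩).hom)
    (fun S T _ _ φ ψ h h' => (F.map (𝒰.mor φ ψ h h')).eq)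
  exact ⟨⟨r, trivial⟩, fun S _ φ h => ⟨hr S φ h⟩, fun _ _ _ _ _ _ _ _ => rfl⟩

lemma spec_isStack (A : Type) [CommRing A] : (Fib.spec A).IsStack :=
  Fib.isStack_of_glue (spec_glueHom A) (spec_glueObj A)

/-! ### Representable functors -/

/-- `F` is represented by `b : Spec B ⟶ F`. -/
def Fn.Rep (F : Fn) (b : F.obj B) : Prop :=
  ∀ (R : Type) [CommRing R] (t : F.obj R), ∃! β : B →+* R, F.map β b = t

lemma Fn.Rep.isSheaf {F : Fn} {b : F.obj B} (hb : F.Rep b) : F.IsSheaf := by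
  intro R _ 𝒰 h s hs
  choose β hβ using fun (S : Type) [CommRing S] (φ : R →+* S) (h : 𝒰.mem φ) =>
    (hb S (s S φ h)).exists
  have hβ' := fun (S : Type) [CommRing S] (t : F.obj S) y₁ y₂ h₁ h₂ =>
    (hb S t).unique (y₁ := y₁) (y₂ := y₂) h₁ h₂
  obtain ⟨r, hr, hr'⟩ := h.glue_hom β (fun S T _ _ φ ψ h h' => by
    apply hβ' T (s T (ψ.comp φ) h') _ _ _ (hβ T (ψ.comp φ) h')
    rw [F.map_comp, hβ, hs S T φ ψ h h'])
  refine ⟨F.map r b, fun S _ φ h => ?_, fun t ht => ?_⟩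
  · change F.map φ (F.map r b) = _
    rw [← F.map_comp, hr, hβ]
  · obtain ⟨r', rfl, -⟩ := hb R t
    rw [hr' r' fun S _ φ h => ?_]
    apply hβ' S (s S φ h) _ _ _ (hβ S φ h)
    rw [F.map_comp]
    exact ht S φ h

lemma Fn.Rep.isSmoothSpace {F : FnOver C} {b : F.obj B} (hb : F.Rep b)
    (hs : (F.str b).Smooth) : F.IsSmoothSpace := by
  refine ⟨hb.isSheaf, 0, Unit, fun _ => B, fun _ => inferInstance, fun _ => b, fun _ => hs, ?_, ?_⟩
  · intro _ D _ d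
    obtain ⟨β, hβ, hβ'⟩ := hb D d
    refine ⟨D, inferInstance, ⟨β, RingHom.id D, ?_⟩, etale_id, ?_⟩
    · change F.map β b = F.map (RingHom.id D) d
      rw [F.map_id, hβ]
    · intro R _ t
      obtain ⟨γ, δ, h⟩ := t
      refine ⟨δ, ?_, ?_⟩
      · refine Fn.FibPt.ext ?_ rfl
        obtain ⟨_, _, h3⟩ := hb R (F.map γ b)
        exact (h3 (δ.comp β) (by
          change F.map (δ.comp β) b = _
          rw [F.map_comp, hβ, h])).trans (h3 γ rfl).symm
      · intro δ' h'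
        exact congrArg Fn.FibPt.snd h'
  · intro D _ d
    refine Sv.covers_of_id ?_
    obtain ⟨β, hβ, -⟩ := hb D d
    exact ⟨(), β, by rw [hβ, F.map_id]⟩

theorem spec_isAlgebraic (A : Type) [CommRing A] : (Fib.spec A).IsAlgebraic := by
  refine ⟨spec_isStack A, Unit, fun _ => A, fun _ => inferInstance, fun _ => ⟨RingHom.id A, trivial⟩,
    ?_, ?_⟩
  · intro _ C _ y
    let b : ((Fib.spec A).fibre (A := A) ⟨RingHom.id A, trivial⟩ y).obj C :=
      ⟨y.hom, RingHom.id C, ⟨rfl⟩⟩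
    refine Fn.Rep.isSmoothSpace (B := C) (b := b) ?_ ?_
    · rintro R _ ⟨β, ψ, ⟨h⟩⟩
      change β.comp (RingHom.id A) = ψ.comp y.hom at h
      rw [RingHom.comp_id] at h
      subst h
      refine ⟨ψ, rfl, ?_⟩
      intro ψ' h'
      exact congrArg Fib.FibPt.snd h'
    · exact RingHom.Smooth.id C
  · intro C _ y
    refine Sv.covers_of_id ?_
    exact ⟨(), y.hom, ⟨⟨rfl⟩⟩⟩

end Pool.Agent.TH165.Tan
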