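import Mathlib
import Pool.Agent.TH165.Tan.Affine

set_option autoImplicit false

open CategoryTheory

namespace Pool.Agent.TH165.Tan

variable {A R S T U : Type} [CommRing A] [CommRing R] [CommRing S] [CommRing T] [CommRing U]

/-! ## Units which are locally powers of `q` -/

/-- The map on units. -/
abbrev um (φ : R →+* S) : Rˣ →* Sˣ := Units.map φ.toMonoidHom

/-- The sieve on which `u` becomes a power of `q`. -/
def kSv (q u : Rˣ) : Sv R where
  mem φ := ∃ n : ℤ, um φ u = um φ q ^ n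
  comp_mem := by
    rintro S T _ _ φ ψ ⟨n, hn⟩
    refine ⟨n, ?_⟩
    have := congrArg (um ψ) hn
    rw [map_zpow] at this
    exact this

/-- `u` is étale-locally a power of `q`. -/
def IsK (q u : Rˣ) : Prop := (kSv q u).Covers

lemma isK_pow (q : Rˣ) (n : ℤ) : IsK q (q ^ n) :=
  Sv.covers_of_id ⟨n, by simp⟩

lemma isK_self (q : Rˣ) : IsK q q := by simpa using isK_pow q 1

lemma isK_one (q : Rˣ) : IsK q 1 := by simpa using isK_pow q 0

lemma IsK.mul {q u v : Rˣ} (hu : IsK q u) (hv : IsK q v) : IsK q (u * v) := by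
  refine (Sv.Covers.inter hu hv).mono ?_
  rintro S _ φ ⟨⟨n, hn⟩, ⟨m, hm⟩⟩
  exact ⟨n + m, by rw [map_mul, hn, hm, zpow_add]⟩

lemma IsK.inv {q u : Rˣ} (hu : IsK q u) : IsK q u⁻¹ := by
  refine Sv.Covers.mono hu ?_
  rintro S _ φ ⟨n, hn⟩
  exact ⟨-n, by rw [map_inv, hn, zpow_neg]⟩

lemma IsK.map {q u : Rˣ} (hu : IsK q u) (φ : R →+* S) : IsK (um φ q) (um φ u) := by
  refine (Sv.Covers.pull hu φ).mono ?_
  rintro S _ φ ⟨n, hn⟩
  exact ⟨n, hn⟩

lemma IsK.descent {q u : Rˣ} {𝒰 : Sv R} (h : 𝒰.Covers)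
    (hu : ∀ (S : Type) [CommRing S] (φ : R →+* S), 𝒰.mem φ → IsK (um φ q) (um φ u)) :
    IsK q u := by
  refine h.trans fun S _ φ hφ => ?_
  refine Sv.Covers.mono (hu S φ hφ) ?_
  rintro T _ ψ ⟨n, hn⟩
  exact ⟨n, hn⟩

/-! ## Torsors under `G_m / q^ℤ` -/

/-- For a unit `q` of `R`, a torsor over `Spec R` under the étale sheaf `G_m / q^ℤ`: a sheaf of
sets on affine schemes over `Spec R`, with an action of `G_m` which is locally transitive and for
which the stabilizer of every point consists of the units which are étale-locally powers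
of `q`. -/
structure Tors {R : Type} [CommRing R] (q : Rˣ) where
  /-- the points over `Spec S` -/
  pt (S : Type) [CommRing S] (φ : R →+* S) : Type 1
  /-- pullback of points -/
  map {S T : Type} [CommRing S] [CommRing T] (φ : R →+* S) (ψ : S →+* T) (p : pt S φ) :
    pt T (ψ.comp φ)
  map_id {S : Type} [CommRing S] (φ : R →+* S) (p : pt S φ) : map φ (RingHom.id S) p = p
  map_comp {S T U : Type} [CommRing S] [CommRing T] [CommRing U] (φ : R →+* S) (ψ : S →+* T)
    (χ : T →+* U) (p : pt S φ) : map φ (χ.comp ψ) p = map (ψ.comp φ) χ (map φ ψ p)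
  /-- points are determined locally and can be glued -/
  sheaf {S : Type} [CommRing S] (φ : R →+* S) (𝒰 : Sv S) (h𝒰 : 𝒰.Covers)
    (s : ∀ (T : Type) [CommRing T] (ψ : S →+* T), 𝒰.mem ψ → pt T (ψ.comp φ))
    (hs : ∀ (T U : Type) [CommRing T] [CommRing U] (ψ : S →+* T) (χ : T →+* U) (h : 𝒰.mem ψ)
      (h' : 𝒰.mem (χ.comp ψ)), map (ψ.comp φ) χ (s T ψ h) = s U (χ.comp ψ) h') :
    ∃! p : pt S φ, ∀ (T : Type) [CommRing T] (ψ : S →+* T) (h : 𝒰.mem ψ), map φ ψ p = s T ψ h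
  /-- the action of `G_m` -/
  act {S : Type} [CommRing S] {φ : R →+* S} (u : Sˣ) (p : pt S φ) : pt S φ
  act_one {S : Type} [CommRing S] {φ : R →+* S} (p : pt S φ) : act 1 p = p
  act_mul {S : Type} [CommRing S] {φ : R →+* S} (u v : Sˣ) (p : pt S φ) :
    act (u * v) p = act u (act v p)
  map_act {S T : Type} [CommRing S] [CommRing T] (φ : R →+* S) (ψ : S →+* T) (u : Sˣ)
    (p : pt S φ) : map φ ψ (act u p) = act (um ψ u) (map φ ψ p)
  /-- there are local points -/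
  loc_nonempty : Sv.Covers
    { mem := fun {S} _ φ => Nonempty (pt S φ)
      comp_mem := fun φ ψ ⟨p⟩ => ⟨map φ ψ p⟩ : Sv R }
  /-- the action is locally transitive -/
  loc_trans {S : Type} [CommRing S] (φ : R →+* S) (p p' : pt S φ) : Sv.Covers
    { mem := fun {T} _ ψ => ∃ u : Tˣ, act u (map φ ψ p) = map φ ψ p'
      comp_mem := fun ψ χ ⟨u, hu⟩ => ⟨um χ u, by
        rw [map_comp, map_comp, ← map_act, hu]⟩ : Sv S }
  /-- the stabilizers consist of the units which are étale-locally powers of `q` -/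
  stab {S : Type} [CommRing S] (φ : R →+* S) (u : Sˣ) (p : pt S φ) :
    act u p = p ↔ IsK (um φ q) u

/-- The morphisms of torsors over a morphism `Spec φ : Spec S ⟶ Spec R`: equivariant isomorphisms
between the pullback of `P` to `Spec S` and `Q`. -/
@[ext]
structure TorsHom {R S : Type} [CommRing R] [CommRing S] (φ : R →+* S) {q : Rˣ} {q' : Sˣ}
    (P : Tors q) (Q : Tors q') where
  /-- the bijections on points -/
  eqv {T : Type} [CommRing T] (ψ : S →+* T) : P.pt T (ψ.comp φ) ≃ Q.pt T ψ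
  eqv_map {T U : Type} [CommRing T] [CommRing U] (ψ : S →+* T) (χ : T →+* U)
    (p : P.pt T (ψ.comp φ)) : eqv (χ.comp ψ) (P.map (ψ.comp φ) χ p) = Q.map ψ χ (eqv ψ p)
  eqv_act {T : Type} [CommRing T] (ψ : S →+* T) (u : Tˣ) (p : P.pt T (ψ.comp φ)) :
    eqv ψ (P.act u p) = Q.act u (eqv ψ p)

/-- The identity. -/
def TorsHom.id {q : Rˣ} (P : Tors q) : TorsHom (RingHom.id R) P P where
  eqv _ := Equiv.refl _
  eqv_map _ _ _ := rfl
  eqv_act _ _ _ := rfl

/-- Composition. -/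
def TorsHom.comp {φ : R →+* S} {ψ : S →+* T} {q : Rˣ} {q' : Sˣ} {q'' : Tˣ} {P : Tors q}
    {P' : Tors q'} {P'' : Tors q''} (f : TorsHom φ P P') (g : TorsHom ψ P' P'') :
    TorsHom (ψ.comp φ) P P'' where
  eqv χ := (f.eqv (χ.comp ψ)).trans (g.eqv χ)
  eqv_map χ ρ p := (congrArg (g.eqv (ρ.comp χ)) (f.eqv_map (χ.comp ψ) ρ p)).trans
    (g.eqv_map _ _ _)
  eqv_act χ u p := (congrArg (g.eqv χ) (f.eqv_act (χ.comp ψ) u p)).trans (g.eqv_act _ _ _)

/-- The pullback of a torsor. -/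
def Tors.pull {q : Rˣ} (P : Tors q) (φ : R →+* S) : Tors (um φ q) where
  pt T _ ψ := P.pt T (ψ.comp φ)
  map ψ χ p := P.map (ψ.comp φ) χ p
  map_id ψ p := P.map_id (ψ.comp φ) p
  map_comp ψ χ ρ p := P.map_comp (ψ.comp φ) χ ρ p
  sheaf ψ 𝒰 h s hs := P.sheaf (ψ.comp φ) 𝒰 h s hs
  act u p := P.act u p
  act_one p := P.act_one p
  act_mul u v p := P.act_mul u v p
  map_act ψ χ u p := P.map_act (ψ.comp φ) χ u p
  loc_nonempty := P.loc_nonempty.pull φ
  loc_trans ψ p p' := P.loc_trans (ψ.comp φ) p p'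
  stab ψ u p := P.stab (ψ.comp φ) u p

/-- The canonical morphism to the pullback. -/
def Tors.toPull {q : Rˣ} (P : Tors q) (φ : R →+* S) : TorsHom φ P (P.pull φ) where
  eqv _ := Equiv.refl _
  eqv_map _ _ _ := rfl
  eqv_act _ _ _ := rfl

/-- For a unit `q` of `A`, the classifying stack of `G = G_m / q^ℤ` over `Spec A`: the objects
over `Spec R` are the ring maps `α : A →+* R` with a torsor over `Spec R` under `G_m / α(q)^ℤ`. -/
def BG (A : Type) [CommRing A] (q : Aˣ) : Fib where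
  Obj R _ := Σ α : A →+* R, Tors (um α q)
  Hom φ x y := {_f : TorsHom φ x.2 y.2 // φ.comp x.1 = y.1}
  id x := ⟨TorsHom.id x.2, rfl⟩
  comp {_ _ _ _ _ _ φ ψ x y z} f g := ⟨f.1.comp g.1, by
    rw [RingHom.comp_assoc, f.2, g.2]⟩
  id_comp _ := rfl
  comp_id _ := rfl
  assoc _ _ _ := rfl
  pull φ x := ⟨φ.comp x.1, x.2.pull φ⟩
  toPull φ x := ⟨x.2.toPull φ, rfl⟩
  cart {R S T _ _ _ φ ψ x y z} f g := by
    obtain ⟨f, hf⟩ := f
    obtain ⟨g, hg⟩ := g
    refine ⟨⟨⟨fun χ => (f.eqv (χ.comp ψ)).symm.trans (g.eqv χ), ?_, ?_⟩, ?_⟩, ?_, ?_⟩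
    · intro U V _ _ χ ρ p
      obtain ⟨p', rfl⟩ := (f.eqv (χ.comp ψ)).surjective p
      rw [Equiv.trans_apply, Equiv.trans_apply, Equiv.symm_apply_apply]
      have h1 := f.eqv_map (χ.comp ψ) ρ p'
      have h2 := g.eqv_map χ ρ p'
      refine Eq.trans ?_ h2
      refine congrArg (g.eqv (ρ.comp χ)) ?_
      rw [Equiv.symm_apply_eq]
      exact h1.symm
    · intro U _ χ u p
      obtain ⟨p', rfl⟩ := (f.eqv (χ.comp ψ)).surjective p
      rw [Equiv.trans_apply, Equiv.trans_apply, Equiv.symm_apply_apply]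
      refine Eq.trans ?_ (g.eqv_act χ u p')
      refine congrArg (g.eqv χ) ?_
      rw [Equiv.symm_apply_eq]
      exact (f.eqv_act (χ.comp ψ) u p').symm
    · rw [← hf, ← hg]
      rfl
    · apply Subtype.ext
      apply TorsHom.ext
      funext U _ χ
      apply Equiv.ext
      intro p
      change g.eqv χ ((f.eqv (χ.comp ψ)).symm (f.eqv (χ.comp ψ) p)) = g.eqv χ p
      rw [Equiv.symm_apply_apply]
    · rintro ⟨h, hh⟩ e
      apply Subtype.ext
      apply TorsHom.ext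
      funext U _ χ
      apply Equiv.ext
      intro p
      obtain ⟨p', rfl⟩ := (f.eqv (χ.comp ψ)).surjective p
      have e2 := congrArg (fun t => t.1.eqv χ p') e
      change h.eqv χ (f.eqv (χ.comp ψ) p') = g.eqv χ p' at e2
      change h.eqv χ (f.eqv (χ.comp ψ) p') =
        g.eqv χ ((f.eqv (χ.comp ψ)).symm (f.eqv (χ.comp ψ) p'))
      rw [Equiv.symm_apply_apply, e2]

end Pool.Agent.TH165.Tan
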