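import Mathlib
import Pool.Agent.TH165.Tan.Tors

set_option autoImplicit false

open CategoryTheory

namespace Pool.Agent.TH165.Tan

variable {A R S T U : Type} [CommRing A] [CommRing R] [CommRing S] [CommRing T] [CommRing U]

lemma Tors.ext_pt {q : Rˣ} (P : Tors q) {φ : R →+* S} {𝒰 : Sv S} (h : 𝒰.Covers) {p p' : P.pt S φ}
    (hp : ∀ (T : Type) [CommRing T] (ψ : S →+* T), 𝒰.mem ψ → P.map φ ψ p = P.map φ ψ p') :
    p = p' :=
  (P.sheaf φ 𝒰 h (fun _ _ ψ _ => P.map φ ψ p') (fun _ _ _ _ ψ χ _ _ =>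
    (P.map_comp φ ψ χ p').symm)).unique (fun T _ ψ h => hp T ψ h) (fun _ _ _ _ => rfl)

/-- Natural maps. -/
def NatFun {q : Rˣ} (P Q : Tors q)
    (D : ∀ (T : Type) [CommRing T] (ψ : R →+* T), P.pt T ψ → Q.pt T ψ) : Prop :=
  ∀ (T U : Type) [CommRing T] [CommRing U] (ψ : R →+* T) (χ : T →+* U) (p : P.pt T ψ),
    D U (χ.comp ψ) (P.map ψ χ p) = Q.map ψ χ (D T ψ p)

lemma NatFun.ext {q : Rˣ} {P Q : Tors q} {𝒰 : Sv R} (h𝒰 : 𝒰.Covers)
    {D D' : ∀ (T : Type) [CommRing T] (ψ : R →+* T), P.pt T ψ → Q.pt T ψ}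
    (hD : NatFun P Q D) (hD' : NatFun P Q D')
    (h : ∀ (T : Type) [CommRing T] (ψ : R →+* T), 𝒰.mem ψ → ∀ p, D T ψ p = D' T ψ p)
    {T : Type} [CommRing T] (ψ : R →+* T) (p : P.pt T ψ) : D T ψ p = D' T ψ p := by
  refine Q.ext_pt (h𝒰.pull ψ) fun U _ χ hχ => ?_
  rw [← hD, ← hD', h _ _ hχ]

lemma NatFun.glue {q : Rˣ} {P Q : Tors q} {𝒰 : Sv R} (h𝒰 : 𝒰.Covers)
    (d : ∀ (T : Type) [CommRing T] (ψ : R →+* T), 𝒰.mem ψ → P.pt T ψ → Q.pt T ψ)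
    (hd : ∀ (T U : Type) [CommRing T] [CommRing U] (ψ : R →+* T) (χ : T →+* U) (h : 𝒰.mem ψ)
      (h' : 𝒰.mem (χ.comp ψ)) (p : P.pt T ψ),
      d U (χ.comp ψ) h' (P.map ψ χ p) = Q.map ψ χ (d T ψ h p)) :
    ∃ D : ∀ (T : Type) [CommRing T] (ψ : R →+* T), P.pt T ψ → Q.pt T ψ, NatFun P Q D ∧
      ∀ (T : Type) [CommRing T] (ψ : R →+* T) (h : 𝒰.mem ψ) (p : P.pt T ψ),
        D T ψ p = d T ψ h p := by
  have key : ∀ (T : Type) [CommRing T] (ψ : R →+* T) (p : P.pt T ψ), ∃ p' : Q.pt T ψ,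
      ∀ (U : Type) [CommRing U] (χ : T →+* U) (h : 𝒰.mem (χ.comp ψ)),
        Q.map ψ χ p' = d U (χ.comp ψ) h (P.map ψ χ p) := by
    intro T _ ψ p
    refine (Q.sheaf ψ (𝒰.pull ψ) (h𝒰.pull ψ) (fun U _ χ h => d U (χ.comp ψ) h (P.map ψ χ p))
      ?_).exists
    intro U V _ _ χ ρ h h'
    refine (hd U V (χ.comp ψ) ρ h h' (P.map ψ χ p)).symm.trans ?_
    exact congrArg (d V (ρ.comp (χ.comp ψ)) h') (P.map_comp ψ χ ρ p).symm
  choose D hD using key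
  refine ⟨D, ?_, ?_⟩
  · intro T U _ _ ψ χ p
    refine Q.ext_pt (h𝒰.pull (χ.comp ψ)) fun V _ ρ hρ => ?_
    rw [hD U (χ.comp ψ) _ V ρ hρ]
    refine (congrArg (d V (ρ.comp (χ.comp ψ)) hρ) (P.map_comp ψ χ ρ p)).symm.trans ?_
    refine (hD T ψ p V (ρ.comp χ) hρ).symm.trans ?_
    exact Q.map_comp _ _ _ _
  · intro T _ ψ h p
    have h1 := hD T ψ p T (RingHom.id T) h
    refine (Q.map_id ψ (D T ψ p)).symm.trans (h1.trans ?_)
    exact congrArg (d T ψ h) (P.map_id ψ p)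

lemma BG_glueHom (A : Type) [CommRing A] (q : Aˣ) : (BG A q).GlueHom := by
  intro R _ 𝒰 h𝒰 x y z a b hab
  obtain ⟨α, P⟩ := x
  obtain ⟨β, Q⟩ := y
  have hαβ : α = β := h𝒰.ext_hom fun S _ φ hφ => (a S φ hφ).2.trans (b S φ hφ).2.symm
  subst hαβ
  -- the local isomorphisms
  have hd : ∀ (T U : Type) [CommRing T] [CommRing U] (ψ : R →+* T) (χ : T →+* U) (h : 𝒰.mem ψ)
      (h' : 𝒰.mem (χ.comp ψ)) (p : P.pt U (χ.comp ψ)),
      ((b U (χ.comp ψ) h').1.eqv (RingHom.id U)).symm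
        ((a U (χ.comp ψ) h').1.eqv (RingHom.id U) p) =
      ((b T ψ h).1.eqv χ).symm ((a T ψ h).1.eqv χ p) := by
    intro T U _ _ ψ χ h h' p
    obtain ⟨c, hc, hc'⟩ := hab T U ψ χ h h'
    rw [Equiv.symm_apply_eq]
    have e1 : (a U (χ.comp ψ) h').1.eqv (RingHom.id U) p =
        c.1.eqv (RingHom.id U) ((a T ψ h).1.eqv χ p) :=
      congrArg (fun t => t.1.eqv (RingHom.id U) p) hc.symm
    have e2 : ∀ p' : Q.pt U (χ.comp ψ), (b U (χ.comp ψ) h').1.eqv (RingHom.id U) p' =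
        c.1.eqv (RingHom.id U) ((b T ψ h).1.eqv χ p') := fun p' =>
      congrArg (fun t => t.1.eqv (RingHom.id U) p') hc'.symm
    refine e1.trans (Eq.trans ?_ (e2 _).symm)
    exact congrArg (c.1.eqv (RingHom.id U)) (Equiv.apply_symm_apply _ _).symm
  have hn : ∀ (T U : Type) [CommRing T] [CommRing U] (ψ : R →+* T) (χ : T →+* U) (h : 𝒰.mem ψ)
      (p : P.pt T ψ), ((b T ψ h).1.eqv χ).symm ((a T ψ h).1.eqv χ (P.map ψ χ p)) =
      Q.map ψ χ (((b T ψ h).1.eqv (RingHom.id T)).symm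
        ((a T ψ h).1.eqv (RingHom.id T) p)) := by
    intro T U _ _ ψ χ h p
    rw [Equiv.symm_apply_eq]
    refine ((a T ψ h).1.eqv_map (RingHom.id T) χ p).trans ?_
    refine Eq.trans ?_ ((b T ψ h).1.eqv_map (RingHom.id T) χ
      (((b T ψ h).1.eqv (RingHom.id T)).symm ((a T ψ h).1.eqv (RingHom.id T) p))).symm
    exact congrArg _ (Equiv.apply_symm_apply _ _).symm
  have hn' : ∀ (T U : Type) [CommRing T] [CommRing U] (ψ : R →+* T) (χ : T →+* U) (h : 𝒰.mem ψ)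
      (p : Q.pt T ψ), ((a T ψ h).1.eqv χ).symm ((b T ψ h).1.eqv χ (Q.map ψ χ p)) =
      P.map ψ χ (((a T ψ h).1.eqv (RingHom.id T)).symm
        ((b T ψ h).1.eqv (RingHom.id T) p)) := by
    intro T U _ _ ψ χ h p
    rw [Equiv.symm_apply_eq]
    refine ((b T ψ h).1.eqv_map (RingHom.id T) χ p).trans ?_
    refine Eq.trans ?_ ((a T ψ h).1.eqv_map (RingHom.id T) χ
      (((a T ψ h).1.eqv (RingHom.id T)).symm ((b T ψ h).1.eqv (RingHom.id T) p))).symm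
    exact congrArg _ (Equiv.apply_symm_apply _ _).symm
  obtain ⟨D, hD, hDd⟩ := NatFun.glue (P := P) (Q := Q) h𝒰
    (fun T _ ψ h p => ((b T ψ h).1.eqv (RingHom.id T)).symm
        ((a T ψ h).1.eqv (RingHom.id T) p)) (by
      intro T U _ _ ψ χ h h' p
      exact (hd T U ψ χ h h' _).trans (hn T U ψ χ h p))
  obtain ⟨E, hE, hEd⟩ := NatFun.glue (P := Q) (Q := P) h𝒰
    (fun T _ ψ h p => ((a T ψ h).1.eqv (RingHom.id T)).symm
        ((b T ψ h).1.eqv (RingHom.id T) p)) (by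
      intro T U _ _ ψ χ h h' p
      refine Eq.trans ?_ (hn' T U ψ χ h p)
      rw [Equiv.symm_apply_eq]
      have := hd T U ψ χ h h' (((a T ψ h).1.eqv χ).symm ((b T ψ h).1.eqv χ (Q.map ψ χ p)))
      rw [Equiv.symm_apply_eq] at this
      refine Eq.trans ?_ this.symm
      refine congrArg _ ?_
      rw [Equiv.eq_symm_apply]
      exact (Equiv.apply_symm_apply _ _).symm)
  have hED : ∀ (T : Type) [CommRing T] (ψ : R →+* T) (p : P.pt T ψ), E T ψ (D T ψ p) = p := by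
    intro T _ ψ p
    refine NatFun.ext (P := P) (Q := P) h𝒰 (D := fun T _ ψ p => E T ψ (D T ψ p))
      (D' := fun T _ ψ p => p) ?_ (fun _ _ _ _ _ _ _ => rfl) ?_ ψ p
    · intro T U _ _ ψ χ p
      change E U (χ.comp ψ) (D U (χ.comp ψ) (P.map ψ χ p)) = _
      rw [hD, hE]
    · intro T _ ψ h p
      change E T ψ (D T ψ p) = p
      rw [hDd T ψ h, hEd T ψ h, Equiv.symm_apply_eq]
      exact Equiv.apply_symm_apply _ _
  have hDE : ∀ (T : Type) [CommRing T] (ψ : R →+* T) (p : Q.pt T ψ), D T ψ (E T ψ p) = p := by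
    intro T _ ψ p
    refine NatFun.ext (P := Q) (Q := Q) h𝒰 (D := fun T _ ψ p => D T ψ (E T ψ p))
      (D' := fun T _ ψ p => p) ?_ (fun _ _ _ _ _ _ _ => rfl) ?_ ψ p
    · intro T U _ _ ψ χ p
      change D U (χ.comp ψ) (E U (χ.comp ψ) (Q.map ψ χ p)) = _
      rw [hE, hD]
    · intro T _ ψ h p
      change D T ψ (E T ψ p) = p
      rw [hEd T ψ h, hDd T ψ h, Equiv.symm_apply_eq]
      exact Equiv.apply_symm_apply _ _
  have hact : ∀ (T : Type) [CommRing T] (ψ : R →+* T) (u : Tˣ) (p : P.pt T ψ),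
      D T ψ (P.act u p) = Q.act u (D T ψ p) := by
    intro T _ ψ u p
    refine Q.ext_pt (h𝒰.pull ψ) fun U _ χ hχ => ?_
    rw [← hD, Q.map_act, ← hD, P.map_act, hDd U (χ.comp ψ) hχ, hDd U (χ.comp ψ) hχ,
      Equiv.symm_apply_eq]
    refine ((a U (χ.comp ψ) hχ).1.eqv_act (RingHom.id U) (um χ u) (P.map ψ χ p)).trans ?_
    refine Eq.trans ?_ ((b U (χ.comp ψ) hχ).1.eqv_act (RingHom.id U) (um χ u) _).symm
    exact congrArg _ (Equiv.apply_symm_apply _ _).symm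
  refine ⟨⟨⟨fun ψ => ⟨D _ ψ, E _ ψ, hED _ ψ, hDE _ ψ⟩, fun ψ χ p => hD _ _ ψ χ p,
    fun ψ u p => hact _ ψ u p⟩, RingHom.id_comp _⟩, ?_, ?_⟩
  · intro T _ ψ h
    apply Subtype.ext
    apply TorsHom.ext
    funext U _ χ
    apply Equiv.ext
    intro p
    change (b T ψ h).1.eqv χ (D U (χ.comp ψ) p) = (a T ψ h).1.eqv χ p
    rw [hDd U (χ.comp ψ) (𝒰.comp_mem _ _ h), hd T U ψ χ h (𝒰.comp_mem _ _ h) p]
    exact Equiv.apply_symm_apply _ _
  · intro g hg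
    apply Subtype.ext
    apply TorsHom.ext
    funext U _ χ
    apply Equiv.ext
    intro p
    change g.1.eqv χ p = D U χ p
    refine NatFun.ext (P := P) (Q := Q) h𝒰 (D := fun T _ ψ p => g.1.eqv ψ p)
      (fun T U _ _ ψ χ p => g.1.eqv_map ψ χ p) hD ?_ χ p
    intro T _ ψ h p
    rw [hDd T ψ h, Equiv.eq_symm_apply]
    exact congrArg (fun t => t.1.eqv (RingHom.id T) p) (hg T ψ h)

end Pool.Agent.TH165.Tan
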