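import Mathlib
import Pool.Agent.TH165.Tan.GlueHom

set_option autoImplicit false

open CategoryTheory

namespace Pool.Agent.TH165.Tan

variable {A R S T U : Type} [CommRing A] [CommRing R] [CommRing S] [CommRing T] [CommRing U]

/-- Torsors defined on a sieve. -/
structure PTors {R : Type} [CommRing R] (𝒰 : Sv R) (q : Rˣ) where
  pt (S : Type) [CommRing S] (φ : R →+* S) (h : 𝒰.mem φ) : Type 1
  map {S T : Type} [CommRing S] [CommRing T] (φ : R →+* S) (h : 𝒰.mem φ) (ψ : S →+* T)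
    (p : pt S φ h) : pt T (ψ.comp φ) (𝒰.comp_mem φ ψ h)
  map_id {S : Type} [CommRing S] (φ : R →+* S) (h : 𝒰.mem φ) (p : pt S φ h) :
    map φ h (RingHom.id S) p = p
  map_comp {S T U : Type} [CommRing S] [CommRing T] [CommRing U] (φ : R →+* S) (h : 𝒰.mem φ)
    (ψ : S →+* T) (χ : T →+* U) (p : pt S φ h) :
    map φ h (χ.comp ψ) p = map (ψ.comp φ) (𝒰.comp_mem φ ψ h) χ (map φ h ψ p)
  sheaf {S : Type} [CommRing S] (φ : R →+* S) (h : 𝒰.mem φ) (𝒱 : Sv S) (h𝒱 : 𝒱.Covers)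
    (s : ∀ (T : Type) [CommRing T] (ψ : S →+* T), 𝒱.mem ψ →
      pt T (ψ.comp φ) (𝒰.comp_mem φ ψ h))
    (hs : ∀ (T U : Type) [CommRing T] [CommRing U] (ψ : S →+* T) (χ : T →+* U) (h : 𝒱.mem ψ)
      (h' : 𝒱.mem (χ.comp ψ)), map (ψ.comp φ) _ χ (s T ψ h) = s U (χ.comp ψ) h') :
    ∃! p : pt S φ h, ∀ (T : Type) [CommRing T] (ψ : S →+* T) (h' : 𝒱.mem ψ),
      map φ h ψ p = s T ψ h'
  act {S : Type} [CommRing S] {φ : R →+* S} {h : 𝒰.mem φ} (u : Sˣ) (p : pt S φ h) : pt S φ h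
  act_one {S : Type} [CommRing S] {φ : R →+* S} {h : 𝒰.mem φ} (p : pt S φ h) : act 1 p = p
  act_mul {S : Type} [CommRing S] {φ : R →+* S} {h : 𝒰.mem φ} (u v : Sˣ) (p : pt S φ h) :
    act (u * v) p = act u (act v p)
  map_act {S T : Type} [CommRing S] [CommRing T] (φ : R →+* S) (h : 𝒰.mem φ) (ψ : S →+* T)
    (u : Sˣ) (p : pt S φ h) : map φ h ψ (act u p) = act (um ψ u) (map φ h ψ p)
  loc_nonempty {S : Type} [CommRing S] (φ : R →+* S) (h : 𝒰.mem φ) : Sv.Covers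
    { mem := fun {T} _ ψ => Nonempty (pt T (ψ.comp φ) (𝒰.comp_mem φ ψ h))
      comp_mem := fun ψ χ ⟨p⟩ => ⟨map _ _ χ p⟩ : Sv S }
  loc_trans {S : Type} [CommRing S] (φ : R →+* S) (h : 𝒰.mem φ) (p p' : pt S φ h) : Sv.Covers
    { mem := fun {T} _ ψ => ∃ u : Tˣ, act u (map φ h ψ p) = map φ h ψ p'
      comp_mem := fun ψ χ ⟨u, hu⟩ => ⟨um χ u, by
        rw [map_comp, map_comp, ← map_act, hu]⟩ : Sv S }
  stab {S : Type} [CommRing S] (φ : R →+* S) (h : 𝒰.mem φ) (u : Sˣ) (p : pt S φ h) :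
    act u p = p ↔ IsK (um φ q) u

section extend

variable {𝒰 : Sv R} {q : Rˣ} (E : PTors 𝒰 q)

/-- The points of the extension of a torsor on a sieve. -/
def PTors.EPt (T : Type) [CommRing T] (ψ : R →+* T) : Type 1 :=
  {s : ∀ (S : Type) [CommRing S] (χ : T →+* S) (h : 𝒰.mem (χ.comp ψ)), E.pt S (χ.comp ψ) h //
    ∀ (S S' : Type) [CommRing S] [CommRing S'] (χ : T →+* S) (ρ : S →+* S')
      (h : 𝒰.mem (χ.comp ψ)), E.map (χ.comp ψ) h ρ (s S χ h) =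
        s S' (ρ.comp χ) (𝒰.comp_mem _ ρ h)}

lemma PTors.ext_pt {φ : R →+* S} {hφ : 𝒰.mem φ} {𝒱 : Sv S} (h : 𝒱.Covers) {p p' : E.pt S φ hφ}
    (hp : ∀ (T : Type) [CommRing T] (ψ : S →+* T), 𝒱.mem ψ → E.map φ hφ ψ p = E.map φ hφ ψ p') :
    p = p' :=
  (E.sheaf φ hφ 𝒱 h (fun _ _ ψ _ => E.map φ hφ ψ p') (fun _ _ _ _ ψ χ _ _ =>
    (E.map_comp φ hφ ψ χ p').symm)).unique (fun T _ ψ h => hp T ψ h) (fun _ _ _ _ => rfl)

/-- The extension of a torsor on a covering sieve. -/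
def PTors.extend (h𝒰 : 𝒰.Covers) : Tors q where
  pt T _ ψ := E.EPt T ψ
  map ψ χ s := ⟨fun S _ ρ h => s.1 S (ρ.comp χ) h, fun S S' _ _ ρ σ h =>
    s.2 S S' (ρ.comp χ) σ h⟩
  map_id ψ s := rfl
  map_comp ψ χ ρ s := rfl
  sheaf {S _} ψ 𝒱 h𝒱 s hs := by
    have key : ∀ (T : Type) [CommRing T] (χ : S →+* T) (h : 𝒰.mem (χ.comp ψ)),
        ∃! t : E.pt T (χ.comp ψ) h, ∀ (U : Type) [CommRing U] (ρ : T →+* U)
          (hρ : 𝒱.mem (ρ.comp χ)),
          E.map (χ.comp ψ) h ρ t = (s U (ρ.comp χ) hρ).1 U (RingHom.id U) (𝒰.comp_mem _ ρ h) := by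
      intro T _ χ h
      refine E.sheaf (χ.comp ψ) h (𝒱.pull χ) (h𝒱.pull χ) (fun U _ ρ hρ =>
        (s U (ρ.comp χ) hρ).1 U (RingHom.id U) (𝒰.comp_mem _ ρ h)) ?_
      intro U V _ _ ρ σ hρ hσ
      refine ((s U (ρ.comp χ) hρ).2 U V (RingHom.id U) σ (𝒰.comp_mem _ ρ h)).trans ?_
      exact congrArg (fun t : E.EPt V ((σ.comp (ρ.comp χ)).comp ψ) =>
        t.1 V (RingHom.id V) (𝒰.comp_mem _ (σ.comp ρ) h)) (hs U V (ρ.comp χ) σ hρ hσ)
    choose t ht using fun (T : Type) [CommRing T] (χ : S →+* T) (h : 𝒰.mem (χ.comp ψ)) =>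
      (key T χ h).exists
    have ht' := fun (T : Type) [CommRing T] (χ : S →+* T) (h : 𝒰.mem (χ.comp ψ)) y₁ y₂ h₁ h₂ =>
      (key T χ h).unique (y₁ := y₁) (y₂ := y₂) h₁ h₂
    refine ⟨⟨t, ?_⟩, ?_, ?_⟩
    · intro T U _ _ χ ρ h
      apply ht' U (ρ.comp χ) (𝒰.comp_mem _ ρ h) _ _ _ (ht U (ρ.comp χ) (𝒰.comp_mem _ ρ h))
      intro V _ σ hσ
      refine (E.map_comp (χ.comp ψ) h ρ σ (t T χ h)).symm.trans ?_
      exact ht T χ h V (σ.comp ρ) hσ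
    · intro T _ χ hχ
      apply Subtype.ext
      funext U _ ρ h
      change t U (ρ.comp χ) h = (s T χ hχ).1 U ρ h
      have h1 := ht U (ρ.comp χ) h U (RingHom.id U) (𝒱.comp_mem χ ρ hχ)
      refine (E.map_id _ _ _).symm.trans (h1.trans ?_)
      exact congrArg (fun t : E.EPt U ((ρ.comp χ).comp ψ) => t.1 U (RingHom.id U) h)
        (hs T U χ ρ hχ (𝒱.comp_mem χ ρ hχ)).symm
    · intro t' h'
      apply Subtype.ext
      funext T _ χ h
      change t'.1 T χ h = t T χ h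
      apply ht' T χ h _ _ _ (ht T χ h)
      intro U _ ρ hρ
      refine (t'.2 T U χ ρ h).trans ?_
      exact congrArg (fun t : E.EPt U ((ρ.comp χ).comp ψ) => t.1 U (RingHom.id U)
        (𝒰.comp_mem _ ρ h)) (h' U (ρ.comp χ) hρ)
  act {S _ φ} u s := ⟨fun T _ χ h => E.act (um χ u) (s.1 T χ h), fun T U _ _ χ ρ h => by
    rw [E.map_act, s.2]
    rfl⟩
  act_one s := by
    apply Subtype.ext
    funext T _ χ h
    change E.act (um χ 1) (s.1 T χ h) = s.1 T χ h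
    rw [map_one, E.act_one]
  act_mul u v s := by
    apply Subtype.ext
    funext T _ χ h
    change E.act (um χ (u * v)) (s.1 T χ h) = E.act (um χ u) (E.act (um χ v) (s.1 T χ h))
    rw [map_mul, E.act_mul]
  map_act φ ψ u s := rfl
  loc_nonempty := by
    refine h𝒰.trans fun S _ φ hφ => ?_
    refine (E.loc_nonempty φ hφ).mono ?_
    rintro T _ ψ ⟨e⟩
    exact ⟨⟨fun U _ χ h => E.map (ψ.comp φ) (𝒰.comp_mem _ _ hφ) χ e, fun U V _ _ χ ρ h =>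
      (E.map_comp (ψ.comp φ) (𝒰.comp_mem _ _ hφ) χ ρ e).symm⟩⟩
  loc_trans {S _} ψ p p' := by
    refine (h𝒰.pull ψ).trans fun T _ χ hχ => ?_
    refine (E.loc_trans (χ.comp ψ) hχ (p.1 T χ hχ) (p'.1 T χ hχ)).mono ?_
    rintro U _ ρ ⟨u, hu⟩
    refine ⟨u, ?_⟩
    rw [p.2 T U χ ρ hχ, p'.2 T U χ ρ hχ] at hu
    apply Subtype.ext
    funext V _ σ h
    change E.act (um σ u) (p.1 V (σ.comp (ρ.comp χ)) h) = p'.1 V (σ.comp (ρ.comp χ)) h
    rw [← p.2 U V (ρ.comp χ) σ (𝒰.comp_mem _ ρ hχ), ← p'.2 U V (ρ.comp χ) σ (𝒰.comp_mem _ ρ hχ),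
      ← hu, E.map_act]
  stab {S _} ψ u p := by
    constructor
    · intro h
      refine IsK.descent (h𝒰.pull ψ) fun T _ χ hχ => ?_
      refine (E.stab (χ.comp ψ) hχ (um χ u) (p.1 T χ hχ)).mp ?_
      exact congrArg (fun t : E.EPt S ψ => t.1 T χ hχ) h
    · intro h
      apply Subtype.ext
      funext T _ χ hχ
      exact (E.stab (χ.comp ψ) hχ (um χ u) (p.1 T χ hχ)).mpr (h.map χ)

end extend

section restrict

variable {q : Aˣ} {𝒰 : Sv R} (F : Mor 𝒰.fib (BG A q))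

/-- The torsor. -/
abbrev fP (φ : R →+* S) (h : 𝒰.mem φ) : Tors (um (F.obj (R := S) ⟨φ, h⟩).1 q) :=
  (F.obj (R := S) ⟨φ, h⟩).2

/-- The comparison isomorphism. -/
abbrev fi (φ : R →+* S) (h : 𝒰.mem φ) (χ : S →+* T) :
    (fP F φ h).pt T χ ≃ (fP F (χ.comp φ) (𝒰.comp_mem φ χ h)).pt T (RingHom.id T) :=
  (F.map (𝒰.mor φ χ h (𝒰.comp_mem φ χ h))).1.eqv (RingHom.id T)

lemma fi_comp (φ : R →+* S) (h : 𝒰.mem φ) (χ : S →+* T) (ρ : T →+* U)
    (p : (fP F φ h).pt U (ρ.comp χ)) :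
    fi F (χ.comp φ) (𝒰.comp_mem φ χ h) ρ
      ((F.map (𝒰.mor φ χ h (𝒰.comp_mem φ χ h))).1.eqv ρ p) = fi F φ h (ρ.comp χ) p :=
  (congrArg (fun t => t.1.eqv (RingHom.id U) p) (F.map_comp (𝒰.mor φ χ h (𝒰.comp_mem φ χ h))
    (𝒰.mor (χ.comp φ) ρ (𝒰.comp_mem φ χ h) (𝒰.comp_mem _ ρ (𝒰.comp_mem φ χ h))))).symm

lemma fi_id (φ : R →+* S) (h : 𝒰.mem φ) (p : (fP F φ h).pt S (RingHom.id S)) :
    fi F φ h (RingHom.id S) p = p :=
  congrArg (fun t => t.1.eqv (RingHom.id S) p) (F.map_id ⟨φ, h⟩)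

lemma fi_map (φ : R →+* S) (h : 𝒰.mem φ) (χ : S →+* T) (ρ : T →+* U)
    (p : (fP F φ h).pt T χ) :
    fi F φ h (ρ.comp χ) ((fP F φ h).map χ ρ p) =
      fi F (χ.comp φ) (𝒰.comp_mem φ χ h) ρ
        ((fP F (χ.comp φ) (𝒰.comp_mem φ χ h)).map (RingHom.id T) ρ (fi F φ h χ p)) := by
  refine (fi_comp F φ h χ ρ _).symm.trans ?_
  refine congrArg (fi F (χ.comp φ) (𝒰.comp_mem φ χ h) ρ) ?_
  exact (F.map (𝒰.mor φ χ h (𝒰.comp_mem φ χ h))).1.eqv_map (RingHom.id T) ρ p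

lemma fi_act (φ : R →+* S) (h : 𝒰.mem φ) (χ : S →+* T) (u : Tˣ)
    (p : (fP F φ h).pt T χ) :
    fi F φ h χ ((fP F φ h).act u p) =
      (fP F (χ.comp φ) (𝒰.comp_mem φ χ h)).act u (fi F φ h χ p) :=
  (F.map (𝒰.mor φ χ h (𝒰.comp_mem φ χ h))).1.eqv_act (RingHom.id T) u p

/-- The torsor on a sieve given by a descent datum. -/
def descTors (α : A →+* R)
    (hα : ∀ (S : Type) [CommRing S] (φ : R →+* S) (h : 𝒰.mem φ),
      φ.comp α = (F.obj (R := S) ⟨φ, h⟩).1) : PTors 𝒰 (um α q) where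
  pt S _ φ h := (fP F φ h).pt S (RingHom.id S)
  map φ h ψ p := fi F φ h ψ ((fP F φ h).map (RingHom.id _) ψ p)
  map_id φ h p := (fi_id F φ h _).trans ((fP F φ h).map_id _ _)
  map_comp φ h ψ χ p := by
    refine (congrArg (fi F φ h (χ.comp ψ)) ((fP F φ h).map_comp (RingHom.id _) ψ χ p)).trans ?_
    exact fi_map F φ h ψ χ _
  sheaf {S _} φ h 𝒱 h𝒱 s hs := by
    obtain ⟨p, hp, hp'⟩ := (fP F φ h).sheaf (RingHom.id S) 𝒱 h𝒱
      (fun T _ ψ hψ => (fi F φ h ψ).symm (s T ψ hψ)) (by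
        intro T U _ _ ψ χ hψ hχ
        rw [Equiv.eq_symm_apply]
        refine (fi_map F φ h ψ χ ((fi F φ h ψ).symm (s T ψ hψ))).trans ?_
        rw [Equiv.apply_symm_apply]
        exact hs T U ψ χ hψ hχ)
    refine ⟨p, fun T _ ψ hψ => ?_, fun p' h' => hp' p' fun T _ ψ hψ => ?_⟩
    · have := hp T ψ hψ
      rw [Equiv.eq_symm_apply] at this
      exact this
    · rw [Equiv.eq_symm_apply]
      exact h' T ψ hψ
  act {S _ φ h} u p := (fP F φ h).act u p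
  act_one {S _ φ h} p := (fP F φ h).act_one p
  act_mul {S _ φ h} u v p := (fP F φ h).act_mul u v p
  map_act φ h ψ u p := by
    refine (congrArg (fi F φ h ψ) ((fP F φ h).map_act (RingHom.id _) ψ u p)).trans ?_
    exact fi_act F φ h ψ _ _
  loc_nonempty φ h := by
    refine (fP F φ h).loc_nonempty.mono ?_
    rintro T _ ψ ⟨p⟩
    exact ⟨fi F φ h ψ p⟩
  loc_trans φ h p p' := by
    refine ((fP F φ h).loc_trans (RingHom.id _) p p').mono ?_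
    rintro T _ ψ ⟨u, hu⟩
    refine ⟨u, ?_⟩
    exact (fi_act F φ h ψ u _).symm.trans (congrArg (fi F φ h ψ) hu)
  stab {S _} φ h u p := by
    refine ((fP F φ h).stab (RingHom.id _) u p).trans ?_
    change IsK (um (F.obj (R := S) ⟨φ, h⟩).1 q) u ↔ IsK (um (φ.comp α) q) u
    rw [hα S φ h]

end restrict

lemma BG_glueObj (A : Type) [CommRing A] (q : Aˣ) : (BG A q).GlueObj := by
  intro R _ 𝒰 h𝒰 F
  obtain ⟨α, hα, -⟩ := h𝒰.glue_hom (fun S _ φ h => (F.obj (R := S) ⟨φ, h⟩).1)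
    (fun S T _ _ φ ψ h h' => (F.map (𝒰.mor φ ψ h h')).2)
  let E := descTors F α hα
  let e : ∀ (S : Type) [CommRing S] (φ : R →+* S) (h : 𝒰.mem φ),
      (BG A q).Hom φ ⟨α, E.extend h𝒰⟩ (F.obj (R := S) ⟨φ, h⟩) := fun S _ φ h =>
    ⟨{ eqv := fun {T} _ ψ =>
        { toFun := fun s => (fi F φ h ψ).symm (s.1 T (RingHom.id T) (𝒰.comp_mem φ ψ h))
          invFun := fun p => ⟨fun U _ χ h' => E.map (ψ.comp φ) (𝒰.comp_mem φ ψ h) χ
              (fi F φ h ψ p), fun U V _ _ χ ρ h' => (E.map_comp _ _ _ _ _).symm⟩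
          left_inv := by
            intro s
            apply Subtype.ext
            funext U _ χ h'
            change E.map (ψ.comp φ) (𝒰.comp_mem φ ψ h) χ (fi F φ h ψ
              ((fi F φ h ψ).symm (s.1 T (RingHom.id T) (𝒰.comp_mem φ ψ h)))) = s.1 U χ h'
            rw [Equiv.apply_symm_apply]
            exact s.2 T U (RingHom.id T) χ (𝒰.comp_mem φ ψ h)
          right_inv := by
            intro p
            rw [Equiv.symm_apply_eq]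
            exact E.map_id _ _ _ }
       eqv_map := by
        intro T U _ _ ψ χ s
        change (fi F φ h (χ.comp ψ)).symm (s.1 U χ (𝒰.comp_mem φ (χ.comp ψ) h)) =
          (fP F φ h).map ψ χ ((fi F φ h ψ).symm (s.1 T (RingHom.id T) (𝒰.comp_mem φ ψ h)))
        rw [Equiv.symm_apply_eq]
        refine Eq.trans ?_ (fi_map F φ h ψ χ _).symm
        rw [Equiv.apply_symm_apply]
        exact (s.2 T U (RingHom.id T) χ (𝒰.comp_mem φ ψ h)).symm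
       eqv_act := by
        intro T _ ψ u s
        change (fi F φ h ψ).symm (E.act (um (RingHom.id T) u)
          (s.1 T (RingHom.id T) (𝒰.comp_mem φ ψ h))) =
          (fP F φ h).act u ((fi F φ h ψ).symm (s.1 T (RingHom.id T) (𝒰.comp_mem φ ψ h)))
        rw [Equiv.symm_apply_eq]
        refine Eq.trans ?_ (fi_act F φ h ψ u _).symm
        rw [Equiv.apply_symm_apply]
        rfl }, hα S φ h⟩
  refine ⟨⟨α, E.extend h𝒰⟩, e, ?_⟩
  intro S T _ _ φ ψ h h'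
  apply Subtype.ext
  apply TorsHom.ext
  funext U _ χ
  apply Equiv.ext
  intro s
  change (F.map (𝒰.mor φ ψ h h')).1.eqv χ ((fi F φ h (χ.comp ψ)).symm
    (s.1 U (RingHom.id U) (𝒰.comp_mem φ (χ.comp ψ) h))) =
    (fi F (ψ.comp φ) h' χ).symm (s.1 U (RingHom.id U) (𝒰.comp_mem φ (χ.comp ψ) h))
  rw [Equiv.eq_symm_apply]
  refine (fi_comp F φ h ψ χ _).trans ?_
  exact Equiv.apply_symm_apply _ _

theorem BG_isStack (A : Type) [CommRing A] (q : Aˣ) : (BG A q).IsStack :=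
  Fib.isStack_of_glue (BG_glueHom A q) (BG_glueObj A q)

end Pool.Agent.TH165.Tan
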