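import Mathlib
import Pool.Agent.TH165.Tan.Tors

set_option autoImplicit false

open CategoryTheory

namespace Pool.Agent.TH165.Tan

variable {A B C D R S T U : Type} [CommRing A] [CommRing B] [CommRing C] [CommRing D]
  [CommRing R] [CommRing S] [CommRing T] [CommRing U]

/-! ## Laurent polynomials and loci -/

lemma exists_laurent (C : Type) [CommRing C] :
    ∃ (B : Type) (_ : CommRing B) (ι : C →+* B) (x : Bˣ), ι.Smooth ∧
      (∀ (R : Type) [CommRing R] (κ : C →+* R) (v : Rˣ), ∃ β : B →+* R, β.comp ι = κ ∧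
        um β x = v) ∧
      ∀ (R : Type) [CommRing R] (β β' : B →+* R), β.comp ι = β'.comp ι → um β x = um β' x →
        β = β' := by
  let B := Localization.Away (MvPolynomial.X () : MvPolynomial Unit C)
  let x : Bˣ := IsUnit.unit (IsLocalization.Away.algebraMap_isUnit
    (S := B) (MvPolynomial.X () : MvPolynomial Unit C))
  have hx : (x : B) = algebraMap (MvPolynomial Unit C) B (MvPolynomial.X ()) := rfl
  let ι : C →+* B := (algebraMap (MvPolynomial Unit C) B).comp MvPolynomial.C
  refine ⟨B, inferInstance, ι, x, ?_, ?_, ?_⟩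
  · have h1 : Algebra.Etale (MvPolynomial Unit C) B :=
      Algebra.Etale.of_isLocalizationAway (MvPolynomial.X () : MvPolynomial Unit C)
    have h2 : Algebra.Smooth C (MvPolynomial Unit C) := ⟨inferInstance, inferInstance⟩
    have h3 : (algebraMap C (MvPolynomial Unit C)).Smooth := RingHom.smooth_algebraMap.mpr h2
    have h4 : (algebraMap (MvPolynomial Unit C) B).Smooth :=
      RingHom.smooth_algebraMap.mpr inferInstance
    exact h3.comp h4
  · intro R _ κ v
    let f : MvPolynomial Unit C →+* R := MvPolynomial.eval₂Hom κ (fun _ => (v : R))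
    have hf : IsUnit (f (MvPolynomial.X ())) := by
      simp [f]
    refine ⟨IsLocalization.Away.lift (S := B) (MvPolynomial.X () : MvPolynomial Unit C) hf,
      ?_, ?_⟩
    · ext c
      simp [ι, f]
    · apply Units.ext
      change IsLocalization.Away.lift (S := B) (MvPolynomial.X () : MvPolynomial Unit C) hf x = v
      rw [hx, IsLocalization.Away.lift_eq]
      simp [f]
  · intro R _ β β' h h'
    refine IsLocalization.ringHom_ext (Submonoid.powers (MvPolynomial.X () : MvPolynomial Unit C))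
      ?_
    apply MvPolynomial.ringHom_ext
    · intro c
      exact RingHom.congr_fun h c
    · intro _
      have := congrArg Units.val h'
      exact this

/-- The condition on `q`. -/
def Good (q : Rˣ) : Prop := ∀ n : ℤ, n ≠ 0 → IsUnit (((q ^ n : Rˣ) : R) - 1)

lemma Good.map {q : Rˣ} (h : Good q) (φ : R →+* S) : Good (um φ q) := by
  intro n hn
  have := (h n hn).map φ
  rw [map_sub, map_one] at this
  rw [← map_zpow]
  exact this

lemma Good.subsingleton {q : Rˣ} (h : Good q) {n : ℤ} (hn : n ≠ 0) (h1 : q ^ n = 1) :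
    Subsingleton R := by
  have := h n hn
  rw [h1, Units.val_one, sub_self] at this
  exact subsingleton_of_zero_eq_one (isUnit_zero_iff.mp this)

lemma Good.eq_zero {q : Rˣ} (h : Good q) [Nontrivial R] {n m : ℤ} (h1 : q ^ n = q ^ m) :
    n = m := by
  by_contra hne
  have h2 : n - m ≠ 0 := sub_ne_zero.mpr hne
  have := h.subsingleton h2 (by rw [zpow_sub, h1, mul_inv_cancel])
  exact false_of_nontrivial_of_subsingleton R

lemma locus (q w : Rˣ) (hq : Good q) (hw : IsK q w) :
    ∃ e : R, ∀ (S : Type) [CommRing S] (φ : R →+* S), um φ w = 1 ↔ IsUnit (φ e) := by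
  classical
  let E : ℤ → Set (PrimeSpectrum R) := fun n => {p | ∃ (S : Type) (_ : CommRing S)
    (φ : R →+* S), φ.Etale ∧ um φ w = um φ q ^ n ∧ p ∈ Set.range (PrimeSpectrum.comap φ)}
  have hE : ∀ n, IsOpen (E n) := by
    intro n
    rw [isOpen_iff_mem_nhds]
    rintro p ⟨S, _, φ, hφ, h1, h2⟩
    refine Filter.mem_of_superset ((etale_range_open hφ).mem_nhds h2) ?_
    intro p' hp'
    exact ⟨S, _, φ, hφ, h1, hp'⟩
  have hcov : ∀ p, ∃ n, p ∈ E n := by
    intro p
    obtain ⟨S, _, φ, hφ, ⟨n, hn⟩, h⟩ := hw p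
    exact ⟨n, S, _, φ, hφ, hn, h⟩
  -- if `w` becomes a power of `q` after a map having `p` in its image, then `p ∈ E n`
  have huniq : ∀ (n m : ℤ) (p : PrimeSpectrum R), p ∈ E n → ∀ (T : Type) [CommRing T]
      (ψ : R →+* T), um ψ w = um ψ q ^ m → p ∈ Set.range (PrimeSpectrum.comap ψ) → n = m := by
    rintro n m p ⟨S, _, φ, hφ, h1, ⟨p₁, h2⟩⟩ T _ ψ h3 ⟨p₂, h4⟩
    obtain ⟨P, _, a, b, hab, _, _, _, hP⟩ := exists_pushout φ ψ
    obtain ⟨r, _, _⟩ := hP p₁ p₂ (h2.trans h4.symm)
    have : Nontrivial P := ⟨0, 1, fun h => r.isPrime.ne_top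
      ((Ideal.eq_top_iff_one _).mpr (h ▸ r.asIdeal.zero_mem))⟩
    have hq' : Good (um (a.comp φ) q) := hq.map _
    refine hq'.eq_zero ?_
    have e1 : um (a.comp φ) w = um (a.comp φ) q ^ n := by
      have := congrArg (um a) h1
      rw [map_zpow] at this
      exact this
    have e2 : um (b.comp ψ) w = um (b.comp ψ) q ^ m := by
      have := congrArg (um b) h3
      rw [map_zpow] at this
      exact this
    rw [← hab] at e2
    exact e1.symm.trans e2
  have hclopen : IsClopen (E 0) := by
    refine ⟨⟨?_⟩, hE 0⟩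
    have : (E 0)ᶜ = ⋃ (n : ℤ) (_ : n ≠ 0), E n := by
      ext p
      simp only [Set.mem_compl_iff, Set.mem_iUnion]
      constructor
      · intro hp
        obtain ⟨n, hn⟩ := hcov p
        refine ⟨n, ?_, hn⟩
        rintro rfl
        exact hp hn
      · rintro ⟨n, hn, hpn⟩ hp0
        obtain ⟨S, _, φ, hφ, h1, h2⟩ := hp0
        exact hn (huniq n 0 p hpn S φ h1 h2)
    rw [this]
    exact isOpen_iUnion fun n => isOpen_iUnion fun _ => hE n
  obtain ⟨e, -, he⟩ := PrimeSpectrum.exists_idempotent_basicOpen_eq_of_isClopen hclopen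
  have he' : ∀ p : PrimeSpectrum R, p ∈ E 0 ↔ e ∉ p.asIdeal := by
    intro p
    rw [he]
    rfl
  refine ⟨e, fun S _ φ => ⟨fun h => ?_, fun h => ?_⟩⟩
  · by_contra hu
    obtain ⟨m, hm, hm'⟩ := exists_max_ideal_of_mem_nonunits hu
    let p : PrimeSpectrum S := ⟨m, hm.isPrime⟩
    have h1 : PrimeSpectrum.comap φ p ∉ E 0 := by
      rw [he']
      exact fun h => h hm'
    obtain ⟨n, hn⟩ := hcov (PrimeSpectrum.comap φ p)
    have := huniq n 0 _ hn S φ (by rw [h, zpow_zero]) ⟨p, rfl⟩
    exact h1 (this ▸ hn)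
  · let 𝒰 : Sv S :=
      { mem := fun ψ => um ψ (um φ w) = 1
        comp_mem := fun ψ χ h => by
          have := congrArg (um χ) h
          rw [map_one] at this
          exact this }
    have h𝒰 : 𝒰.Covers := by
      intro p
      have h1 : PrimeSpectrum.comap φ p ∈ E 0 := by
        rw [he']
        intro h2
        exact p.isPrime.ne_top (Ideal.eq_top_of_isUnit_mem _ h2 h)
      obtain ⟨T, _, ψ, hψ, h2, ⟨p', h3⟩⟩ := h1
      obtain ⟨P, _, a, b, hab, _, _, hb, hP⟩ := exists_pushout ψ φ
      obtain ⟨r, _, hr⟩ := hP p' p h3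
      refine ⟨P, _, b, hb hψ, ?_, r, hr⟩
      change um (b.comp φ) w = 1
      rw [← hab]
      have := congrArg (um a) h2
      rw [zpow_zero, map_one] at this
      exact this
    apply Units.ext
    refine h𝒰.ext fun T _ ψ hψ => ?_
    have := congrArg Units.val hψ
    rw [Units.val_one, map_one]
    exact this

end Pool.Agent.TH165.Tan
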