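import Mathlib
import Pool.Agent.TH165.Tan.Locus

set_option autoImplicit false

open CategoryTheory

namespace Pool.Agent.TH165.Tan

variable {A B C D R S T U : Type} [CommRing A] [CommRing B] [CommRing C] [CommRing D]
  [CommRing R] [CommRing S] [CommRing T] [CommRing U]

lemma Fn.IsSheaf.ext {F : Fn} (hF : F.IsSheaf) {𝒰 : Sv R} (h : 𝒰.Covers) {t t' : F.obj R}
    (ht : ∀ (S : Type) [CommRing S] (φ : R →+* S), 𝒰.mem φ → F.map φ t = F.map φ t') : t = t' :=
  (hF R 𝒰 h (fun _ _ φ _ => F.map φ t') (fun _ _ _ _ φ ψ _ _ =>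
    (F.map_comp φ ψ t').symm)).unique (fun S _ φ h => ht S φ h) (fun _ _ _ _ => rfl)

lemma Fn.fibre_isSheaf {F : Fn} (hF : F.IsSheaf) (b : F.obj B) (d : F.obj D) :
    (F.fibre b d).IsSheaf := by
  intro R _ 𝒰 h𝒰 s hs
  obtain ⟨β, hβ, hβ'⟩ := h𝒰.glue_hom (fun S _ φ h => (s S φ h).fst)
    (fun S T _ _ φ ψ h h' => congrArg Fn.FibPt.fst (hs S T φ ψ h h'))
  obtain ⟨δ, hδ, hδ'⟩ := h𝒰.glue_hom (fun S _ φ h => (s S φ h).snd)
    (fun S T _ _ φ ψ h h' => congrArg Fn.FibPt.snd (hs S T φ ψ h h'))
  refine ⟨⟨β, δ, ?_⟩, ?_, ?_⟩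
  · refine hF.ext h𝒰 fun S _ φ hφ => ?_
    rw [← F.map_comp, ← F.map_comp, hβ S φ hφ, hδ S φ hφ]
    exact (s S φ hφ).eq
  · intro S _ φ hφ
    exact Fn.FibPt.ext (hβ S φ hφ) (hδ S φ hφ)
  · intro t ht
    refine Fn.FibPt.ext ?_ ?_
    · exact hβ' _ fun S _ φ hφ => congrArg Fn.FibPt.fst (ht S φ hφ)
    · exact hδ' _ fun S _ φ hφ => congrArg Fn.FibPt.snd (ht S φ hφ)

/-- Homogeneous spaces under `G_m` over `Spec C` for which the stabilizers consist of the units
which are locally powers of `q`. -/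
structure HS (q : Cˣ) (F : FnOver C) where
  act {R : Type} [CommRing R] (u : Rˣ) (t : F.obj R) : F.obj R
  str_act {R : Type} [CommRing R] (u : Rˣ) (t : F.obj R) : F.str (act u t) = F.str t
  act_mul {R : Type} [CommRing R] (u v : Rˣ) (t : F.obj R) : act (u * v) t = act u (act v t)
  map_act {R S : Type} [CommRing R] [CommRing S] (φ : R →+* S) (u : Rˣ) (t : F.obj R) :
    F.map φ (act u t) = act (um φ u) (F.map φ t)
  sheaf : F.IsSheaf
  loc_nonempty (p : PrimeSpectrum C) : ∃ (S : Type) (_ : CommRing S) (φ : C →+* S), φ.Etale ∧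
    p ∈ Set.range (PrimeSpectrum.comap φ) ∧ ∃ t : F.obj S, F.str t = φ
  loc_trans {R : Type} [CommRing R] (t t' : F.obj R) (h : F.str t = F.str t')
    (p : PrimeSpectrum R) : ∃ (S : Type) (_ : CommRing S) (φ : R →+* S), φ.Etale ∧
      p ∈ Set.range (PrimeSpectrum.comap φ) ∧ ∃ u : Sˣ, act u (F.map φ t) = F.map φ t'
  stab {R : Type} [CommRing R] (u : Rˣ) (t : F.obj R) : act u t = t ↔ IsK (um (F.str t) q) u

namespace HS

variable {q : Cˣ} {F : FnOver C} (H : HS q F)

include H in
lemma one_act (t : F.obj R) : H.act 1 t = t := (H.stab 1 t).mpr (isK_one _)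

lemma zpow_act (t : F.obj R) (n : ℤ) : H.act (um (F.str t) q ^ n) t = t :=
  (H.stab _ t).mpr (isK_pow _ n)

lemma isK_of_act (u v : Rˣ) (t t' : F.obj R) (h : H.act u t = t') (h' : H.act v t = t') :
    IsK (um (F.str t) q) (u * v⁻¹) := by
  have h1 : H.act v⁻¹ t' = t := by
    rw [← h', ← H.act_mul, inv_mul_cancel, H.one_act]
  have h2 : H.act (u * v⁻¹) t' = t' := by
    rw [H.act_mul, h1, h]
  have h3 := (H.stab _ _).mp h2
  have h4 : F.str t' = F.str t := by rw [← h, H.str_act]
  rwa [h4] at h3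

/-- The fibres are étale algebraic spaces. -/
lemma fibre_isEtale (hq : Good q) {C' : Type} [CommRing C'] {c : C →+* C'} (hc : c.Etale)
    {s : F.obj C'} (hs : F.str s = c) {ι : C' →+* B} {x : Bˣ}
    (hB : ∀ (R : Type) [CommRing R] (κ : C' →+* R) (v : Rˣ), ∃ β : B →+* R, β.comp ι = κ ∧
        um β x = v)
    (hB' : ∀ (R : Type) [CommRing R] (β β' : B →+* R), β.comp ι = β'.comp ι →
      um β x = um β' x → β = β')
    (D : Type) [CommRing D] (d : F.obj D) :
    (F.toFn.fibre (H.act x (F.map ι s)) d).IsEtale 1 := by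
  -- the points of `Spec B ⟶ F`
  have hb : ∀ (R : Type) [CommRing R] (β : B →+* R),
      F.map β (H.act x (F.map ι s)) = H.act (um β x) (F.map (β.comp ι) s) := by
    intro R _ β
    rw [H.map_act, ← F.map_comp]
  obtain ⟨D', _, a, b', hab, hD, hD', hetale, hprime⟩ := exists_pushout c (F.str d)
  -- local comparison of the two points over `D'`
  have hstr : F.str (F.map a s) = F.str (F.map b' d) := by
    rw [F.str_map, F.str_map, hs, hab]
  choose E _ φ hφ hφp u hu using H.loc_trans (F.map a s) (F.map b' d) hstr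
  -- the atlas
  choose β hβι hβx using fun (i : PrimeSpectrum D' × ℤ) =>
    hB (E i.1) ((φ i.1).comp a) (um (((φ i.1).comp a).comp c) q ^ i.2 * u i.1)
  have hpt : ∀ i, F.map (β i) (H.act x (F.map ι s)) = F.map ((φ i.1).comp b') d := by
    intro i
    rw [hb, hβι, hβx, mul_comm, H.act_mul]
    have h1 : F.str (F.map ((φ i.1).comp a) s) = ((φ i.1).comp a).comp c := by
      rw [F.str_map, hs]
    have h2 := H.zpow_act (F.map ((φ i.1).comp a) s) i.2
    rw [h1] at h2
    rw [h2, F.map_comp, hu, ← F.map_comp]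
  refine ⟨Fn.fibre_isSheaf H.sheaf _ _, PrimeSpectrum D' × ℤ, fun i => E i.1,
    fun i => inferInstance, fun i => ⟨β i, (φ i.1).comp b', hpt i⟩,
    fun i => etale_comp (hetale hc) (hφ i.1), ?_, ?_⟩
  · -- the fibres of the atlas are affine étale
    intro i D'' _ h''
    obtain ⟨β'', δ'', hd''⟩ := h''
    change F.map β'' (H.act x (F.map ι s)) = F.map δ'' d at hd''
    obtain ⟨ρ, hρa, hρb⟩ := hD D'' (β''.comp ι) δ'' (by
      have := congrArg F.str hd''
      rw [F.str_map, F.str_map, H.str_act, F.str_map, hs, ← RingHom.comp_assoc] at this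
      exact this)
    obtain ⟨E'', _, a₂, b₂, hab₂, hE, hE', hetale₂, hprime₂⟩ := exists_pushout (φ i.1) ρ
    -- the two points
    have h1 : H.act (um a₂ (um (β i) x)) (F.map ((a₂.comp (φ i.1)).comp a) s) =
        F.map ((a₂.comp (φ i.1)).comp b') d := by
      have := congrArg (F.map a₂) (hpt i)
      rw [hb, H.map_act, ← F.map_comp, ← F.map_comp, hβι] at this
      exact this
    have h2 : H.act (um b₂ (um β'' x)) (F.map ((a₂.comp (φ i.1)).comp a) s) =
        F.map ((a₂.comp (φ i.1)).comp b') d := by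
      have := congrArg (F.map b₂) hd''
      rw [hb, H.map_act, ← F.map_comp, ← F.map_comp, ← hρa, ← hρb, ← RingHom.comp_assoc,
        ← RingHom.comp_assoc, ← hab₂] at this
      exact this
    have hK := H.isK_of_act _ _ _ _ h1 h2
    obtain ⟨e, he⟩ := locus _ _ (hq.map _) hK
    have hL : IsUnit (algebraMap E'' (Localization.Away e) e) :=
      IsLocalization.Away.algebraMap_isUnit e
    have hL1 := (he (Localization.Away e) (algebraMap E'' (Localization.Away e))).mpr hL
    rw [map_mul, map_inv, mul_inv_eq_one] at hL1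
    refine ⟨Localization.Away e, inferInstance,
      ⟨(algebraMap E'' (Localization.Away e)).comp a₂,
        (algebraMap E'' (Localization.Away e)).comp b₂, ?_⟩, ?_, ?_⟩
    · refine Fn.FibPt.ext ?_ ?_
      · change ((algebraMap E'' (Localization.Away e)).comp a₂).comp (β i) =
          ((algebraMap E'' (Localization.Away e)).comp b₂).comp β''
        refine hB' _ _ _ ?_ hL1
        rw [RingHom.comp_assoc, RingHom.comp_assoc, hβι, RingHom.comp_assoc, RingHom.comp_assoc,
          ← hρa]
        exact congrArg (fun t => (algebraMap E'' (Localization.Away e)).comp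
          (RingHom.comp t a)) hab₂
      · change ((algebraMap E'' (Localization.Away e)).comp a₂).comp ((φ i.1).comp b') =
          ((algebraMap E'' (Localization.Away e)).comp b₂).comp δ''
        rw [← hρb, RingHom.comp_assoc, RingHom.comp_assoc]
        exact congrArg (fun t => (algebraMap E'' (Localization.Away e)).comp
          (RingHom.comp t b')) hab₂
    · have h3 : Algebra.Etale E'' (Localization.Away e) := Algebra.Etale.of_isLocalizationAway e
      exact etale_comp (hetale₂ (hφ i.1)) (RingHom.etale_algebraMap.mpr h3)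
    · rintro R _ ⟨ε, ζ, hεζ⟩
      have e1 : ε.comp (β i) = ζ.comp β'' :=
        congrArg Fn.FibPt.fst hεζ
      have e2 : ε.comp ((φ i.1).comp b') = ζ.comp δ'' :=
        congrArg Fn.FibPt.snd hεζ
      obtain ⟨lam, hlam₁, hlam₂⟩ := hE R ε ζ (by
        apply hD'
        · rw [RingHom.comp_assoc, ← hβι, ← RingHom.comp_assoc, e1, RingHom.comp_assoc, ← hρa,
            RingHom.comp_assoc]
        · rw [RingHom.comp_assoc, e2, ← hρb, RingHom.comp_assoc])
      have hlam3 : IsUnit (lam e) := by
        rw [← he, map_mul, map_inv, mul_inv_eq_one]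
        have h4 : um (lam.comp a₂) (um (β i) x) = um (lam.comp b₂) (um β'' x) := by
          rw [hlam₁, hlam₂]
          exact congrArg (fun t => um t x) e1
        exact h4
      refine ⟨IsLocalization.Away.lift e hlam3, ?_, ?_⟩
      · refine Fn.FibPt.ext ?_ ?_
        · change (IsLocalization.Away.lift e hlam3).comp
            ((algebraMap E'' (Localization.Away e)).comp a₂) = ε
          rw [← RingHom.comp_assoc, IsLocalization.Away.lift_comp, hlam₁]
        · change (IsLocalization.Away.lift e hlam3).comp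
            ((algebraMap E'' (Localization.Away e)).comp b₂) = ζ
          rw [← RingHom.comp_assoc, IsLocalization.Away.lift_comp, hlam₂]
      · intro γ hγ
        have g1 : γ.comp ((algebraMap E'' (Localization.Away e)).comp a₂) = ε :=
          congrArg Fn.FibPt.fst hγ
        have g2 : γ.comp ((algebraMap E'' (Localization.Away e)).comp b₂) = ζ :=
          congrArg Fn.FibPt.snd hγ
        refine IsLocalization.ringHom_ext (Submonoid.powers e) ?_
        rw [IsLocalization.Away.lift_comp]
        apply hE'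
        · rw [hlam₁, ← g1, RingHom.comp_assoc]
        · rw [hlam₂, ← g2, RingHom.comp_assoc]
  · -- the atlas is jointly surjective
    intro D'' _ h'' p
    obtain ⟨β'', δ'', hd''⟩ := h''
    change F.map β'' (H.act x (F.map ι s)) = F.map δ'' d at hd''
    obtain ⟨ρ, hρa, hρb⟩ := hD D'' (β''.comp ι) δ'' (by
      have := congrArg F.str hd''
      rw [F.str_map, F.str_map, H.str_act, F.str_map, hs, ← RingHom.comp_assoc] at this
      exact this)
    let p' := PrimeSpectrum.comap ρ p
    obtain ⟨p₁, hp₁⟩ := hφp p'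
    obtain ⟨E'', _, a₂, b₂, hab₂, hE, hE', hetale₂, hprime₂⟩ := exists_pushout (φ p') ρ
    obtain ⟨p₂, hp₂, hp₂'⟩ := hprime₂ p₁ p hp₁
    have h1 : H.act (um a₂ (u p')) (F.map ((a₂.comp (φ p')).comp a) s) =
        F.map ((a₂.comp (φ p')).comp b') d := by
      have := congrArg (F.map a₂) (hu p')
      rw [H.map_act, ← F.map_comp, ← F.map_comp, ← F.map_comp, ← F.map_comp] at this
      exact this
    have h2 : H.act (um b₂ (um β'' x)) (F.map ((a₂.comp (φ p')).comp a) s) =
        F.map ((a₂.comp (φ p')).comp b') d := by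
      have := congrArg (F.map b₂) hd''
      rw [hb, H.map_act, ← F.map_comp, ← F.map_comp, ← hρa, ← hρb, ← RingHom.comp_assoc,
        ← RingHom.comp_assoc, ← hab₂] at this
      exact this
    have hK := H.isK_of_act _ _ _ _ h1 h2
    obtain ⟨S, _, χ, hχ, ⟨m, hm⟩, ⟨p₃, hp₃⟩⟩ := hK p₂
    refine ⟨S, _, χ.comp b₂, etale_comp (hetale₂ (hφ p')) hχ, ⟨(p', -m), χ.comp a₂, ?_⟩, p₃, ?_⟩
    · refine Fn.FibPt.ext ?_ ?_
      · change (χ.comp a₂).comp (β (p', -m)) = (χ.comp b₂).comp β''
        refine hB' _ _ _ ?_ ?_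
        · rw [RingHom.comp_assoc, RingHom.comp_assoc, hβι, RingHom.comp_assoc, RingHom.comp_assoc,
            ← hρa]
          exact congrArg (fun t => χ.comp (RingHom.comp t a)) hab₂
        · change um χ (um a₂ (um (β (p', -m)) x)) = um χ (um b₂ (um β'' x))
          rw [hβx]
          change um χ (um a₂ (um (((φ p').comp a).comp c) q ^ (-m) * u p')) = _
          rw [map_mul, map_mul, map_zpow, map_zpow]
          have hm' : um χ (um a₂ (u p')) = um χ (um (F.str (F.map ((a₂.comp (φ p')).comp a) s))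
              q) ^ m * um χ (um b₂ (um β'' x)) := by
            rw [← hm, map_mul, map_inv, inv_mul_cancel_right]
          rw [hm', F.str_map, hs]
          have : um χ (um a₂ (um (((φ p').comp a).comp c) q)) =
            um χ (um (((a₂.comp (φ p')).comp a).comp c) q) := rfl
          rw [this, ← mul_assoc, ← zpow_add, neg_add_cancel, zpow_zero, one_mul]
      · change (χ.comp a₂).comp ((φ p').comp b') = (χ.comp b₂).comp δ''
        rw [← hρb, RingHom.comp_assoc, RingHom.comp_assoc]
        exact congrArg (fun t => χ.comp (RingHom.comp t b')) hab₂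
    · rw [PrimeSpectrum.comap_comp_apply, hp₃, hp₂']

include H in
theorem isSmoothSpace (hq : Good q) : F.IsSmoothSpace := by
  choose C' _ c hc hcp s hs using H.loc_nonempty
  choose B _ ι x hι hB hB' using fun p : PrimeSpectrum C => exists_laurent (C' p)
  refine ⟨H.sheaf, 1, PrimeSpectrum C, B, inferInstance, fun p => H.act (x p) (F.map (ι p) (s p)),
    ?_, ?_, ?_⟩
  · intro p
    rw [H.str_act, F.str_map, hs]
    have h1 : (c p).Smooth := by
      have h2 := hc p
      rw [RingHom.etale_iff_formallyUnramified_and_smooth] at h2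
      exact h2.2
    exact h1.comp (hι p)
  · intro p D _ d
    exact H.fibre_isEtale hq (hc p) (hs p) (hB p) (hB' p) D d
  · intro D _ d p
    let p' := PrimeSpectrum.comap (F.str d) p
    obtain ⟨D', _, a, b', hab, hD, hD', hetale, hprime⟩ := exists_pushout (c p') (F.str d)
    obtain ⟨p₁, hp₁⟩ := hcp p'
    obtain ⟨p₂, hp₂, hp₂'⟩ := hprime p₁ p hp₁
    obtain ⟨E, _, φ, hφ, ⟨p₃, hp₃⟩, u, hu⟩ := H.loc_trans (F.map a (s p')) (F.map b' d) (by
      rw [F.str_map, F.str_map, hs, hab]) p₂
    obtain ⟨β, hβι, hβx⟩ := hB p' E (φ.comp a) u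
    refine ⟨E, _, φ.comp b', etale_comp (hetale (hc p')) hφ, ⟨p', β, ?_⟩, p₃, ?_⟩
    · change F.map β (H.act (x p') (F.map (ι p') (s p'))) = _
      rw [H.map_act, hβx, ← F.map_comp, hβι, F.map_comp, hu, ← F.map_comp]
    · rw [PrimeSpectrum.comap_comp_apply, hp₃, hp₂']

end HS

end Pool.Agent.TH165.Tan
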