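import Mathlib
import Pool.Agent.TH165.Tan.GlueHom

set_option autoImplicit false

open CategoryTheory

namespace Pool.Agent.TH165.Tan

variable {A R S T U : Type} [CommRing A] [CommRing R] [CommRing S] [CommRing T] [CommRing U]

/-- The points over `Spec S` of the quotient sheaf `G_m / q^ℤ`, as cosets. -/
@[ext]
structure Coset {S : Type} [CommRing S] (q : Sˣ) where
  C (T : Type) [CommRing T] (ψ : S →+* T) (u : Tˣ) : Prop
  map {T U : Type} [CommRing T] [CommRing U] (ψ : S →+* T) (χ : T →+* U) (u : Tˣ)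
    (h : C T ψ u) : C U (χ.comp ψ) (um χ u)
  iff {T : Type} [CommRing T] (ψ : S →+* T) (u v : Tˣ) (h : C T ψ u) :
    C T ψ v ↔ IsK (um ψ q) (v * u⁻¹)
  glue {T : Type} [CommRing T] (ψ : S →+* T) (u : Tˣ) (𝒰 : Sv T) (h : 𝒰.Covers)
    (h' : ∀ (U : Type) [CommRing U] (χ : T →+* U), 𝒰.mem χ → C U (χ.comp ψ) (um χ u)) : C T ψ u
  loc : ∃ 𝒰 : Sv S, 𝒰.Covers ∧ ∀ (T : Type) [CommRing T] (ψ : S →+* T), 𝒰.mem ψ →
    ∃ u : Tˣ, C T ψ u

namespace Coset

lemma ext_common {q : Sˣ} (X Y : Coset q) (𝒰 : Sv S) (h𝒰 : 𝒰.Covers)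
    (h : ∀ (T : Type) [CommRing T] (ψ : S →+* T), 𝒰.mem ψ → ∃ u : Tˣ, X.C T ψ u ∧ Y.C T ψ u) :
    X = Y := by
  apply Coset.ext
  funext T _ ψ v
  apply propext
  constructor
  · intro hv
    refine Y.glue ψ v (𝒰.pull ψ) (h𝒰.pull ψ) fun U _ χ hχ => ?_
    obtain ⟨u, hu, hu'⟩ := h U (χ.comp ψ) hχ
    rw [Y.iff _ _ _ hu', ← X.iff _ _ _ hu]
    exact X.map _ _ _ hv
  · intro hv
    refine X.glue ψ v (𝒰.pull ψ) (h𝒰.pull ψ) fun U _ χ hχ => ?_
    obtain ⟨u, hu, hu'⟩ := h U (χ.comp ψ) hχ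
    rw [X.iff _ _ _ hu, ← Y.iff _ _ _ hu']
    exact Y.map _ _ _ hv

lemma ext_global {q : Sˣ} (X Y : Coset q) (u : Sˣ) (h : X.C S (RingHom.id S) u)
    (h' : Y.C S (RingHom.id S) u) : X = Y := by
  refine X.ext_common Y ⟨fun _ => True, fun _ _ _ => trivial⟩ (Sv.covers_of_id trivial) ?_
  intro T _ ψ _
  exact ⟨um ψ u, X.map _ ψ _ h, Y.map _ ψ _ h'⟩

/-- Pullback of cosets. -/
def pull {q : Sˣ} (X : Coset q) (ψ : S →+* T) : Coset (um ψ q) where
  C U _ χ u := X.C U (χ.comp ψ) u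
  map χ ρ u h := X.map (χ.comp ψ) ρ u h
  iff χ u v h := X.iff (χ.comp ψ) u v h
  glue χ u 𝒰 h h' := X.glue (χ.comp ψ) u 𝒰 h h'
  loc := by
    obtain ⟨𝒰, h𝒰, h⟩ := X.loc
    exact ⟨𝒰.pull ψ, h𝒰.pull ψ, fun U _ χ hχ => h U (χ.comp ψ) hχ⟩

/-- The coset of a unit. -/
def pure (q u : Sˣ) : Coset q where
  C T _ ψ v := IsK (um ψ q) (v * (um ψ u)⁻¹)
  map ψ χ v h := by
    have := h.map χ
    rw [map_mul, map_inv] at this
    exact this
  iff ψ v w h := by
    constructor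
    · intro h'
      have := h'.mul h.inv
      rwa [mul_inv, inv_inv, mul_assoc, mul_comm (v⁻¹), ← mul_assoc ((um ψ u)⁻¹),
        inv_mul_cancel, one_mul] at this
    · intro h'
      have := h'.mul h
      rwa [mul_assoc, inv_mul_cancel_left] at this
  glue ψ v 𝒰 h h' := by
    refine IsK.descent h fun U _ χ hχ => ?_
    have := h' U χ hχ
    rw [map_mul, map_inv]
    exact this
  loc := ⟨⟨fun _ => True, fun _ _ _ => trivial⟩, Sv.covers_of_id trivial, fun T _ ψ _ =>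
    ⟨um ψ u, by rw [mul_inv_cancel]; exact isK_one _⟩⟩

lemma pure_mem (q u : Sˣ) : (pure q u).C S (RingHom.id S) u := by
  change IsK _ (u * (um (RingHom.id S) u)⁻¹)
  have : um (RingHom.id S) u = u := rfl
  rw [this, mul_inv_cancel]
  exact isK_one _

/-- The action of units on cosets. -/
def act {q : Sˣ} (u : Sˣ) (X : Coset q) : Coset q where
  C T _ ψ v := X.C T ψ ((um ψ u)⁻¹ * v)
  map ψ χ v h := by
    have := X.map ψ χ _ h
    rw [map_mul, map_inv] at this
    exact this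
  iff ψ v w h := by
    rw [X.iff _ _ _ h, mul_inv, inv_inv, mul_mul_mul_comm, inv_mul_cancel, one_mul]
  glue ψ v 𝒰 h h' := by
    refine X.glue _ _ 𝒰 h fun U _ χ hχ => ?_
    rw [map_mul, map_inv]
    exact h' U χ hχ
  loc := by
    obtain ⟨𝒰, h𝒰, h⟩ := X.loc
    refine ⟨𝒰, h𝒰, fun T _ ψ hψ => ?_⟩
    obtain ⟨v, hv⟩ := h T ψ hψ
    exact ⟨um ψ u * v, by rwa [inv_mul_cancel_left]⟩

end Coset

/-- The trivial torsor. -/
def triv (q : Rˣ) : Tors q where
  pt S _ φ := Coset (um φ q)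
  map φ ψ X := X.pull ψ
  map_id _ _ := rfl
  map_comp _ _ _ _ := rfl
  sheaf {S _} φ 𝒰 h𝒰 s hs := by
    have hs' : ∀ (T U : Type) [CommRing T] [CommRing U] (ψ : S →+* T) (χ : T →+* U)
        (h : 𝒰.mem ψ) (h' : 𝒰.mem (χ.comp ψ)) (V : Type) [CommRing V] (ρ : U →+* V) (u : Vˣ),
        (s T ψ h).C V (ρ.comp χ) u ↔ (s U (χ.comp ψ) h').C V ρ u := by
      intro T U _ _ ψ χ h h' V _ ρ u
      rw [← hs T U ψ χ h h']
      rfl
    let X : Coset (um φ q) :=
      { C := fun T _ ψ u => ∀ (U : Type) [CommRing U] (χ : T →+* U) (h : 𝒰.mem (χ.comp ψ)),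
          (s U (χ.comp ψ) h).C U (RingHom.id U) (um χ u)
        map := fun {T U _ _} ψ χ u h V _ ρ hρ => h V (ρ.comp χ) hρ
        iff := by
          intro T _ ψ u v h
          constructor
          · intro h'
            refine IsK.descent (h𝒰.pull ψ) fun U _ χ hχ => ?_
            have := ((s U (χ.comp ψ) hχ).iff _ _ _ (h U χ hχ)).mp (h' U χ hχ)
            rw [map_mul, map_inv]
            exact this
          · intro h' U _ χ hχ
            refine ((s U (χ.comp ψ) hχ).iff _ _ _ (h U χ hχ)).mpr ?_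
            have := h'.map χ
            rw [map_mul, map_inv] at this
            exact this
        glue := by
          intro T _ ψ u 𝒱 h𝒱 h U _ ρ hρ
          refine (s U (ρ.comp ψ) hρ).glue (RingHom.id U) _ (𝒱.pull ρ) (h𝒱.pull ρ)
            fun V _ σ hσ => ?_
          exact (hs' U V (ρ.comp ψ) σ hρ (𝒰.comp_mem _ _ hρ) V (RingHom.id V) _).mpr
            (h V (σ.comp ρ) hσ V (RingHom.id V) (𝒰.comp_mem (ρ.comp ψ) σ hρ))
        loc := by
          refine ⟨⟨fun {T} _ ψ => ∃ u : Tˣ, ∀ (U : Type) [CommRing U] (χ : T →+* U)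
            (h : 𝒰.mem (χ.comp ψ)), (s U (χ.comp ψ) h).C U (RingHom.id U) (um χ u), ?_⟩, ?_,
            fun T _ ψ h => h⟩
          · rintro T U _ _ ψ χ ⟨u, hu⟩
            exact ⟨um χ u, fun V _ ρ hρ => hu V (ρ.comp χ) hρ⟩
          · refine h𝒰.trans fun T _ ψ hψ => ?_
            obtain ⟨𝒱, h𝒱, h⟩ := (s T ψ hψ).loc
            refine h𝒱.mono fun U _ χ hχ => ?_
            obtain ⟨u, hu⟩ := h U χ hχ
            refine ⟨u, fun V _ ρ hρ => ?_⟩
            exact (hs' T V ψ (ρ.comp χ) hψ hρ V (RingHom.id V) _).mp ((s T ψ hψ).map χ ρ u hu) }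
    refine ⟨X, ?_, ?_⟩
    · intro T _ ψ hψ
      apply Coset.ext
      funext U _ χ u
      apply propext
      constructor
      · intro h
        exact (hs' T U ψ χ hψ (𝒰.comp_mem _ _ hψ) U (RingHom.id U) u).mpr
          (h U (RingHom.id U) (𝒰.comp_mem ψ χ hψ))
      · intro h V _ ρ hρ
        exact (hs' T V ψ (ρ.comp χ) hψ hρ V (RingHom.id V) _).mp ((s T ψ hψ).map χ ρ u h)
    · intro Y hY
      apply Coset.ext
      funext T _ ψ u
      apply propext
      have hY' : ∀ (U : Type) [CommRing U] (χ : S →+* U) (h : 𝒰.mem χ) (u : Uˣ),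
          Y.C U χ u ↔ (s U χ h).C U (RingHom.id U) u := by
        intro U _ χ h u
        rw [← hY U χ h]
        rfl
      constructor
      · intro h U _ χ hχ
        exact (hY' U (χ.comp ψ) hχ _).mp (Y.map ψ χ u h)
      · intro h
        refine Y.glue ψ u (𝒰.pull ψ) (h𝒰.pull ψ) fun U _ χ hχ => ?_
        exact (hY' U (χ.comp ψ) hχ _).mpr (h U χ hχ)
  act u X := X.act u
  act_one {S _ φ} X := by
    apply Coset.ext
    funext T _ ψ v
    change X.C T ψ ((um ψ 1)⁻¹ * v) = X.C T ψ v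
    rw [map_one, inv_one, one_mul]
  act_mul {S _ φ} u v X := by
    apply Coset.ext
    funext T _ ψ w
    change X.C T ψ ((um ψ (u * v))⁻¹ * w) = X.C T ψ ((um ψ v)⁻¹ * ((um ψ u)⁻¹ * w))
    rw [map_mul, mul_inv, mul_comm (um ψ u)⁻¹, mul_assoc]
  map_act φ ψ u X := rfl
  loc_nonempty := Sv.covers_of_id ⟨Coset.pure _ 1⟩
  loc_trans {S _} φ X Y := by
    obtain ⟨𝒰, h𝒰, h⟩ := X.loc
    obtain ⟨𝒱, h𝒱, h'⟩ := Y.loc
    refine (h𝒰.inter h𝒱).mono ?_
    rintro T _ ψ ⟨hψ, hψ'⟩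
    obtain ⟨u, hu⟩ := h T ψ hψ
    obtain ⟨v, hv⟩ := h' T ψ hψ'
    refine ⟨v * u⁻¹, ?_⟩
    refine Coset.ext_global _ _ v ?_ hv
    change X.C T ψ ((v * u⁻¹)⁻¹ * v)
    rw [mul_inv, inv_inv, mul_comm v⁻¹, inv_mul_cancel_right]
    exact hu
  stab {S _} φ u X := by
    constructor
    · intro h
      obtain ⟨𝒰, h𝒰, h'⟩ := X.loc
      refine IsK.descent h𝒰 fun T _ ψ hψ => ?_
      obtain ⟨v, hv⟩ := h' T ψ hψ
      have h1 : (X.act u).C T ψ v := by rw [h]; exact hv
      have h2 := (X.iff _ _ _ hv).mp h1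
      rw [mul_inv_cancel_right] at h2
      simpa using h2.inv
    · intro h
      apply Coset.ext
      funext T _ ψ v
      apply propext
      change X.C T ψ ((um ψ u)⁻¹ * v) ↔ X.C T ψ v
      constructor
      · intro h'
        rw [X.iff _ _ _ h', mul_inv, inv_inv, mul_comm (um ψ u), mul_inv_cancel_left]
        exact h.map ψ
      · intro h'
        rw [X.iff _ _ _ h', mul_inv_cancel_right]
        exact (h.map ψ).inv

/-! ### Sections and trivializations -/

section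

variable {q : Rˣ} (P : Tors q) (p : P.pt R (RingHom.id R))

/-- The coset of units taking `p` to `p'`. -/
def diffCoset (χ : R →+* T) (p' : P.pt T χ) : Coset (um χ q) where
  C U _ ρ u := P.act u (P.map (RingHom.id R) (ρ.comp χ) p) = P.map χ ρ p'
  map {U V _ _} ρ σ u h := by
    have h1 := congrArg (P.map (ρ.comp χ) σ) h
    rw [P.map_comp χ ρ σ p']
    refine Eq.trans ?_ h1
    refine Eq.trans ?_ (P.map_act (ρ.comp χ) σ u _).symm
    refine congrArg (P.act (um σ u)) ?_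
    exact P.map_comp (RingHom.id R) (ρ.comp χ) σ p
  iff {U _} ρ u v h := by
    refine Iff.trans ?_ (P.stab (ρ.comp χ) (v * u⁻¹) (P.map χ ρ p'))
    have h1 : P.act u⁻¹ (P.map χ ρ p') = P.map (RingHom.id R) (ρ.comp χ) p := by
      rw [← h]
      refine (P.act_mul u⁻¹ u (P.map (RingHom.id R) (ρ.comp χ) p)).symm.trans ?_
      rw [inv_mul_cancel, P.act_one]
    rw [P.act_mul, h1]
  glue {U _} ρ u 𝒰 h𝒰 h := by
    refine P.ext_pt (φ := ρ.comp χ) h𝒰 fun V _ σ hσ => ?_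
    refine (P.map_act (ρ.comp χ) σ u _).trans ?_
    refine (congrArg (P.act (um σ u)) (P.map_comp (RingHom.id R) (ρ.comp χ) σ p).symm).trans ?_
    refine (h V σ hσ).trans ?_
    exact P.map_comp _ _ _ _
  loc := ⟨_, P.loc_trans χ (P.map (RingHom.id R) χ p) p', fun U _ ρ ⟨u, hu⟩ => ⟨u, by
    refine Eq.trans ?_ hu
    exact congrArg (P.act u) (P.map_comp (RingHom.id R) χ ρ p)⟩⟩

lemma diffCoset_bijective (χ : R →+* T) : Function.Bijective (diffCoset P p χ) := by
  constructor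
  · intro p₁ p₂ h
    obtain ⟨𝒰, h𝒰, h'⟩ := (diffCoset P p χ p₁).loc
    refine P.ext_pt h𝒰 fun U _ ρ hρ => ?_
    obtain ⟨u, hu⟩ := h' U ρ hρ
    have hu2 : (diffCoset P p χ p₂).C U ρ u := h ▸ hu
    have e1 : P.act u (P.map (RingHom.id R) (ρ.comp χ) p) = P.map χ ρ p₁ := hu
    have e2 : P.act u (P.map (RingHom.id R) (ρ.comp χ) p) = P.map χ ρ p₂ := hu2
    exact e1.symm.trans e2
  · intro X
    obtain ⟨𝒰, h𝒰, h⟩ := X.loc
    choose u hu using h
    obtain ⟨p', hp', -⟩ := P.sheaf χ 𝒰 h𝒰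
      (fun U _ ρ hρ => P.act (u U ρ hρ) (P.map (RingHom.id R) (ρ.comp χ) p)) (by
        intro U V _ _ ρ σ hρ hσ
        refine (P.map_act (ρ.comp χ) σ _ _).trans ?_
        have h1 := (X.iff _ _ _ (hu V (σ.comp ρ) hσ)).mp (X.map ρ σ _ (hu U ρ hρ))
        have h2 := (P.stab (σ.comp (ρ.comp χ)) _
          (P.act (u V (σ.comp ρ) hσ) (P.map (RingHom.id R) ((σ.comp ρ).comp χ) p))).mpr h1
        refine Eq.trans ?_ h2
        refine Eq.trans ?_ (P.act_mul _ _ _)
        rw [inv_mul_cancel_right]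
        refine congrArg (P.act _) ?_
        exact (P.map_comp (RingHom.id R) (ρ.comp χ) σ p).symm)
    refine ⟨p', ?_⟩
    refine Coset.ext_common _ _ 𝒰 h𝒰 fun U _ ρ hρ => ⟨u U ρ hρ, ?_, hu U ρ hρ⟩
    exact (hp' U ρ hρ).symm

/-- The trivialization of a torsor given by a section. -/
noncomputable def secHom (β : A →+* R) (qA : Aˣ) (hq : um β qA = q) :
    TorsHom β (triv qA) P where
  eqv {T _} χ := (Equiv.ofBijective (fun p' : P.pt T χ =>
    (show (triv qA).pt T (χ.comp β) from cast (by subst hq; rfl) (diffCoset P p χ p')))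
    (by
      subst hq
      exact diffCoset_bijective P p χ)).symm
  eqv_map {T U _ _} χ ρ X := by
    subst hq
    rw [Equiv.symm_apply_eq]
    obtain ⟨p', rfl⟩ := (diffCoset_bijective P p χ).2 X
    have e1 : (Equiv.ofBijective (diffCoset P p χ) (diffCoset_bijective P p χ)).symm
      (diffCoset P p χ p') = p' := by
        rw [Equiv.symm_apply_eq]
        rfl
    change _ = diffCoset P p (ρ.comp χ) (P.map χ ρ
      ((Equiv.ofBijective (diffCoset P p χ) (diffCoset_bijective P p χ)).symm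
      (diffCoset P p χ p')))
    rw [e1]
    apply Coset.ext
    funext V _ σ u
    apply propext
    change _ ↔ (P.act u (P.map (RingHom.id R) (σ.comp (ρ.comp χ)) p) =
      P.map (ρ.comp χ) σ (P.map χ ρ p'))
    rw [← P.map_comp]
    rfl
  eqv_act {T _} χ u X := by
    subst hq
    rw [Equiv.symm_apply_eq]
    obtain ⟨p', rfl⟩ := (diffCoset_bijective P p χ).2 X
    have e1 : (Equiv.ofBijective (diffCoset P p χ) (diffCoset_bijective P p χ)).symm
      (diffCoset P p χ p') = p' := by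
        rw [Equiv.symm_apply_eq]
        rfl
    change _ = diffCoset P p χ (P.act u
      ((Equiv.ofBijective (diffCoset P p χ) (diffCoset_bijective P p χ)).symm
      (diffCoset P p χ p')))
    rw [e1]
    apply Coset.ext
    funext V _ σ v
    apply propext
    change (P.act ((um σ u)⁻¹ * v) (P.map (RingHom.id R) (σ.comp χ) p) = P.map χ σ p') ↔
      (P.act v (P.map (RingHom.id R) (σ.comp χ) p) = P.map χ σ (P.act u p'))
    rw [P.map_act, P.act_mul]
    constructor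
    · intro h
      rw [← h, ← P.act_mul (um σ u) (um σ u)⁻¹, mul_inv_cancel, P.act_one]
    · intro h
      rw [h, ← P.act_mul, inv_mul_cancel, P.act_one]

end

end Pool.Agent.TH165.Tan
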