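import Mathlib
import Pool.Agent.TH165.Tan.Space
import Pool.Agent.TH165.Tan.Triv
import Pool.Agent.TH165.Tan.GlueObj

set_option autoImplicit false

open CategoryTheory

namespace Pool.Agent.TH165.Tan

variable {A B C D R S T U : Type} [CommRing A] [CommRing B] [CommRing C] [CommRing D]
  [CommRing R] [CommRing S] [CommRing T] [CommRing U]

/-! ### The total space of a torsor -/

/-- The total space of a torsor. -/
def Tors.tot {q : Cˣ} (P : Tors q) : FnOver C where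
  obj R _ := Σ ψ : C →+* R, P.pt R ψ
  map φ t := ⟨φ.comp t.1, P.map t.1 φ t.2⟩
  map_id {R} _ t := by
    obtain ⟨ψ, p⟩ := t
    exact congrArg (fun b : P.pt R ψ => (⟨ψ, b⟩ : Σ ψ : C →+* R, P.pt R ψ)) (P.map_id ψ p)
  map_comp {R S T} _ _ _ φ χ t := by
    obtain ⟨ψ, p⟩ := t
    exact congrArg (fun b : P.pt T ((χ.comp φ).comp ψ) =>
      (⟨(χ.comp φ).comp ψ, b⟩ : Σ ψ : C →+* T, P.pt T ψ)) (P.map_comp ψ φ χ p)
  str t := t.1
  str_map _ _ := rfl

lemma sigma_mk_inj {α : Type} {β : α → Type 1} {a : α} {b b' : β a}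
    (h : (⟨a, b⟩ : Σ a, β a) = ⟨a, b'⟩) : b = b' := by
  have := (Sigma.mk.injEq a b a b').mp h
  exact eq_of_heq this.2

lemma Tors.tot_isSheaf {q : Cˣ} (P : Tors q) : P.tot.IsSheaf := by
  intro R _ 𝒰 h𝒰 s hs
  obtain ⟨ψ, hψ, hψ'⟩ := h𝒰.glue_hom (fun S _ φ h => (s S φ h).1)
    (fun S T _ _ φ ψ h h' => congrArg (fun t => t.1) (hs S T φ ψ h h'))
  have h1 : ∀ (S : Type) [CommRing S] (φ : R →+* S) (h : 𝒰.mem φ),
      ∃ p : P.pt S (φ.comp ψ), s S φ h = ⟨φ.comp ψ, p⟩ := by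
    intro S _ φ h
    have h2 := hψ S φ h
    generalize s S φ h = t at h2
    obtain ⟨ψ', p⟩ := t
    change φ.comp ψ = ψ' at h2
    subst h2
    exact ⟨p, rfl⟩
  choose p hp using h1
  obtain ⟨t, ht, ht'⟩ := P.sheaf ψ 𝒰 h𝒰 p (by
    intro S T _ _ φ χ h h'
    have := hs S T φ χ h h'
    rw [hp S φ h, hp T (χ.comp φ) h'] at this
    exact sigma_mk_inj this)
  refine ⟨⟨ψ, t⟩, ?_, ?_⟩
  · intro S _ φ h
    rw [hp S φ h, ← ht S φ h]
    rfl
  · rintro ⟨ψ', t'⟩ h'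
    have h3 : ψ' = ψ := hψ' ψ' fun S _ φ h => congrArg (fun t => t.1) (h' S φ h)
    subst h3
    refine congrArg (fun b : P.pt R ψ' => (⟨ψ', b⟩ : Σ ψ : C →+* R, P.pt R ψ)) ?_
    refine ht' t' fun S _ φ h => ?_
    have := h' S φ h
    rw [hp S φ h] at this
    exact sigma_mk_inj this

/-- The total space of a torsor is a homogeneous space. -/
def Tors.totHS {q : Cˣ} (P : Tors q) : HS q P.tot where
  act u t := ⟨t.1, P.act u t.2⟩
  str_act _ _ := rfl
  act_mul {R _} u v t := by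
    obtain ⟨ψ, p⟩ := t
    exact congrArg (fun b : P.pt R ψ => (⟨ψ, b⟩ : Σ ψ : C →+* R, P.pt R ψ)) (P.act_mul u v p)
  map_act {R S _ _} φ u t := by
    obtain ⟨ψ, p⟩ := t
    exact congrArg (fun b : P.pt S (φ.comp ψ) => (⟨φ.comp ψ, b⟩ : Σ ψ : C →+* S, P.pt S ψ))
      (P.map_act ψ φ u p)
  sheaf := P.tot_isSheaf
  loc_nonempty p := by
    obtain ⟨S, _, φ, hφ, ⟨t⟩, hp⟩ := P.loc_nonempty p
    exact ⟨S, _, φ, hφ, hp, ⟨φ, t⟩, rfl⟩
  loc_trans {R _} t t' h p := by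
    obtain ⟨ψ, t⟩ := t
    obtain ⟨ψ', t'⟩ := t'
    change ψ = ψ' at h
    subst h
    obtain ⟨S, _, φ, hφ, ⟨u, hu⟩, hp⟩ := P.loc_trans ψ t t' p
    refine ⟨S, _, φ, hφ, hp, u, ?_⟩
    exact congrArg (fun b : P.pt S (φ.comp ψ) => (⟨φ.comp ψ, b⟩ : Σ ψ : C →+* S, P.pt S ψ)) hu
  stab {R _} u t := by
    obtain ⟨ψ, t⟩ := t
    refine Iff.trans ?_ (P.stab ψ u t)
    constructor
    · intro h
      exact sigma_mk_inj h
    · intro h
      exact congrArg (fun b : P.pt R ψ => (⟨ψ, b⟩ : Σ ψ : C →+* R, P.pt R ψ)) h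

/-- Transport of the structure of a homogeneous space along an isomorphism. -/
def HS.transport {q : Cˣ} {F F' : FnOver C} (H : HS q F)
    (e : ∀ {R : Type} [CommRing R], F'.obj R ≃ F.obj R)
    (he : ∀ {R S : Type} [CommRing R] [CommRing S] (φ : R →+* S) (t : F'.obj R),
      e (F'.map φ t) = F.map φ (e t))
    (he' : ∀ {R : Type} [CommRing R] (t : F'.obj R), F.str (e t) = F'.str t) : HS q F' where
  act u t := e.symm (H.act u (e t))
  str_act u t := by rw [← he', Equiv.apply_symm_apply, H.str_act, he']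
  act_mul u v t := by rw [Equiv.apply_symm_apply, H.act_mul]
  map_act φ u t := by
    apply e.injective
    rw [he, Equiv.apply_symm_apply, Equiv.apply_symm_apply, H.map_act, he]
  sheaf := by
    intro R _ 𝒰 h𝒰 s hs
    obtain ⟨t, ht, ht'⟩ := H.sheaf R 𝒰 h𝒰 (fun S _ φ h => e (s S φ h)) (by
      intro S T _ _ φ ψ h h'
      rw [← he, hs S T φ ψ h h'])
    refine ⟨e.symm t, ?_, ?_⟩
    · intro S _ φ h
      apply e.injective
      rw [he, Equiv.apply_symm_apply, ht]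
    · intro t' h'
      rw [Equiv.eq_symm_apply]
      refine ht' _ fun S _ φ h => ?_
      rw [← he, h' S φ h]
  loc_nonempty p := by
    obtain ⟨S, _, φ, hφ, hp, t, ht⟩ := H.loc_nonempty p
    exact ⟨S, _, φ, hφ, hp, e.symm t, by rw [← he', Equiv.apply_symm_apply, ht]⟩
  loc_trans t t' h p := by
    obtain ⟨S, _, φ, hφ, hp, u, hu⟩ := H.loc_trans (e t) (e t') (by rw [he', he', h]) p
    refine ⟨S, _, φ, hφ, hp, u, ?_⟩
    rw [he, hu, Equiv.symm_apply_eq, he]
  stab u t := by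
    rw [Equiv.symm_apply_eq, H.stab, he']

/-! ### The atlas of `BG` -/

section

variable (q : Aˣ)

lemma BG_pullMap (φ : R →+* S) (ψ : S →+* T) (x : (BG A q).Obj R) :
    (BG A q).pullMap φ ψ x = ⟨(x.2.pull φ).toPull ψ, rfl⟩ := by
  apply (BG A q).hom_ext' ((BG A q).toPull φ x)
  refine ((BG A q).comp_pullMap φ ψ x).trans ?_
  rfl

variable (γ : A →+* C) (P : Tors (um γ q))

/-- The trivial torsor over `Spec A`, as an object of the classifying stack. -/
def atlas : (BG A q).Obj A := ⟨RingHom.id A, triv (um (RingHom.id A) q)⟩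

/-- The base point of the trivial torsor. -/
def base (φ : A →+* R) : (triv q).pt R φ := Coset.pure (um φ q) 1

lemma map_base (φ : A →+* R) (ψ : R →+* S) : (triv q).map φ ψ (base q φ) = base q (ψ.comp φ) := by
  change (base q φ).pull ψ = base q (ψ.comp φ)
  refine Coset.ext_global _ _ 1 ?_ (Coset.pure_mem _ _)
  have := (Coset.pure (um φ q) 1).map (RingHom.id R) ψ 1 (Coset.pure_mem _ _)
  rw [map_one] at this
  exact this

/-- The isomorphism between the fibre product and the total space of the torsor. -/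
noncomputable def fibreEquiv {R : Type} [CommRing R] :
    ((BG A q).fibre (atlas q) ⟨γ, P⟩).obj R ≃ P.tot.obj R where
  toFun t := ⟨t.snd, t.iso.1.eqv (RingHom.id R) (base (um (RingHom.id A) q) t.fst)⟩
  invFun t := ⟨t.1.comp γ, t.1, ⟨secHom (P.pull t.1) t.2 (t.1.comp γ) (um (RingHom.id A) q) rfl,
    rfl⟩⟩
  left_inv t := by
    obtain ⟨β, ψ, ⟨f, hf⟩⟩ := t
    change β.comp (RingHom.id A) = ψ.comp γ at hf
    rw [RingHom.comp_id] at hf
    subst hf
    have key : secHom (P.pull ψ) (f.eqv (RingHom.id R) (base (um (RingHom.id A) q) (ψ.comp γ)))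
        (ψ.comp γ) (um (RingHom.id A) q) rfl = f := by
      apply TorsHom.ext
      funext T _ χ
      apply Equiv.ext
      intro X
      change (Equiv.ofBijective (diffCoset (P.pull ψ) _ χ)
        (diffCoset_bijective (P.pull ψ) _ χ)).symm X = f.eqv χ X
      rw [Equiv.symm_apply_eq]
      change X = diffCoset (P.pull ψ) _ χ (f.eqv χ X)
      obtain ⟨𝒰, h𝒰, h⟩ := Coset.loc X
      refine Coset.ext_common _ _ 𝒰 h𝒰 fun U _ ρ hρ => ?_
      obtain ⟨u, hu⟩ := h U ρ hρ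
      refine ⟨u, hu, ?_⟩
      change P.act u (P.map ψ (ρ.comp χ)
        (f.eqv (RingHom.id R) (base (um (RingHom.id A) q) (ψ.comp γ)))) =
        P.map (χ.comp ψ) ρ (f.eqv χ X)
      have e1 := f.eqv_map (RingHom.id R) (ρ.comp χ)
        (base (um (RingHom.id A) q) (ψ.comp γ))
      have e2 := f.eqv_map χ ρ X
      have e3 := f.eqv_act (ρ.comp χ) u ((triv (um (RingHom.id A) q)).map (ψ.comp γ) (ρ.comp χ)
        (base (um (RingHom.id A) q) (ψ.comp γ)))
      refine (congrArg (P.act u) e1.symm).trans (e3.symm.trans (Eq.trans ?_ e2))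
      refine congrArg (f.eqv (ρ.comp χ)) ?_
      rw [map_base]
      refine Coset.ext_global _ _ u ?_ hu
      change IsK _ ((um (RingHom.id U) u)⁻¹ * u * (um (RingHom.id U) 1)⁻¹)
      have e4 : um (RingHom.id U) u = u := rfl
      rw [e4, inv_mul_cancel, map_one, inv_one, mul_one]
      exact isK_one _
    exact congrArg (fun f : TorsHom (ψ.comp γ) (triv (um (RingHom.id A) q)) (P.pull ψ) =>
      (⟨ψ.comp γ, ψ, ⟨f, rfl⟩⟩ : (BG A q).FibPt (atlas q) ⟨γ, P⟩ R)) key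
  right_inv t := by
    obtain ⟨ψ, p⟩ := t
    refine congrArg (fun b : P.pt R ψ => (⟨ψ, b⟩ : Σ ψ : C →+* R, P.pt R ψ)) ?_
    change (Equiv.ofBijective (diffCoset (P.pull ψ) p (RingHom.id R))
        (diffCoset_bijective (P.pull ψ) p (RingHom.id R))).symm
        (base (um (RingHom.id A) q) (ψ.comp γ)) = p
    rw [Equiv.symm_apply_eq]
    change _ = diffCoset (P.pull ψ) p (RingHom.id R) p
    refine Coset.ext_global _ _ 1 (Coset.pure_mem _ _) ?_
    exact P.act_one _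

lemma fibreEquiv_map {R S : Type} [CommRing R] [CommRing S] (φ : R →+* S)
    (t : ((BG A q).fibre (atlas q) ⟨γ, P⟩).obj R) :
    fibreEquiv q γ P (((BG A q).fibre (atlas q) ⟨γ, P⟩).map φ t) =
      P.tot.map φ (fibreEquiv q γ P t) := by
  obtain ⟨β, ψ, ⟨f, hf⟩⟩ := t
  refine congrArg (fun b : P.pt S (φ.comp ψ) => (⟨φ.comp ψ, b⟩ : Σ ψ : C →+* S, P.pt S ψ)) ?_
  have h1 := BG_pullMap q ψ φ ⟨γ, P⟩
  have h2 : ((BG A q).comp (⟨f, hf⟩ : (BG A q).Hom β (atlas q) ((BG A q).pull ψ ⟨γ, P⟩))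
      ((BG A q).pullMap ψ φ ⟨γ, P⟩)).1.eqv (RingHom.id S)
        (base (um (RingHom.id A) q) (φ.comp β)) =
      f.eqv φ (base (um (RingHom.id A) q) (φ.comp β)) := by
    rw [h1]
    rfl
  refine h2.trans ?_
  refine Eq.trans ?_ (f.eqv_map (RingHom.id R) φ (base (um (RingHom.id A) q) β))
  exact congrArg (f.eqv φ) (map_base (um (RingHom.id A) q) β φ).symm

end

theorem BG_isAlgebraic (A : Type) [CommRing A] (q : Aˣ) (hq : Good q) :
    (BG A q).IsAlgebraic := by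
  refine ⟨BG_isStack A q, Unit, fun _ => A, fun _ => inferInstance, fun _ => atlas q, ?_, ?_⟩
  · rintro _ C _ ⟨γ, P⟩
    exact HS.isSmoothSpace (q := um γ q) (P.totHS.transport
      (F' := (BG A q).fibre (atlas q) ⟨γ, P⟩) (fibreEquiv q γ P) (fibreEquiv_map q γ P)
      (fun t => rfl)) (hq.map γ)
  · rintro C _ ⟨γ, P⟩
    refine P.loc_nonempty.mono ?_
    rintro S _ ψ ⟨p⟩
    exact ⟨(), ψ.comp γ, ⟨⟨secHom (P.pull ψ) p (ψ.comp γ) (um (RingHom.id A) q) rfl, rfl⟩⟩⟩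

end Pool.Agent.TH165.Tan
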