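import Mathlib
import Pool.Agent.TH165.Tan.Omega
import Pool.Agent.TH165.Tan.Alg

set_option autoImplicit false

open CategoryTheory Opposite TensorProduct

namespace Pool.Agent.TH165.Tan

/-! ### Laurent polynomials -/

/-- Laurent polynomials. -/
def LP (R : Type) [CommRing R] : Type := LaurentPolynomial R

noncomputable instance (R : Type) [CommRing R] : CommRing (LP R) :=
  inferInstanceAs (CommRing (LaurentPolynomial R))

namespace LP

variable {R : Type} [CommRing R]

/-- Constants. -/
noncomputable def C : R →+* LP R := (LaurentPolynomial.C : R →+* LaurentPolynomial R)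

/-- The powers of the variable. -/
noncomputable def T (n : ℤ) : LP R := (LaurentPolynomial.T n : LaurentPolynomial R)

/-- Coefficients. -/
noncomputable def coeff (n : ℤ) (p : LP R) : R := AddMonoidAlgebra.coeff (R := R) (M := ℤ) p n

lemma coeff_add (n : ℤ) (p p' : LP R) : coeff n (p + p') = coeff n p + coeff n p' := by
  exact congrArg (fun f => f n) (AddMonoidAlgebra.coeff_add (R := R) (M := ℤ) p p')

lemma coeff_C_mul_T (n m : ℤ) (a : R) :
    coeff n (C a * T m : LP R) = if m = n then a else 0 := by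
  have h : (C a * T m : LP R) = (AddMonoidAlgebra.single m a : LaurentPolynomial R) :=
    (LaurentPolynomial.single_eq_C_mul_T a m).symm
  rw [h]
  change (AddMonoidAlgebra.single m a : LaurentPolynomial R).coeff n = _
  rw [AddMonoidAlgebra.coeff_single, Finsupp.single_apply]

lemma T_zero : (T 0 : LP R) = 1 := LaurentPolynomial.T_zero

lemma T_add (m n : ℤ) : (T (m + n) : LP R) = T m * T n := LaurentPolynomial.T_add m n

lemma induction {P : LP R → Prop} (p : LP R) (h : ∀ (a : R) (n : ℤ), P (C a * T n))
    (h' : ∀ p p', P p → P p' → P (p + p')) : P p :=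
  LaurentPolynomial.induction_on' (motive := P) p h' (fun n a => h a n)

lemma coeff_C_mul (n : ℤ) (a : R) (p : LP R) : coeff n (C a * p) = a * coeff n p := by
  induction p using induction with
  | h b m => rw [← mul_assoc, ← map_mul, coeff_C_mul_T, coeff_C_mul_T]; split_ifs <;> simp
  | h' p p' hp hp' => rw [mul_add, coeff_add, coeff_add, hp, hp', mul_add]

/-- Evaluation. -/
noncomputable def eval {S : Type} [CommRing S] (φ : R →+* S) (x : Sˣ) : LP R →+* S :=
  LaurentPolynomial.eval₂ φ x

lemma eval_C {S : Type} [CommRing S] (φ : R →+* S) (x : Sˣ) : (eval φ x).comp C = φ := by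
  ext a
  exact LaurentPolynomial.eval₂_C φ x a

lemma eval_T {S : Type} [CommRing S] (φ : R →+* S) (x : Sˣ) (n : ℤ) :
    eval φ x (T n) = ((x ^ n : Sˣ) : S) := LaurentPolynomial.eval₂_T φ x n

/-- The variable as a unit. -/
noncomputable def X : (LP R)ˣ where
  val := T 1
  inv := T (-1)
  val_inv := by rw [← T_add]; exact T_zero
  inv_val := by rw [← T_add]; exact T_zero

lemma X_zpow (n : ℤ) : ((X ^ n : (LP R)ˣ) : LP R) = T n := by
  induction n with
  | zero => rw [zpow_zero, T_zero]; rfl
  | succ n ih => rw [zpow_add_one, Units.val_mul, ih, T_add]; rfl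
  | pred n ih => rw [zpow_sub_one, Units.val_mul, ih, sub_eq_add_neg, T_add]; rfl

lemma um_eval_X {S : Type} [CommRing S] (φ : R →+* S) (x : Sˣ) : um (eval φ x) X = x := by
  apply Units.ext
  exact (eval_T φ x 1).trans (by rw [zpow_one])

/-- The automorphism `X ↦ q X`. -/
noncomputable def sig (q : Rˣ) : LP R →+* LP R := eval C (um C q * X)

lemma coeff_sig (q : Rˣ) (n : ℤ) (p : LP R) :
    coeff n (sig q p) = ((q ^ n : Rˣ) : R) * coeff n p := by
  induction p using induction with
  | h b m =>
    have h1 : sig q (C b) = C b := RingHom.congr_fun (eval_C C (um C q * X)) b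
    have h2 : sig q (T m) = C ((q ^ m : Rˣ) : R) * T m := by
      refine (eval_T C (um C q * X) m).trans ?_
      rw [mul_zpow, Units.val_mul, X_zpow, ← map_zpow]
      rfl
    rw [map_mul, h1, h2, ← mul_assoc, ← map_mul, coeff_C_mul_T, coeff_C_mul_T]
    split_ifs with h
    · rw [h, mul_comm]
    · simp
  | h' p p' hp hp' => rw [map_add, coeff_add, coeff_add, hp, hp', mul_add]

section tensor

variable {N : Type} [AddCommGroup N] [Module R N]

/-- The module structure. -/
noncomputable abbrev alg (R : Type) [CommRing R] : Algebra R (LP R) := C.toAlgebra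

attribute [local instance] alg

/-- Coefficients as a linear map. -/
noncomputable def coeffL (n : ℤ) : LP R →ₗ[R] R where
  toFun := coeff n
  map_add' := coeff_add n
  map_smul' a p := by
    rw [Algebra.smul_def]
    exact coeff_C_mul n a p

/-- `σ` as a linear map. -/
noncomputable def sigL (q : Rˣ) : LP R →ₗ[R] LP R where
  toFun := sig q
  map_add' := map_add _
  map_smul' a p := by
    rw [Algebra.smul_def, map_mul, RingHom.id_apply, Algebra.smul_def]
    congr 1
    exact RingHom.congr_fun (eval_C C (um C q * X)) a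

/-- Coefficients of elements of the tensor product. -/
noncomputable def tc (n : ℤ) : (LP R) ⊗[R] N →ₗ[R] N :=
  (TensorProduct.lid R N).toLinearMap ∘ₗ (LinearMap.rTensor N (coeffL n))

lemma tc_tmul (n : ℤ) (p : LP R) (m : N) : tc n (p ⊗ₜ[R] m) = coeff n p • m := by
  simp [tc, coeffL]

lemma tc_sig (q : Rˣ) (n : ℤ) (w : (LP R) ⊗[R] N) :
    tc n (LinearMap.rTensor N (sigL q) w) = ((q ^ n : Rˣ) : R) • tc n w := by
  induction w with
  | zero => simp
  | add x y hx hy => rw [map_add, map_add, hx, hy, map_add, smul_add]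
  | tmul p m =>
    rw [LinearMap.rTensor_tmul, tc_tmul, tc_tmul]
    change coeff n (sig q p) • m = _
    rw [coeff_sig, mul_smul]

lemma tc_decomp (w : (LP R) ⊗[R] N) : ∃ s : Finset ℤ, ∀ s' : Finset ℤ, s ⊆ s' →
    w = ∑ n ∈ s', (T n : LP R) ⊗ₜ[R] (tc n w) := by
  induction w with
  | zero => exact ⟨∅, fun s' _ => by simp⟩
  | add x y hx hy =>
    obtain ⟨s₁, h₁⟩ := hx
    obtain ⟨s₂, h₂⟩ := hy
    classical
    refine ⟨s₁ ∪ s₂, fun s' hs' => ?_⟩
    have e₁ := h₁ s' (Finset.subset_union_left.trans hs')
    have e₂ := h₂ s' (Finset.subset_union_right.trans hs')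
    conv_lhs => rw [e₁, e₂]
    rw [← Finset.sum_add_distrib]
    refine Finset.sum_congr rfl fun n _ => ?_
    rw [map_add, tmul_add]
  | tmul p m =>
    induction p using induction with
    | h a k =>
      refine ⟨{k}, fun s' hs' => ?_⟩
      rw [Finset.singleton_subset_iff] at hs'
      rw [Finset.sum_eq_single k]
      · rw [tc_tmul, coeff_C_mul_T, if_pos rfl, ← smul_tmul, Algebra.smul_def]
        rfl
      · intro n _ hn
        rw [tc_tmul, coeff_C_mul_T, if_neg (Ne.symm hn), zero_smul, tmul_zero]
      · intro h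
        exact absurd hs' h
    | h' p p' hp hp' =>
      obtain ⟨s₁, h₁⟩ := hp
      obtain ⟨s₂, h₂⟩ := hp'
      classical
      refine ⟨s₁ ∪ s₂, fun s' hs' => ?_⟩
      have e₁ := h₁ s' (Finset.subset_union_left.trans hs')
      have e₂ := h₂ s' (Finset.subset_union_right.trans hs')
      rw [add_tmul]
      conv_lhs => rw [e₁, e₂]
      rw [← Finset.sum_add_distrib]
      refine Finset.sum_congr rfl fun n _ => ?_
      rw [map_add, tmul_add]

lemma exists_of_sig_eq {q : Rˣ} (hq : Good q) (w : (LP R) ⊗[R] N)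
    (hw : LinearMap.rTensor N (sigL q) w = w) : ∃ m : N, w = (1 : LP R) ⊗ₜ[R] m := by
  have h1 : ∀ n : ℤ, n ≠ 0 → tc n w = 0 := by
    intro n hn
    have h2 := tc_sig q n w
    rw [hw] at h2
    have h3 : (((q ^ n : Rˣ) : R) - 1) • tc n w = 0 := by
      rw [sub_smul, one_smul, ← h2, sub_self]
    obtain ⟨u, hu⟩ := hq n hn
    rw [← hu] at h3
    have h4 : ((u⁻¹ : Rˣ) : R) • ((u : R) • tc n w) = 0 := by rw [h3, smul_zero]
    rwa [← mul_smul, Units.inv_mul, one_smul] at h4
  obtain ⟨s, hs⟩ := tc_decomp w
  classical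
  refine ⟨tc 0 w, ?_⟩
  have h2 := hs (insert 0 s) (Finset.subset_insert _ _)
  rw [Finset.sum_eq_single 0] at h2
  · rw [T_zero] at h2
    exact h2
  · intro n _ hn
    rw [h1 n hn, tmul_zero]
  · intro h
    exact absurd (Finset.mem_insert_self 0 s) h

end tensor

end LP

end Pool.Agent.TH165.Tan
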