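import Mathlib
import Pool.Agent.TH165.Tan.Laurent

set_option autoImplicit false

open CategoryTheory Opposite TensorProduct

namespace Pool.Agent.TH165.Tan

section qc

variable {X : Fib} (M : QSh X) {R S : Type} [CommRing R] [CommRing S]

/-- Quasi-coherence in terms of tensor products. -/
lemma qc_bijective {φ : R →+* S} {x : X.Obj R} {y : X.Obj S} (f : X.Hom φ x y) :
    letI := φ.toAlgebra
    ∃ Φ : TensorProduct R S (M.sec x).carrier →+ (M.sec y).carrier,
      Function.Bijective Φ ∧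
      ∀ (s : S) (m : (M.sec x).carrier), Φ (s ⊗ₜ m) = s • (M.res f).app m := by
  let := φ.toAlgebra
  let := Module.compHom (M.sec y).carrier φ
  have : IsScalarTower R S (M.sec y).carrier := ⟨fun r s m => mul_smul (φ r) s m⟩
  -- the map `S ⊗ M(x) → M(y)`
  let g : (M.sec x).carrier →ₗ[R] (M.sec y).carrier :=
    { toFun := (M.res f).app
      map_add' := (M.res f).map_add
      map_smul' := (M.res f).map_smul }
  let Φ : TensorProduct R S (M.sec x).carrier →ₗ[S] (M.sec y).carrier :=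
    TensorProduct.AlgebraTensorModule.lift
      ((LinearMap.ringLmapEquivSelf S S ((M.sec x).carrier →ₗ[R] (M.sec y).carrier)).symm g)
  have hΦ : ∀ (s : S) (m : (M.sec x).carrier), Φ (s ⊗ₜ m) = s • (M.res f).app m :=
    fun s m => rfl
  -- the inverse
  obtain ⟨Ψ, hΨ, -⟩ := M.isExt f ⟨TensorProduct R S (M.sec x).carrier⟩
    ⟨{ toFun := fun m => (1 : S) ⊗ₜ[R] m
       map_add' := fun a b => TensorProduct.tmul_add _ _ _
       map_smul' := fun r m => by
        change (1 : S) ⊗ₜ[R] (r • m) = φ r • ((1 : S) ⊗ₜ[R] m)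
        rw [TensorProduct.tmul_smul, TensorProduct.smul_tmul', TensorProduct.smul_tmul']
        rfl }⟩
  have h1 : ∀ t, Φ (Ψ.app t) = t := by
    have h2 : (⟨Φ⟩ : Slin (RingHom.id S) ⟨TensorProduct R S (M.sec x).carrier⟩ (M.sec y)).comp
        (Slin.id _) = ⟨Φ⟩ := rfl
    have h3 : (Ψ.comp ⟨Φ⟩ : Slin (RingHom.id S) (M.sec y) (M.sec y)) = Slin.id _ := by
      refine (M.isExt f).hom_ext fun m => ?_
      change Φ (Ψ.app ((M.res f).app m)) = (M.res f).app m
      rw [hΨ]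
      exact (hΦ 1 m).trans (one_smul _ _)
    intro t
    exact congrArg (fun u => Slin.app u t) h3
  have h5 : ∀ t : TensorProduct R S (M.sec x).carrier, Ψ.app (Φ t) = t := by
    intro t
    induction t with
    | zero => exact (congrArg Ψ.app (map_zero Φ)).trans Ψ.map_zero
    | add a b ha hb =>
      refine (congrArg Ψ.app (map_add Φ a b)).trans ((Ψ.map_add _ _).trans ?_)
      rw [ha, hb]
    | tmul s m =>
      refine (congrArg Ψ.app (hΦ s m)).trans ?_
      refine (Ψ.map_smul s _).trans ?_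
      rw [hΨ]
      change s • ((1 : S) ⊗ₜ[R] m) = s ⊗ₜ[R] m
      rw [TensorProduct.smul_tmul', smul_eq_mul, mul_one]
  exact ⟨Φ.toAddMonoidHom, ⟨Function.LeftInverse.injective (g := Ψ.app) h5,
    fun t => ⟨Ψ.app t, h1 t⟩⟩, hΦ⟩

end qc


section trivial

variable {A R S T U : Type} [CommRing A] [CommRing R] [CommRing S] [CommRing T] [CommRing U]

/-- The morphisms between trivial torsors. -/
def tHom (q : Rˣ) (ψ : R →+* S) (v : Sˣ) : TorsHom ψ (triv q) (triv (um ψ q)) where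
  eqv {T _} χ :=
    { toFun := fun X => (triv q).act (um χ v) X
      invFun := fun X => (triv q).act (um χ v)⁻¹ X
      left_inv := fun X => ((triv q).act_mul (um χ v)⁻¹ (um χ v) X).symm.trans (by
        rw [inv_mul_cancel]
        exact (triv q).act_one X)
      right_inv := fun X => ((triv q).act_mul (φ := χ.comp ψ) (um χ v) (um χ v)⁻¹
        X).symm.trans (by
        rw [mul_inv_cancel]
        exact (triv q).act_one (φ := χ.comp ψ) X) }
  eqv_map χ ρ X := rfl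
  eqv_act {T _} χ u X := by
    change (triv q).act (um χ v) ((triv q).act u X) = (triv q).act u ((triv q).act (um χ v) X)
    rw [← (triv q).act_mul, ← (triv q).act_mul, mul_comm]

lemma tHom_congr (q : Rˣ) (ψ : R →+* S) (v w : Sˣ) (h : IsK (um ψ q) (v * w⁻¹)) :
    tHom q ψ v = tHom q ψ w := by
  apply TorsHom.ext
  funext T _ χ
  apply Equiv.ext
  intro X
  change (triv q).act (um χ v) X = (triv q).act (um χ w) X
  have h1 := ((triv q).stab (χ.comp ψ) (um χ (v * w⁻¹)) ((triv q).act (um χ w) X)).mpr (h.map χ)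
  rw [← (triv q).act_mul, map_mul, map_inv, inv_mul_cancel_right] at h1
  exact h1

lemma tHom_comp (q : Rˣ) (ψ : R →+* S) (χ : S →+* T) (v : Sˣ) (w : Tˣ) :
    (tHom q ψ v).comp (tHom (um ψ q) χ w) = tHom q (χ.comp ψ) (w * um χ v) := by
  apply TorsHom.ext
  funext U _ ρ
  apply Equiv.ext
  intro X
  change (triv q).act (um ρ w) ((triv q).act (um (ρ.comp χ) v) X) =
    (triv q).act (um ρ (w * um χ v)) X
  rw [← (triv q).act_mul, map_mul]
  rfl

lemma tHom_id (q : Rˣ) : tHom q (RingHom.id R) 1 = TorsHom.id (triv q) := by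
  apply TorsHom.ext
  funext U _ ρ
  apply Equiv.ext
  intro X
  change (triv q).act (um ρ 1) X = X
  rw [map_one, (triv q).act_one]

variable (q : Aˣ)

/-- The trivial torsor over `Spec R`. -/
def tObj (φ : A →+* R) : (BG A q).Obj R := ⟨φ, triv (um φ q)⟩

/-- The morphisms between trivial torsors. -/
def tMor (φ : A →+* R) (φ' : A →+* S) (ψ : R →+* S) (h : ψ.comp φ = φ') (v : Sˣ) :
    (BG A q).Hom ψ (tObj q φ) (tObj q φ') :=
  ⟨h ▸ tHom (um φ q) ψ v, h⟩

lemma tMor_comp (φ : A →+* R) (φ' : A →+* S) (φ'' : A →+* T) (ψ : R →+* S) (h : ψ.comp φ = φ')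
    (χ : S →+* T) (h' : χ.comp φ' = φ'') (v : Sˣ) (w : Tˣ)
    (h'' : (χ.comp ψ).comp φ = φ'') :
    (BG A q).comp (tMor q φ φ' ψ h v) (tMor q φ' φ'' χ h' w) =
      tMor q φ φ'' (χ.comp ψ) h'' (w * um χ v) := by
  subst h
  subst h'
  apply Subtype.ext
  exact tHom_comp (um φ q) ψ χ v w

lemma tMor_id (φ : A →+* R) : tMor q φ φ (RingHom.id R) rfl 1 = (BG A q).id (tObj q φ) := by
  apply Subtype.ext
  exact tHom_id (um φ q)

lemma tMor_congr (φ : A →+* R) (φ' : A →+* S) (ψ : R →+* S) (h : ψ.comp φ = φ') (v w : Sˣ)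
    (h' : IsK (um φ' q) (v * w⁻¹)) : tMor q φ φ' ψ h v = tMor q φ φ' ψ h w := by
  subst h
  apply Subtype.ext
  exact tHom_congr (um φ q) ψ v w h'

lemma tMor_congr' (φ : A →+* R) (φ' : A →+* S) (ψ : R →+* S) (h : ψ.comp φ = φ') (v w : Sˣ)
    (h' : v = w) : tMor q φ φ' ψ h v = tMor q φ φ' ψ h w := by
  rw [h']

variable (M : QSh (BG A q))

/-- The maps between the sections over trivial torsors. -/
def tRes (φ : A →+* R) (φ' : A →+* S) (ψ : R →+* S) (h : ψ.comp φ = φ') (v : Sˣ)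
    (m : (M.sec (tObj q φ)).carrier) : (M.sec (tObj q φ')).carrier :=
  (M.res (tMor q φ φ' ψ h v)).app m

lemma tRes_comp (φ : A →+* R) (φ' : A →+* S) (φ'' : A →+* T) (ψ : R →+* S) (h : ψ.comp φ = φ')
    (χ : S →+* T) (h' : χ.comp φ' = φ'') (v : Sˣ) (w : Tˣ)
    (h'' : (χ.comp ψ).comp φ = φ'') (m : (M.sec (tObj q φ)).carrier) :
    tRes q M φ' φ'' χ h' w (tRes q M φ φ' ψ h v m) =
      tRes q M φ φ'' (χ.comp ψ) h'' (w * um χ v) m :=
  (M.res_comp_app _ _ m).symm.trans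
    (congrArg (fun f => (M.res f).app m) (tMor_comp q φ φ' φ'' ψ h χ h' v w h''))

lemma tRes_id (φ : A →+* R) (m : (M.sec (tObj q φ)).carrier) :
    tRes q M φ φ (RingHom.id R) rfl 1 m = m :=
  (congrArg (fun f => (M.res f).app m) (tMor_id q φ)).trans (M.res_id_app _ m)

lemma tRes_congr (φ : A →+* R) (φ' : A →+* S) (ψ ψ' : R →+* S) (h : ψ.comp φ = φ')
    (h' : ψ'.comp φ = φ') (v w : Sˣ) (e : ψ = ψ') (hk : IsK (um φ' q) (v * w⁻¹))
    (m : (M.sec (tObj q φ)).carrier) :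
    tRes q M φ φ' ψ h v m = tRes q M φ φ' ψ' h' w m := by
  subst e
  exact congrArg (fun f => (M.res f).app m) (tMor_congr q φ φ' ψ h v w hk)

lemma tRes_congr' (φ : A →+* R) (φ' : A →+* S) (ψ ψ' : R →+* S) (h : ψ.comp φ = φ')
    (h' : ψ'.comp φ = φ') (v w : Sˣ) (e : ψ = ψ') (hk : v = w)
    (m : (M.sec (tObj q φ)).carrier) :
    tRes q M φ φ' ψ h v m = tRes q M φ φ' ψ' h' w m := by
  subst e
  subst hk
  rfl

variable (hq : Good q)

/-- The automorphisms of trivial torsors act trivially on quasi-coherent sheaves. -/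
theorem trivial_action_aux (φ : A →+* R) (c : R →+* S) (s : S →+* S) (x : Sˣ)
    (ε : Rˣ → (S →+* R)) (hs : s.comp c = c) (hsx : um s x = um c (um φ q) * x)
    (hε : ∀ w, (ε w).comp c = RingHom.id R) (hεx : ∀ w, um (ε w) x = w)
    (φ' : A →+* S) (hφ' : c.comp φ = φ')
    (key : ∀ z : (M.sec (tObj q φ')).carrier,
      tRes q M φ' φ' s (by rw [← hφ', ← RingHom.comp_assoc, hs]) 1 z = z →
      ∃ m₀ : (M.sec (tObj q φ)).carrier, z = tRes q M φ φ' c hφ' 1 m₀)
    (v : Rˣ) (m : (M.sec (tObj q φ)).carrier) :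
    tRes q M φ φ (RingHom.id R) rfl v m = m := by
  have hε' : ∀ w : Rˣ, (ε w).comp φ' = φ := by
    intro w
    rw [← hφ', ← RingHom.comp_assoc, hε, RingHom.id_comp]
  have hσ : s.comp φ' = φ' := by
    rw [← hφ', ← RingHom.comp_assoc, hs]
  -- the relations
  have r1 : ∀ m, tRes q M φ' φ' s hσ 1 (tRes q M φ φ' c hφ' 1 m) = tRes q M φ φ' c hφ' 1 m := by
    intro m
    refine (tRes_comp q M φ φ' φ' c hφ' s hσ 1 1 (by rw [hs, hφ']) m).trans ?_
    refine tRes_congr' q M φ φ' _ _ _ _ _ _ hs ?_ m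
    rw [map_one, one_mul]
  have r2 : ∀ m, tRes q M φ' φ' s hσ 1 (tRes q M φ' φ' (RingHom.id S) rfl x m) =
      tRes q M φ' φ' (RingHom.id S) rfl x (tRes q M φ' φ' s hσ 1 m) := by
    intro m
    refine (tRes_comp q M φ' φ' φ' _ rfl _ hσ x 1 hσ m).trans ?_
    refine Eq.trans ?_ (tRes_comp q M φ' φ' φ' _ hσ _ rfl 1 x hσ m).symm
    refine tRes_congr q M φ' φ' _ _ _ _ _ _ rfl ?_ m
    rw [one_mul, map_one, mul_one, hsx, mul_inv_cancel_right, ← hφ']
    exact isK_self _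
  have r3 : ∀ w : Rˣ, ∀ m, tRes q M φ' φ (ε w) (hε' w) 1 (tRes q M φ φ' c hφ' 1 m) = m := by
    intro w m
    refine (tRes_comp q M φ φ' φ c hφ' (ε w) (hε' w) 1 1 (by rw [hε, RingHom.id_comp]) m).trans
      ?_
    refine Eq.trans ?_ (tRes_id q M φ m)
    refine tRes_congr' q M φ φ _ _ _ _ _ _ (hε w) ?_ m
    rw [map_one, one_mul]
  have r4 : ∀ w : Rˣ, ∀ m, tRes q M φ φ (RingHom.id R) rfl w (tRes q M φ' φ (ε w) (hε' w) 1 m) =
        tRes q M φ' φ (ε w) (hε' w) 1 (tRes q M φ' φ' (RingHom.id S) rfl x m) := by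
    intro w m
    refine (tRes_comp q M φ' φ φ _ (hε' w) _ rfl 1 w (hε' w) m).trans ?_
    refine Eq.trans ?_ (tRes_comp q M φ' φ' φ _ rfl _ (hε' w) x 1 (hε' w) m).symm
    refine tRes_congr' q M φ' φ _ _ _ _ _ _ rfl ?_ m
    rw [map_one, mul_one, one_mul, hεx]
  -- the invariant element
  obtain ⟨m₀, hm₀⟩ := key (tRes q M φ' φ' (RingHom.id S) rfl x (tRes q M φ φ' c hφ' 1 m))
    (by rw [r2, r1])
  have final : ∀ w : Rˣ, tRes q M φ φ (RingHom.id R) rfl w m = m₀ := by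
    intro w
    conv_lhs => rw [← r3 w m]
    rw [r4, hm₀, r3]
  rw [final v, ← final 1, tRes_id]

section

attribute [local instance] LP.alg

lemma abstract_key {R : Type} [CommRing R] {N N' : Type} [AddCommGroup N] [Module R N]
    [AddCommGroup N'] [Module (LP R) N'] {q : Rˣ} (hq : Good q)
    (Φ : TensorProduct R (LP R) N →+ N') (hΦ : Function.Bijective Φ) (ι : N → N')
    (hΦ' : ∀ (s : LP R) (m : N), Φ (s ⊗ₜ m) = s • ι m) (σ : N' →+ N')
    (hσ : ∀ (s : LP R) (y : N'), σ (s • y) = LP.sig q s • σ y) (hσι : ∀ m, σ (ι m) = ι m)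
    (z : N') (hz : σ z = z) : ∃ m₀ : N, z = ι m₀ := by
  obtain ⟨w, rfl⟩ := hΦ.2 z
  have h1 : ∀ w : TensorProduct R (LP R) N, Φ (LinearMap.rTensor _ (LP.sigL q) w) = σ (Φ w) := by
    intro w
    induction w with
    | zero => rw [map_zero, map_zero, map_zero]
    | add x y hx hy => rw [map_add, map_add, map_add, map_add, hx, hy]
    | tmul p m =>
      rw [LinearMap.rTensor_tmul, hΦ', hΦ', hσ, hσι]
      rfl
  have h2 : LinearMap.rTensor _ (LP.sigL q) w = w := hΦ.1 ((h1 w).trans hz)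
  obtain ⟨m, hm⟩ := LP.exists_of_sig_eq hq w h2
  refine ⟨m, ?_⟩
  rw [hm, hΦ', one_smul]

end

include hq in
lemma key_inv (φ : A →+* R) (φ' : A →+* LP R) (hφ' : LP.C.comp φ = φ')
    (hσ : (LP.sig (um φ q)).comp φ' = φ') (z : (M.sec (tObj q φ')).carrier)
    (hz : tRes q M φ' φ' (LP.sig (um φ q)) hσ 1 z = z) :
    ∃ m₀ : (M.sec (tObj q φ)).carrier, z = tRes q M φ φ' LP.C hφ' 1 m₀ := by
  obtain ⟨Φ, hΦ, hΦ'⟩ := qc_bijective M (tMor q φ φ' LP.C hφ' 1)
  have r1 : ∀ m, tRes q M φ' φ' (LP.sig (um φ q)) hσ 1 (tRes q M φ φ' LP.C hφ' 1 m) =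
      tRes q M φ φ' LP.C hφ' 1 m := by
    intro m
    have hs : (LP.sig (um φ q)).comp LP.C = LP.C := LP.eval_C _ _
    refine (tRes_comp q M φ φ' φ' LP.C hφ' _ hσ 1 1 (by rw [hs, hφ']) m).trans ?_
    refine tRes_congr' q M φ φ' _ _ _ _ _ _ hs ?_ m
    rw [map_one, one_mul]
  let σ : (M.sec (tObj q φ')).carrier →+ (M.sec (tObj q φ')).carrier :=
    { toFun := fun y => tRes q M φ' φ' (LP.sig (um φ q)) hσ 1 y
      map_zero' := Slin.map_zero _
      map_add' := fun x y => Slin.map_add _ x y }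
  exact abstract_key (hq.map φ) Φ hΦ
    (fun m => tRes q M φ φ' LP.C hφ' 1 m) hΦ' σ
    (fun s y => (M.res (tMor q φ' φ' (LP.sig (um φ q)) hσ 1)).map_smul s y) r1 z hz

include hq in
/-- The automorphisms of trivial torsors act trivially on quasi-coherent sheaves. -/
theorem trivial_action (φ : A →+* R) (v : Rˣ) (m : (M.sec (tObj q φ)).carrier) :
    tRes q M φ φ (RingHom.id R) rfl v m = m := by
  refine trivial_action_aux q M φ LP.C (LP.sig (um φ q)) LP.X
    (fun w => LP.eval (RingHom.id R) w) (LP.eval_C _ _) (LP.um_eval_X _ _)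
    (fun w => LP.eval_C _ _) (fun w => LP.um_eval_X _ _) (LP.C.comp φ) rfl ?_ v m
  intro z hz
  exact key_inv q M hq φ (LP.C.comp φ) rfl _ z hz

end trivial

end Pool.Agent.TH165.Tan
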