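import Mathlib
import Pool.Agent.TH165.Tan.Action

set_option autoImplicit false

open CategoryTheory Opposite

namespace Pool.Agent.TH165.Tan

variable {A A₀ R S T U : Type} [CommRing A] [CommRing A₀] [CommRing R] [CommRing S] [CommRing T]
  [CommRing U]

/-! ### The closed immersion -/

/-- The closed immersion of the classifying stack over `A₀` into the classifying stack
over `A`, for a surjective ring map `A →+* A₀`. -/
def redMor (π : A →+* A₀) (q : Aˣ) : Mor (BG A₀ (um π q)) (BG A q) where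
  obj x := ⟨x.1.comp π, x.2⟩
  map f := ⟨f.1, congrArg (fun t => RingHom.comp t π) f.2⟩
  map_id _ := rfl
  map_comp _ _ := rfl

theorem redMor_isNilpotentClosedImmersion (π : A →+* A₀) (hπ : Function.Surjective π) (q : Aˣ)
    (n : ℕ) (hn : 1 ≤ n) (hJ : RingHom.ker π ^ n = ⊥) :
    (redMor π q).IsNilpotentClosedImmersion := by
  refine ⟨?_, fun x => (RingHom.ker π).map x.1, n, hn, ?_, ?_, ?_⟩
  · intro R S _ _ φ x y
    obtain ⟨α, P⟩ := x
    obtain ⟨β, Q⟩ := y
    constructor
    · rintro ⟨f, hf⟩ ⟨g, hg⟩ h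
      apply Subtype.ext
      exact congrArg (fun t => t.1) h
    · rintro ⟨f, hf⟩
      refine ⟨⟨f, ?_⟩, rfl⟩
      change (φ.comp α).comp π = β.comp π at hf
      exact (RingHom.cancel_right hπ).mp hf
  · rintro R S _ _ φ ⟨α, P⟩ ⟨β, Q⟩ ⟨f, hf⟩
    change φ.comp α = β at hf
    change (RingHom.ker π).map β = ((RingHom.ker π).map α).map φ
    rw [Ideal.map_map, hf]
  · rintro R _ ⟨α, P⟩
    change ((RingHom.ker π).map α) ^ n = ⊥
    rw [← Ideal.map_pow, hJ, Ideal.map_bot]
  · rintro R _ ⟨α, P⟩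
    change _ ↔ (RingHom.ker π).map α = ⊥
    constructor
    · rintro ⟨⟨α₀, P₀⟩, ⟨f, hf⟩⟩
      change (RingHom.id R).comp (α₀.comp π) = α at hf
      rw [eq_bot_iff, Ideal.map_le_iff_le_comap]
      intro a ha
      change α a = 0
      rw [← hf]
      change α₀ (π a) = 0
      rw [(RingHom.mem_ker).mp ha, map_zero]
    · intro h
      have h1 : RingHom.ker π ≤ RingHom.ker α := by
        intro a ha
        have := Ideal.mem_map_of_mem α ha
        rw [h] at this
        exact this
      obtain ⟨α', hα'⟩ : ∃ α' : A₀ →+* R, α'.comp π = α :=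
        ⟨RingHom.liftOfSurjective π hπ ⟨α, h1⟩, RingHom.liftOfRightInverse_comp _ _ _ _⟩
      subst hα'
      exact ⟨⟨α', P⟩, ⟨(BG A q).id ⟨α'.comp π, P⟩⟩⟩

/-! ### The morphism from `Spec A` -/

/-- The morphism `Spec A ⟶ BG` given by the trivial torsor. -/
def ptMor (A : Type) [CommRing A] (q : Aˣ) : Mor (Fib.spec A) (BG A q) where
  obj x := tObj q x.hom
  map {_ _ _ _ ψ x y} f := tMor q x.hom y.hom ψ f.eq 1
  map_id x := tMor_id q x.hom
  map_comp {R S T _ _ _ φ ψ x y z} f g := by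
    have h := tMor_comp q x.hom y.hom z.hom φ f.eq ψ g.eq 1 1
      (by rw [RingHom.comp_assoc, f.eq, g.eq])
    rw [map_one, one_mul] at h
    exact h.symm

/-- The automorphism given by a unit. -/
def ptAut (q : Aˣ) (v : Aˣ) : ptMor A q ⟶ ptMor A q :=
  ⟨fun {R} _ x => tMor q x.hom x.hom (RingHom.id R) rfl (um x.hom v),
    fun {R S _ _ φ x y} f => by
      have hf : φ.comp x.hom = y.hom := f.eq
      have h1 := tMor_comp q x.hom y.hom y.hom φ hf (RingHom.id S) rfl 1 (um y.hom v) hf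
      have h2 := tMor_comp q x.hom x.hom y.hom (RingHom.id R) rfl φ hf (um x.hom v) 1 hf
      refine h1.trans (Eq.trans ?_ h2.symm)
      have h3 : um y.hom v * um (RingHom.id S) 1 = 1 * um φ (um x.hom v) := by
        rw [map_one, mul_one, one_mul, ← hf]
        rfl
      exact congrArg (tMor q x.hom y.hom φ hf) h3⟩

lemma omega_ptAut (q : Aˣ) (hq : Good q) (v : Aˣ) :
    (omega (BG A q) (Fib.spec A)).map (ptAut q v) =
      (omega (BG A q) (Fib.spec A)).map (𝟙 (ptMor A q)) := by
  rw [CategoryTheory.Functor.map_id]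
  exact CTF.Hom.ext (NatTrans.ext (funext fun M => QSh.hom_ext _ _
    (fun x m => trivial_action q M hq x.hom (um x.hom v) m)))

lemma ptAut_ne (q : Aˣ) (v : Aˣ) (hv : ¬ IsK q v) : ptAut q v ≠ 𝟙 (ptMor A q) := by
  intro h
  apply hv
  have h1 : tMor q (RingHom.id A) (RingHom.id A) (RingHom.id A) rfl (um (RingHom.id A) v) =
      (BG A q).id (tObj q (RingHom.id A)) :=
    congrArg (fun t : ptMor A q ⟶ ptMor A q => Mor2.app t (⟨RingHom.id A, trivial⟩ : (Fib.spec A).Obj A)) h
  have h2 := congrArg (fun t => t.1.eqv (RingHom.id A) (Coset.pure _ 1)) h1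
  have h3 : (triv (um (RingHom.id A) q)).act (um (RingHom.id A) v)
      (show (triv (um (RingHom.id A) q)).pt A (RingHom.id A) from Coset.pure _ 1) =
      Coset.pure _ 1 := h2
  exact ((triv (um (RingHom.id A) q)).stab (RingHom.id A) (um (RingHom.id A) v) _).mp h3

theorem omega_not_equivalence (q : Aˣ) (hq : Good q) (v : Aˣ) (hv : ¬ IsK q v) :
    ¬ (omega (BG A q) (Fib.spec A)).IsEquivalence := by
  intro h
  exact ptAut_ne q v hv ((omega (BG A q) (Fib.spec A)).map_injective (omega_ptAut q hq v))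

/-! ### Emptiness -/

lemma mor_isEmpty (q : Aˣ) (B : Type) [CommRing B] (h : IsEmpty (A →+* B)) :
    IsEmpty (Mor (Fib.spec B) (BG A q)) := by
  constructor
  intro F
  exact h.false (F.obj (⟨RingHom.id B, trivial⟩ : (Fib.spec B).Obj B)).1

end Pool.Agent.TH165.Tan
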