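import Mathlib
import Pool.Agent.TH165.Tan.Main

set_option autoImplicit false

open CategoryTheory Opposite MonoidalCategory

namespace Pool.Agent.TH165.Tan

variable {A A₀ R S T U : Type} [CommRing A] [CommRing A₀] [CommRing R] [CommRing S] [CommRing T]
  [CommRing U]

/-- The zero endomorphism of the structure sheaf. -/
def zeroEnd (X : Fib) : QSh.Hom (QSh.unit X) (QSh.unit X) where
  app x := ⟨0⟩
  nat {_ _ _ _ φ _ _} f := Slin.ext' (fun m => (Slin.map_zero (Slin.unit φ)).symm)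

lemma ctf_isEmpty (X T : Fib) (hX : ∀ (R : Type) [CommRing R] (_ : X.Obj R), (2 : R) = 0)
    (R : Type) [CommRing R] (a : T.Obj R) (ha : (2 : R) ≠ 0) : IsEmpty (CTF X T) := by
  constructor
  intro F
  apply ha
  have h1 : QSh.IsSum (QSh.Hom.id (QSh.unit X)) (QSh.Hom.id (QSh.unit X)) (zeroEnd X) := by
    intro R _ x m
    have h3 : ∀ (R : Type) [CommRing R] (x : X.Obj R) (m : R), 0 = m + m := by
      intro R _ x m
      rw [← two_mul, hX R x, zero_mul]
    exact h3 R x m
  have h2 : QSh.IsSum (zeroEnd X) (zeroEnd X) (zeroEnd X) := fun x m => (add_zero _).symm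
  have h3 := F.add h2 a
  have h4 : ∀ m, (QSh.Hom.app (F.F.map (zeroEnd X)) a).app m = 0 := fun m => by
    have := h3 m
    exact left_eq_add.mp this
  have h5 : ∀ m : ((F.F.obj (QSh.unit X)).sec a).carrier, m + m = 0 := by
    intro m
    have h6 := F.add h1 a m
    rw [h4] at h6
    have h7 : (QSh.Hom.app (F.F.map (QSh.Hom.id (QSh.unit X))) a).app m = m := by
      have h8 : F.F.map (QSh.Hom.id (QSh.unit X)) = 𝟙 _ := F.F.map_id _
      rw [h8]
      rfl
    rw [h7] at h6
    exact h6.symm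
  let e : 𝟙_ (QSh T) ≅ F.F.obj (𝟙_ (QSh X)) := Functor.Monoidal.εIso F.F
  have h6 : ∀ m : R, (QSh.Hom.app e.inv a).app ((QSh.Hom.app e.hom a).app m) = m := fun m =>
    congrArg (fun t : 𝟙_ (QSh T) ⟶ 𝟙_ (QSh T) => (QSh.Hom.app t a).app m) e.hom_inv_id
  have h7 : (1 : R) + 1 = 0 := by
    have h8 := congrArg (QSh.Hom.app e.inv a).app (h5 ((QSh.Hom.app e.hom a).app (1 : R)))
    rw [Slin.map_zero, Slin.map_add] at h8
    rw [← h6 1]
    exact h8
  rwa [one_add_one_eq_two] at h7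

/-! ### The example -/

lemma neg_one_not_isK (q : Aˣ) (hq : Good q) (h2 : (2 : A) ≠ 0) : ¬ IsK q (-1) := by
  intro h
  have h1 : (Submodule.span A {(2 : A)}).annihilator ≠ ⊤ := by
    rw [Ne, Submodule.annihilator_eq_top_iff]
    simpa using h2
  obtain ⟨m, hm, hm'⟩ := Ideal.exists_le_maximal _ h1
  obtain ⟨S, _, φ, hφ, ⟨n, hn⟩, ⟨p, hp⟩⟩ := h ⟨m, hm.isPrime⟩
  have : Nontrivial S := ⟨0, 1, fun h => p.isPrime.ne_top
    ((Ideal.eq_top_iff_one _).mpr (h ▸ p.asIdeal.zero_mem))⟩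
  have hn0 : n = 0 := by
    have h3 : um φ q ^ (n + n) = um φ q ^ (0 : ℤ) := by
      rw [zpow_add, ← hn, ← map_mul, neg_mul_neg, one_mul, map_one, zpow_zero]
    have := (hq.map φ).eq_zero h3
    omega
  rw [hn0, zpow_zero] at hn
  have h4 : φ (-1) = 1 := congrArg Units.val hn
  have h5 : (1 : S) * φ 2 = 0 := by
    rw [one_mul]
    have : (2 : A) = 1 - (-1) := by ring
    rw [this, map_sub, h4, map_one, sub_self]
  obtain ⟨g, hg, hg'⟩ := flat_ann hφ h5 (q := p)
    (fun h => p.isPrime.ne_top ((Ideal.eq_top_iff_one _).mpr h))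
  rw [hp] at hg
  apply hg
  apply hm'
  rw [Submodule.mem_annihilator_span_singleton]
  exact hg'

lemma exists_ring : ∃ (A : Type) (_ : CommRing A) (q : Aˣ), Good q ∧ (2 : A) ≠ 0 ∧ (4 : A) = 0 := by
  let A := LaurentSeries (ZMod 4)
  let q : Aˣ := ⟨HahnSeries.single 1 1, HahnSeries.single (-1) 1, by
    rw [HahnSeries.single_mul_single]; simp, by
    rw [HahnSeries.single_mul_single]; simp⟩
  refine ⟨A, inferInstance, q, ?_, ?_, ?_⟩
  · have h1 : ∀ n : ℕ, 0 < n → IsUnit (((q ^ n : Aˣ) : A) - 1) := by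
      intro n hn
      have h2 : IsUnit ((PowerSeries.X : PowerSeries (ZMod 4)) ^ n - 1) := by
        rw [PowerSeries.isUnit_iff_constantCoeff]
        rw [map_sub, map_pow, PowerSeries.constantCoeff_X, zero_pow hn.ne', map_one, zero_sub]
        exact isUnit_one.neg
      have h3 := h2.map (HahnSeries.ofPowerSeries ℤ (ZMod 4))
      rw [map_sub, map_pow, map_one, HahnSeries.ofPowerSeries_X] at h3
      rw [Units.val_pow_eq_pow_val]
      exact h3
    intro n hn
    rcases lt_or_gt_of_ne hn with h | h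
    · obtain ⟨k, rfl⟩ : ∃ k : ℕ, n = -(k : ℤ) := ⟨n.natAbs, by omega⟩
      have hk : 0 < k := by omega
      have h4 := h1 k hk
      have h5 : ((q ^ (-(k : ℤ)) : Aˣ) : A) - 1 =
          -((q ^ (-(k : ℤ)) : Aˣ) : A) * (((q ^ k : Aˣ) : A) - 1) := by
        have h6 : ((q ^ (-(k : ℤ)) : Aˣ) : A) * ((q ^ k : Aˣ) : A) = 1 := by
          rw [← Units.val_mul, zpow_neg, zpow_natCast, inv_mul_cancel, Units.val_one]
        rw [mul_sub, neg_mul, h6]
        ring
      rw [h5]
      exact (Units.isUnit _).neg.mul h4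
    · obtain ⟨k, rfl⟩ : ∃ k : ℕ, n = (k : ℤ) := ⟨n.natAbs, by omega⟩
      have hk : 0 < k := by omega
      rw [zpow_natCast]
      exact h1 k hk
  · intro h
    have h1 : HahnSeries.C (Γ := ℤ) (2 : ZMod 4) = HahnSeries.C (0 : ZMod 4) := by
      rw [map_zero, map_ofNat]
      exact h
    exact absurd (HahnSeries.C_injective h1) (by decide)
  · have h1 : HahnSeries.C (Γ := ℤ) (4 : ZMod 4) = HahnSeries.C (0 : ZMod 4) := by
      congr 1
    rw [map_zero, map_ofNat] at h1
    exact h1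

/-- The counterexample. -/
theorem counterexample : ∃ (X₀ X T : Fib) (i : Mor X₀ X),
    X₀.IsAlgebraic ∧ X.IsAlgebraic ∧ T.IsAlgebraic ∧ i.IsNilpotentClosedImmersion ∧
    (omega X₀ T).IsEquivalence ∧ ¬ (omega X T).IsEquivalence := by
  obtain ⟨A, _, q, hq, h2, h4⟩ := exists_ring
  let π : A →+* A ⧸ Ideal.span {(2 : A)} := Ideal.Quotient.mk (Ideal.span {(2 : A)})
  have hπ : Function.Surjective π := Ideal.Quotient.mk_surjective
  have hker : RingHom.ker π = Ideal.span {(2 : A)} := Ideal.mk_ker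
  have h20 : (2 : A ⧸ Ideal.span {(2 : A)}) = 0 := by
    have : π 2 = 0 := by
      rw [← RingHom.mem_ker, hker]
      exact Ideal.mem_span_singleton_self 2
    rw [map_ofNat] at this
    exact this
  clear_value π
  refine ⟨BG (A ⧸ Ideal.span {(2 : A)}) (um π q), BG A q, Fib.spec A, redMor π q,
    BG_isAlgebraic _ _ (hq.map π), BG_isAlgebraic A q hq, spec_isAlgebraic A,
    redMor_isNilpotentClosedImmersion π hπ q 2 (by norm_num) ?_, ?_,
    omega_not_equivalence q hq (-1) (neg_one_not_isK q hq h2)⟩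
  · rw [hker, Ideal.span_singleton_pow]
    have : (2 : A) ^ 2 = 0 := by
      norm_num
      exact h4
    rw [this]
    simp
  · have e1 : IsEmpty (Mor (Fib.spec A) (BG (A ⧸ Ideal.span {(2 : A)}) (um π q))) := by
      refine mor_isEmpty _ A ⟨fun f => h2 ?_⟩
      have := congrArg f h20
      rwa [map_ofNat, map_zero] at this
    have e2 : IsEmpty (CTF (BG (A ⧸ Ideal.span {(2 : A)}) (um π q)) (Fib.spec A)) := by
      refine ctf_isEmpty _ _ (fun R _ x => ?_) A ⟨RingHom.id A, trivial⟩ h2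
      have := congrArg x.1 h20
      rwa [map_ofNat, map_zero] at this
    exact { faithful := ⟨fun {X} => (e1.false X).elim⟩
            full := ⟨fun {X} => (e1.false X).elim⟩
            essSurj := ⟨fun Y => (e2.false Y).elim⟩ }

end Pool.Agent.TH165.Tan
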